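import Pool.Agent.P.MP_9e9a11_al.Defs

namespace Pool.Agent.KGV

open Finset Matrix

section

variable {F : Type*} [Fintype F] [DecidableEq F] {φ : F → F}

/-- The first `k` iterates of a point. -/
def hdO (φ : F → F) (k : ℕ) (x : F) : Multiset F := (Multiset.range k).map fun l => φ^[l] x

/-- The stable multisets of a given size. -/
def hdS (φ : F → F) (m : ℕ) : Finset (Multiset F) :=
  ((univ : Finset (Sym F m)).image Subtype.val).filter fun Z => Z.map φ = Z

theorem hd_mem {m : ℕ} {Z : Multiset F} : Z ∈ hdS φ m ↔ Z.card = m ∧ Z.map φ = Z := by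
  rw [hdS, mem_filter, mem_image]
  exact and_congr_left' ⟨fun ⟨s, _, h⟩ => h ▸ s.2, fun h => ⟨(⟨Z, h⟩ : Sym F m), mem_univ (α := Sym F m) _, rfl⟩⟩

omit [Fintype F] [DecidableEq F] in
theorem hd_stab {k : ℕ} {x : F} (h : φ^[k] x = x) : (hdO φ k x).map φ = hdO φ k x := by
  have key : ∀ k, x ::ₘ (hdO φ k x).map φ = φ^[k] x ::ₘ hdO φ k x := by
    intro k
    induction k with
    | zero => rfl
    | succ k ih =>
      have e : hdO φ (k + 1) x = φ^[k] x ::ₘ hdO φ k x := by
        rw [hdO, Multiset.range_succ, Multiset.map_cons, hdO]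
      rw [e, Multiset.map_cons, Multiset.cons_swap, ih, Function.iterate_succ_apply']
  have := key k
  rwa [h, Multiset.cons_inj_right] at this

omit [Fintype F] in
theorem hd_count (hφ : Function.Injective φ) {Z : Multiset F} (h : Z.map φ = Z) (x : F) (l : ℕ) :
    Z.count (φ^[l] x) = Z.count x := by
  induction l with
  | zero => rfl
  | succ l ih =>
    rw [Function.iterate_succ_apply', ← ih]
    nth_rw 1 [← h]
    exact Multiset.count_map_eq_count' φ Z hφ _

omit [Fintype F] in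
theorem hd_le (hφ : Function.Injective φ) {Z : Multiset F} (h : Z.map φ = Z) {k : ℕ} {x : F}
    (hx : φ^[k] x = x) : hdO φ k x ≤ Z ↔ Nat.count (fun l => φ^[l] x = x) k ≤ Z.count x := by
  have e : (hdO φ k x).count x = Nat.count (fun l => φ^[l] x = x) k := by
    rw [hdO, Multiset.count_map, Nat.count_eq_card_filter_range]
    simp only [eq_comm (a := x)]
    rfl
  rw [← e]
  refine ⟨fun h' => Multiset.count_le_of_le x h', fun h' => Multiset.le_iff_count.2 fun y => ?_⟩
  by_cases hy : y ∈ hdO φ k x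
  · obtain ⟨l, -, rfl⟩ := Multiset.mem_map.1 hy
    rwa [hd_count hφ h, hd_count hφ (hd_stab hx)]
  · rw [Multiset.count_eq_zero_of_notMem hy]
    exact Nat.zero_le _

theorem hd_card (hφ : Function.Injective φ) {Z : Multiset F} (h : Z.map φ = Z) (x : F) :
    ((range Z.card).filter fun k => φ^[k + 1] x = x ∧ hdO φ (k + 1) x ≤ Z).card = Z.count x := by
  have hinf : {l | φ^[l] x = x}.Infinite := by
    obtain ⟨n, hn, hx⟩ := hφ.mem_periodicPts x
    exact Set.infinite_of_injective_forall_mem (f := fun t : ℕ => n * t)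
      (mul_right_injective₀ hn.ne') fun t => hx.mul_const t
  have h0 : ∀ k, 0 < Nat.count (fun l => φ^[l] x = x) (k + 1) := fun k =>
    Nat.count_strict_mono (p := fun l => φ^[l] x = x) rfl k.succ_pos
  have h1 : ∀ t, Nat.nth (fun l => φ^[l] x = x) (t + 1) - 1 + 1 =
      Nat.nth (fun l => φ^[l] x = x) (t + 1) := fun t =>
    Nat.sub_add_cancel ((Nat.zero_le _).trans_lt (Nat.nth_strictMono hinf t.lt_succ_self))
  rw [← card_range (Z.count x)]
  refine card_bij' (fun k _ => Nat.count (fun l => φ^[l] x = x) (k + 1) - 1)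
    (fun t _ => Nat.nth (fun l => φ^[l] x = x) (t + 1) - 1) (fun k hk => ?_) (fun t ht => ?_)
    (fun k hk => ?_) (fun t _ => ?_)
  · obtain ⟨-, h2, h3⟩ := mem_filter.1 hk
    have := (hd_le hφ h h2).1 h3
    have := h0 k
    rw [mem_range]
    omega
  · have h2 := Nat.nth_mem_of_infinite hinf (t + 1)
    have h3 := (hd_le hφ h h2).2 (by
      rw [Nat.count_nth_of_infinite hinf]
      exact mem_range.1 ht)
    have h4 := Multiset.card_le_card h3
    rw [hdO, Multiset.card_map, Multiset.card_range, ← h1] at h4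
    rw [mem_filter, mem_range, h1]
    exact ⟨h4, h2, h3⟩
  · rw [Nat.sub_add_cancel (h0 k), Nat.nth_count (mem_filter.1 hk).2.1, Nat.add_sub_cancel]
  · rw [h1, Nat.count_nth_of_infinite hinf, Nat.add_sub_cancel]

theorem hd_rec (hφ : Function.Injective φ) (L : Multiset F → ℂ)
    (hL : ∀ Z Z', L (Z + Z') = L Z * L Z') (m : ℕ) :
    m * ∑ Z ∈ hdS φ m, L Z = ∑ k ∈ range m,
      (∑ x ∈ univ.filter (fun x : F => φ^[k + 1] x = x), L (hdO φ (k + 1) x)) *
        ∑ Z ∈ hdS φ (m - (k + 1)), L Z := by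
  have e1 : ∀ k ∈ range m, (∑ x ∈ univ.filter (fun x : F => φ^[k + 1] x = x),
      L (hdO φ (k + 1) x)) * ∑ Z ∈ hdS φ (m - (k + 1)), L Z =
      ∑ x, ∑ Z ∈ hdS φ m, if φ^[k + 1] x = x ∧ hdO φ (k + 1) x ≤ Z then L Z else 0 := by
    intro k hk
    rw [sum_mul, sum_filter]
    refine sum_congr rfl fun x _ => ?_
    by_cases hx : φ^[k + 1] x = x
    swap
    · simp only [hx, if_false, false_and, sum_const_zero]
    have hc : (hdO φ (k + 1) x).card = k + 1 := by
      rw [hdO, Multiset.card_map, Multiset.card_range]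
    have hk' := mem_range.1 hk
    simp only [hx, if_true, true_and]
    rw [mul_sum, ← sum_filter]
    refine sum_nbij' (fun Z => hdO φ (k + 1) x + Z) (fun Z => Z - hdO φ (k + 1) x)
      (fun Z hZ => ?_) (fun Z hZ => ?_) (fun Z _ => add_tsub_cancel_left _ _)
      (fun Z hZ => add_tsub_cancel_of_le (mem_filter.1 hZ).2) fun Z _ => (hL _ _).symm
    · obtain ⟨h1, h2⟩ := hd_mem.1 hZ
      refine mem_filter.2 ⟨hd_mem.2 ⟨?_, ?_⟩, Multiset.le_add_right _ _⟩
      · rw [Multiset.card_add, hc, h1]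
        omega
      · rw [Multiset.map_add, hd_stab hx, h2]
    · obtain ⟨h0, h3⟩ := mem_filter.1 hZ
      obtain ⟨h1, h2⟩ := hd_mem.1 h0
      refine hd_mem.2 ⟨by rw [Multiset.card_sub h3, h1, hc], ?_⟩
      rw [← add_tsub_cancel_of_le h3, Multiset.map_add, hd_stab hx] at h2
      exact add_left_cancel h2
  rw [sum_congr rfl e1, sum_comm, mul_sum]
  simp only [sum_comm (s := range m)]
  rw [sum_comm]
  refine sum_congr rfl fun Z hZ => ?_
  obtain ⟨h1, h2⟩ := hd_mem.1 hZ
  subst h1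
  simp only [← sum_filter, sum_const, hd_card hφ h2, nsmul_eq_mul]
  rw [← sum_mul, ← Nat.cast_sum, Multiset.sum_count_eq_card fun a _ => mem_univ a]

theorem hd_zero : hdS φ 0 = {0} := by
  ext Z
  rw [hd_mem, mem_singleton, Multiset.card_eq_zero]
  exact ⟨fun h => h.1, fun h => ⟨h, by rw [h, Multiset.map_zero]⟩⟩

theorem hd_num (hφ : Function.Injective φ) {q r : ℕ}
    (hq : ∀ k, 0 < k → k ≤ r → (univ.filter fun x : F => φ^[k] x = x).card = q ^ k) (m : ℕ)
    (hm : m ≤ r) : (hdS φ m).card = q ^ m := by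
  induction m using Nat.strong_induction_on with
  | _ m ih =>
    rcases Nat.eq_zero_or_pos m with rfl | h0
    · rw [hd_zero, card_singleton, pow_zero]
    have h := hd_rec hφ (fun _ => 1) (fun _ _ => (one_mul _).symm) m
    simp only [sum_const, nsmul_eq_mul, mul_one] at h
    rw [sum_congr rfl (g := fun _ => ((q ^ m : ℕ) : ℂ)) fun k hk => by
      have := mem_range.1 hk
      rw [hq _ k.succ_pos (by omega), ih _ (by omega) (by omega), ← Nat.cast_mul, ← pow_add,
        Nat.add_sub_cancel' this], sum_const, card_range, nsmul_eq_mul] at h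
    exact_mod_cast mul_left_cancel₀ (Nat.cast_ne_zero.2 h0.ne') h

end

open Polynomial in
theorem hd_van {F : Type*} [Field F] [Fintype F] [DecidableEq F] (φ : F →+* F) {n : ℕ}
    (hn : (hdS φ (n + 2)).card = (univ.filter fun x : F => φ x = x).card ^ (n + 2))
    (θ : F →*₀ ℂ) (ψ : AddChar F ℂ) (hψ : ∃ x, φ x = x ∧ ψ x ≠ 1) :
    ∑ Z ∈ hdS φ (n + 2), θ Z.prod * ψ Z.sum = 0 := by
  obtain ⟨c, hc, hc1⟩ := hψ
  have hT : ∀ v : Fin (n + 2) → F, v ∈ (Fintype.piFinset fun _ =>
      univ.filter fun x : F => φ x = x) ↔ ∀ i, φ (v i) = v i := fun v => by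
    simp [Fintype.mem_piFinset]
  have hmap : ∀ Z ∈ hdS φ (n + 2), (fun i : Fin (n + 2) => (Z.map fun a => X - C a).prod.coeff i)
      ∈ Fintype.piFinset fun _ => univ.filter fun x : F => φ x = x := fun Z hZ =>
    (hT _).2 fun i => by
      rw [← coeff_map, Polynomial.map_multiset_prod, Multiset.map_map]
      nth_rw 2 [← (hd_mem.1 hZ).2]
      simp [Multiset.map_map]
  have hinj : ∀ Z ∈ hdS φ (n + 2), ∀ Z' ∈ hdS φ (n + 2),
      (fun i : Fin (n + 2) => (Z.map fun a => X - C a).prod.coeff i) =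
        (fun i : Fin (n + 2) => (Z'.map fun a => X - C a).prod.coeff i) → Z = Z' := by
    intro Z hZ Z' hZ' h
    have d1 := (natDegree_multiset_prod_X_sub_C_eq_card Z).trans (hd_mem.1 hZ).1
    have d2 := (natDegree_multiset_prod_X_sub_C_eq_card Z').trans (hd_mem.1 hZ').1
    rw [← roots_multiset_prod_X_sub_C Z, ← roots_multiset_prod_X_sub_C Z']
    congr 1
    ext i
    rcases lt_trichotomy i (n + 2) with hi | rfl | hi
    · exact congrFun h ⟨i, hi⟩
    · have m1 := (monic_multisetProd_X_sub_C Z).coeff_natDegree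
      have m2 := (monic_multisetProd_X_sub_C Z').coeff_natDegree
      rw [d1] at m1
      rw [d2] at m2
      rw [m1, m2]
    · rw [coeff_eq_zero_of_natDegree_lt (d1 ▸ hi), coeff_eq_zero_of_natDegree_lt (d2 ▸ hi)]
  have e1 : ∑ Z ∈ hdS φ (n + 2), θ Z.prod * ψ Z.sum = ∑ v ∈ Fintype.piFinset fun _ : Fin (n + 2) =>
      univ.filter fun x : F => φ x = x, θ ((-1) ^ n * v 0) * ψ (-v (Fin.last (n + 1))) := by
    refine sum_bij (fun Z _ (i : Fin (n + 2)) => (Z.map fun a => X - C a).prod.coeff i) hmap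
      (fun Z hZ Z' hZ' h => hinj Z hZ Z' hZ' h) (fun v hv => ?_) fun Z hZ => ?_
    · obtain ⟨Z, hZ, h⟩ := surj_on_of_inj_on_of_card_le
        (fun Z _ (i : Fin (n + 2)) => (Z.map fun a => X - C a).prod.coeff i) hmap
        (fun Z Z' hZ hZ' h => hinj Z hZ Z' hZ' h)
        (by rw [hn, Fintype.card_piFinset, prod_const, card_univ, Fintype.card_fin]) v hv
      exact ⟨Z, hZ, h.symm⟩
    · have h1 := (hd_mem.1 hZ).1
      have h2 := multiset_prod_X_sub_C_coeff_card_pred Z (by omega)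
      rw [h1] at h2
      have h3 : (Z.map fun a => X - C a).prod.coeff 0 = (-1) ^ (n + 2) * Z.prod := by
        rw [coeff_zero_multiset_prod, Multiset.map_map, ← h1, ← Multiset.prod_map_neg]
        simp
      beta_reduce
      rw [Fin.val_zero, Fin.val_last, h3, ← mul_assoc, ← pow_add,
        Even.neg_one_pow ⟨n + 1, by ring⟩, one_mul]
      exact congrArg (fun t => θ Z.prod * ψ t) (neg_eq_iff_eq_neg.2 h2).symm
  rw [e1]
  refine eq_zero_of_mul_eq_self_right hc1 ?_
  rw [sum_mul]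
  refine sum_equiv (Equiv.subRight (Pi.single (Fin.last (n + 1)) c)) (fun v => ?_) fun v _ => ?_
  · have h : ∀ i, φ ((Pi.single (Fin.last (n + 1)) c : Fin (n + 2) → F) i) =
        (Pi.single (Fin.last (n + 1)) c : Fin (n + 2) → F) i := fun i => by
      rw [Pi.single_apply]
      split_ifs
      · exact hc
      · exact map_zero φ
    simp only [hT, Equiv.subRight_apply, Pi.sub_apply, map_sub, h, sub_left_inj]
  · rw [Equiv.subRight_apply, Pi.sub_apply, Pi.sub_apply, Pi.single_eq_same,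
      Pi.single_eq_of_ne (Fin.last_pos.ne), sub_zero, neg_sub, sub_eq_neg_add,
      AddChar.map_add_eq_mul, mul_assoc]

/-- Hasse-Davenport lifting, for a field endomorphism `φ` of a finite field. -/
theorem hd_abstract {F : Type*} [Field F] [Fintype F] [DecidableEq F] (φ : F →+* F) {q r : ℕ}
    (hq : ∀ k, 0 < k → k ≤ r → (univ.filter fun x : F => φ^[k] x = x).card = q ^ k)
    (θ : F →*₀ ℂ) (ψ : AddChar F ℂ) (hψ : ∃ x, φ x = x ∧ ψ x ≠ 1) (hr : 0 < r) :
    - ∑ x ∈ univ.filter (fun x : F => φ^[r] x = x),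
        θ (∏ l ∈ range r, φ^[l] x) * ψ (∑ l ∈ range r, φ^[l] x) =
      (- ∑ x ∈ univ.filter (fun x : F => φ x = x), θ x * ψ x) ^ r := by
  obtain ⟨G, hG⟩ : ∃ G : ℕ → ℂ, G = fun k => ∑ x ∈ univ.filter (fun x : F => φ^[k] x = x),
    θ (hdO φ k x).prod * ψ (hdO φ k x).sum := ⟨_, rfl⟩
  obtain ⟨a, ha⟩ : ∃ a : ℕ → ℂ, a = fun m => ∑ Z ∈ hdS φ m, θ Z.prod * ψ Z.sum := ⟨_, rfl⟩
  have hrec : ∀ m : ℕ, m * a m = ∑ k ∈ range m, G (k + 1) * a (m - (k + 1)) := fun m => by
    rw [ha, hG]
    exact hd_rec φ.injective (fun Z => θ Z.prod * ψ Z.sum) (fun Z Z' => by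
      rw [Multiset.prod_add, Multiset.sum_add, map_mul, AddChar.map_add_eq_mul]; ring) m
  have a0 : a 0 = 1 := by simp [ha, hd_zero]
  have a1 : a 1 = G 1 := by simpa [a0] using hrec 1
  have a2 : ∀ m, 2 ≤ m → m ≤ r → a m = 0 := fun m h2 hm => by
    obtain ⟨n, rfl⟩ := Nat.exists_eq_add_of_le' h2
    rw [ha]
    refine hd_van φ ?_ θ ψ hψ
    rw [hd_num φ.injective hq _ hm, ← pow_one q, ← hq 1 one_pos hr]
    rfl
  have key : ∀ n, n + 1 ≤ r → -G (n + 1) = (-G 1) ^ (n + 1) := fun n => by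
    induction n with
    | zero => exact fun _ => (pow_one _).symm
    | succ n ih =>
      intro hn
      have h := hrec (n + 2)
      rw [a2 _ (by omega) hn, sum_range_succ, sum_range_succ, sum_eq_zero fun k hk => by
        have := mem_range.1 hk
        rw [a2 _ (by omega) (by omega), mul_zero], Nat.sub_self, a0,
        show n + 2 - (n + 1) = 1 by omega, a1] at h
      rw [pow_succ, ← ih (by omega)]
      linear_combination h
  obtain ⟨n, rfl⟩ := Nat.exists_eq_add_of_le' hr
  have h := key n le_rfl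
  have g1 : G 1 = ∑ x ∈ univ.filter (fun x : F => φ x = x), θ x * ψ x := by simp [hG, hdO]
  rw [g1, hG] at h
  exact h

end Pool.Agent.KGV
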