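import Pool.Agent.P.MP_9e9a11_al.Defs
import Pool.Agent.P.MP_9e9a11_al.HD

namespace Pool.Agent.KGV

open Finset Matrix

variable {p D : ℕ} [Fact p.Prime]

theorem gauss_pos {d : ℕ} (hd : 0 < d) : 0 < p ^ d - 1 :=
  Nat.sub_pos_of_lt (Nat.one_lt_pow hd.ne' (Fact.out : p.Prime).one_lt)

theorem gauss_prim (hD : 0 < D) {d : ℕ} (hdD : d ∣ D) :
    IsPrimitiveRoot (gamd p D d) (p ^ d - 1) := by
  have h := orderOf_pow_orderOf_div (x := (gam p D : GaloisField p D)) (n := p ^ d - 1)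
  rw [orderOf_units, orderOf_gam p D hD] at h
  exact h (gauss_pos hD).ne' (Nat.pow_sub_one_dvd_pow_sub_one p hdD) ▸ IsPrimitiveRoot.orderOf _

theorem mem_fix_iff (hD : 0 < D) {d : ℕ} (hd : 0 < d) (hdD : d ∣ D) (x : GaloisField p D) :
    x ^ p ^ d = x ↔ x = 0 ∨ ∃ k < p ^ d - 1, x = gamd p D d ^ k := by
  have h0 := gauss_pos (p := p) hd
  have : NeZero (p ^ d - 1) := ⟨h0.ne'⟩
  have h1 : x ^ p ^ d = x ^ (p ^ d - 1) * x := by rw [← pow_succ, Nat.sub_add_cancel (by omega)]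
  rw [h1, mul_left_eq_self₀, or_comm]
  refine or_congr_right ⟨fun h => ?_, ?_⟩
  · obtain ⟨k, hk, h⟩ := (gauss_prim hD hdD).eq_pow_of_pow_eq_one h
    exact ⟨k, hk, h.symm⟩
  · rintro ⟨k, -, rfl⟩
    rw [← pow_mul, mul_comm, pow_mul, (gauss_prim hD hdD).pow_eq_one, one_pow]

theorem orderOf_gamd (hD : 0 < D) {d : ℕ} (hd : 0 < d) (hdD : d ∣ D) :
    orderOf (gamd p D d) = p ^ d - 1 := by
  exact (gauss_prim hD hdD).eq_orderOf.symm

theorem gauss_rt : IsPrimitiveRoot (rt p) p :=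
  Complex.isPrimitiveRoot_exp p (Fact.out : p.Prime).ne_zero

theorem Psi_add (j : ZMod p) (x y : GaloisField p D) :
    Psi p D j (x + y) = Psi p D j x * Psi p D j y := by
  rw [Psi, Psi, Psi, map_add, mul_add, ZMod.val_add, ← pow_eq_pow_mod _ gauss_rt.pow_eq_one, pow_add]

/-- The additive character composed with the trace polynomial. -/
noncomputable def gaussPsi (p D : ℕ) [Fact p.Prime] (d : ℕ) (j : ZMod p) :
    AddChar (GaloisField p D) ℂ where
  toFun x := Psi p D j (∑ l ∈ range d, x ^ p ^ l)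
  map_zero_eq_one' := by simp [Psi, (Fact.out : p.Prime).ne_zero]
  map_add_eq_mul' x y := by simp only [add_pow_char_pow, sum_add_distrib, Psi_add]

theorem gaussPsi_apply (d : ℕ) (j : ZMod p) (x : GaloisField p D) :
    gaussPsi p D d j x = Psi p D j (∑ l ∈ range d, x ^ p ^ l) := rfl

theorem gaussPsi_neg (d : ℕ) (j : ZMod p) (x : GaloisField p D) :
    gaussPsi p D d (-j) x = gaussPsi p D d j (-x) := by
  have h : ∑ l ∈ range d, (-x) ^ p ^ l = -∑ l ∈ range d, x ^ p ^ l := by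
    rw [← sum_neg_distrib]
    exact sum_congr rfl fun l _ => map_neg (iterateFrobenius _ p l) x
  simp only [gaussPsi_apply, Psi, h, map_neg, neg_mul, mul_neg]

theorem gauss_tr {d : ℕ} {x : GaloisField p D} (hx : x ^ p ^ d = x) :
    ∑ l ∈ range d, (x ^ p) ^ p ^ l = ∑ l ∈ range d, x ^ p ^ l := by
  have h := (sum_range_succ' (fun l => x ^ p ^ l) d).symm.trans (sum_range_succ _ d)
  simp only [hx, pow_zero, pow_one, add_left_inj, pow_succ', pow_mul] at h
  exact h

theorem gauss_theta (hD : 0 < D) {d : ℕ} (hdD : d ∣ D) {z : ℂ} (hz : z ^ (p ^ d - 1) = 1) :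
    ∃ θ : GaloisField p D →*₀ ℂ, θ (gamd p D d) = z := by
  classical
  have := Fintype.ofFinite (GaloisField p D)
  have h0 := gauss_pos (p := p) hD
  have h1 := Nat.pow_sub_one_dvd_pow_sub_one p hdD
  obtain ⟨w, hw⟩ := IsAlgClosed.exists_pow_nat_eq z
    (Nat.div_pos (Nat.le_of_dvd h0 h1) (Nat.pos_of_dvd_of_pos h1 h0))
  have h2 : w ^ (p ^ D - 1) = 1 := by rw [← Nat.div_mul_cancel h1, pow_mul, hw, hz]
  have h3 : Units.ofPowEqOne w _ h2 h0.ne' ∈ rootsOfUnity (Fintype.card (GaloisField p D)ˣ) ℂ := by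
    rw [mem_rootsOfUnity, ← Nat.card_eq_fintype_card, Nat.card_units, GaloisField.card p D hD.ne']
    exact Units.pow_ofPowEqOne _ _
  refine ⟨(MulChar.ofRootOfUnity h3 (gam_gen p D)).toMonoidWithZeroHom, ?_⟩
  rw [gamd, map_pow, ← hw]
  exact congrArg (· ^ _) (MulChar.ofRootOfUnity_spec h3 (gam_gen p D))

section

variable [Fintype (GaloisField p D)] [DecidableEq (GaloisField p D)]

theorem gauss_sum (hD : 0 < D) {d : ℕ} (hd : 0 < d) (hdD : d ∣ D) {M : Type*} [AddCommMonoid M]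
    (f : GaloisField p D → M) : ∑ x ∈ univ.filter (fun x => x ^ p ^ d = x), f x =
      f 0 + ∑ k ∈ range (p ^ d - 1), f (gamd p D d ^ k) := by
  have h := gauss_prim (p := p) hD hdD
  have h1 : univ.filter (fun x : GaloisField p D => x ^ p ^ d = x) =
      insert 0 ((range (p ^ d - 1)).image (gamd p D d ^ ·)) := by
    ext x
    simp [mem_fix_iff hD hd hdD, eq_comm]
  rw [h1, sum_insert (by simp [h.ne_zero (gauss_pos hd).ne']), sum_image h.injOn_pow]

theorem gauss_card (hD : 0 < D) {d : ℕ} (hd : 0 < d) (hdD : d ∣ D) :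
    (univ.filter fun x : GaloisField p D => x ^ p ^ d = x).card = p ^ d := by
  have := gauss_pos (p := p) hd
  rw [card_eq_sum_ones, gauss_sum hD hd hdD, sum_const, card_range, smul_eq_mul]
  omega

theorem gauss_eq (hD : 0 < D) {d : ℕ} (hd : 0 < d) (hdD : d ∣ D) (j : ZMod p) {z : ℂ}
    (θ : GaloisField p D → ℂ) (h0 : θ 0 = 0) (h : ∀ k, θ (gamd p D d ^ k) = z ^ k) :
    gs p D d j z = ∑ x ∈ univ.filter (fun x => x ^ p ^ d = x), θ x * gaussPsi p D d j x := by
  rw [gauss_sum hD hd hdD, h0, zero_mul, zero_add]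
  exact sum_congr rfl fun k _ => by rw [h, mul_comm, gaussPsi_apply]

end

theorem gauss_nontriv (hD : 0 < D) {d : ℕ} (hd : 0 < d) (hdD : d ∣ D) {j : ZMod p} (hj : j ≠ 0) :
    ∃ x, x ^ p ^ d = x ∧ gaussPsi p D d j x ≠ 1 := by
  classical
  have := Fintype.ofFinite (GaloisField p D)
  have hp := (Fact.out : p.Prime).one_lt
  obtain ⟨x, hx, h1⟩ : ∃ x : GaloisField p D, x ^ p ^ d = x ∧ ∑ l ∈ range d, x ^ p ^ l ≠ 0 := by
    by_contra h
    push Not at h
    have h1 := Polynomial.eq_zero_of_natDegree_lt_card_of_eval_eq_zero'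
      (∑ l ∈ range d, Polynomial.X ^ p ^ l) (univ.filter fun x : GaloisField p D => x ^ p ^ d = x)
      (fun x hx => by simpa [Polynomial.eval_finsetSum] using h x (mem_filter.1 hx).2) (by
        rw [gauss_card hD hd hdD]
        refine (Polynomial.natDegree_sum_le_of_forall_le (n := p ^ (d - 1)) _ _
          fun l hl => ?_).trans_lt (Nat.pow_lt_pow_right hp (by omega))
        rw [Polynomial.natDegree_X_pow]
        exact Nat.pow_le_pow_right hp.le (by have := mem_range.1 hl; omega))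
    have h2 := congrArg (Polynomial.coeff · 1) h1
    simp [Polynomial.coeff_X_pow, eq_comm (a := 1), hp.ne', hd.ne'] at h2
  have h2 : (∑ l ∈ range d, x ^ p ^ l) ^ p = ∑ l ∈ range d, x ^ p ^ l := by
    rw [sum_pow_char, ← gauss_tr hx]
    exact sum_congr rfl fun l _ => pow_right_comm _ _ _
  obtain ⟨n, hn⟩ := (mem_bot_iff_intCast p _).1 ((Subfield.mem_bot_iff_pow_eq_self _ p).2 h2)
  refine ⟨x, hx, ?_⟩
  rw [gaussPsi_apply, ← hn, Psi, ← zsmul_one, map_zsmul, lam_one, zsmul_one]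
  refine gauss_rt.pow_ne_one_of_pos_of_lt (fun h => ?_) (ZMod.val_lt _)
  refine h1 (hn ▸ (CharP.intCast_eq_zero_iff _ p n).2 ((ZMod.intCast_zmod_eq_zero_iff_dvd n p).1 ?_))
  exact (mul_eq_zero.1 ((ZMod.val_eq_zero _).1 h)).resolve_left hj

/-- The subfield with `p ^ d` elements. -/
noncomputable def gaussK (p D : ℕ) [Fact p.Prime] (d : ℕ) : Subfield (GaloisField p D) :=
  (iterateFrobenius _ p d).eqLocusField (RingHom.id _)

/-- The restricted additive character. -/
noncomputable def gaussRes (p D : ℕ) [Fact p.Prime] (d : ℕ) (j : ZMod p) :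
    AddChar (gaussK p D d) ℂ :=
  (gaussPsi p D d j).compAddMonoidHom (gaussK p D d).subtype.toAddMonoidHom

theorem gaussRes_ne (hD : 0 < D) {d : ℕ} (hd : 0 < d) (hdD : d ∣ D) {j : ZMod p} (hj : j ≠ 0) :
    gaussRes p D d j ≠ 1 := fun e => by
  obtain ⟨x, hx, h⟩ := gauss_nontriv hD hd hdD hj
  exact h (DFunLike.congr_fun e ⟨x, hx⟩)

variable (p D) in
theorem gauss_sub [Fintype (GaloisField p D)] [DecidableEq (GaloisField p D)] (d : ℕ)
    [Fintype (gaussK p D d)] {M : Type*} [AddCommMonoid M] (f : GaloisField p D → M) :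
    ∑ x ∈ univ.filter (fun x => x ^ p ^ d = x), f x = ∑ x : gaussK p D d, f x :=
  sum_subtype _ (fun _ => mem_filter_univ _) f

theorem gs_frob (hD : 0 < D) {d : ℕ} (hd : 0 < d) (hdD : d ∣ D) (j : ZMod p) {z : ℂ}
    (hz : z ^ (p ^ d - 1) = 1) : gs p D d j (z ^ p) = gs p D d j z := by
  classical
  have := Fintype.ofFinite (GaloisField p D)
  obtain ⟨θ, hθ⟩ := gauss_theta hD hdD hz
  rw [gauss_eq hD hd hdD j (z := z) θ (map_zero θ) fun k => by rw [map_pow, hθ],
    gauss_eq hD hd hdD j (fun x => θ (x ^ p)) (by simp [(Fact.out : p.Prime).ne_zero])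
      fun k => by rw [map_pow, map_pow, hθ, pow_right_comm]]
  have h := (frobenius (GaloisField p D) p).injective
  refine sum_bijective _ (Finite.injective_iff_bijective.1 h) (fun x => ?_) fun x hx => ?_
  · rw [mem_filter_univ, mem_filter_univ, ← map_pow, h.eq_iff]
  · rw [gaussPsi_apply, gaussPsi_apply, ← gauss_tr (mem_filter.1 hx).2]
    rfl

theorem gauss_range {M : Type*} [AddCommMonoid M] (f : ℕ → M) (d r : ℕ) :
    ∑ i ∈ range (d * r), f i = ∑ l ∈ range r, ∑ m ∈ range d, f (d * l + m) := by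
  induction r with
  | zero => simp
  | succ r ih => rw [mul_add_one, sum_range_add, ih, sum_range_succ]

theorem gs_lift {n : ℕ} (hD : Big n D) {d r : ℕ} (hd : 0 < d) (hr : 0 < r) (hn : d * r ≤ n)
    {j : ZMod p} (hj : j ≠ 0) {z : ℂ} (hz : z ^ (p ^ d - 1) = 1) :
    - gs p D (d * r) j z = (- gs p D d j z) ^ r := by
  classical
  have := Fintype.ofFinite (GaloisField p D)
  have h1 : d * r ∣ D := hD.2 _ (Nat.mul_pos hd hr) hn
  have h2 : d ∣ D := (dvd_mul_right d r).trans h1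
  obtain ⟨θ, hθ⟩ := gauss_theta hD.1 h2 hz
  have h3 : ∀ k (x : GaloisField p D), (iterateFrobenius _ p d)^[k] x = x ^ p ^ (d * k) :=
    fun k x => (iterateFrobenius_mul_apply _ p d k x).symm
  have h4 := hd_abstract (iterateFrobenius (GaloisField p D) p d) (q := p ^ d) (r := r)
    (fun k hk hkr => by
      simp only [h3, ← pow_mul]
      exact gauss_card hD.1 (Nat.mul_pos hd hk)
        (hD.2 _ (Nat.mul_pos hd hk) ((Nat.mul_le_mul_left d hkr).trans hn)))
    θ (gaussPsi p D d j) (gauss_nontriv hD.1 hd h2 hj) hr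
  have h5 : gamd p D (d * r) ^ ∑ l ∈ range r, p ^ (d * l) = gamd p D d := by
    have h := gauss_pos (p := p) hd
    simp only [pow_mul p]
    rw [Nat.geomSum_eq (by omega), gamd, gamd, ← pow_mul, ← pow_mul, Nat.div_mul_div
      (Nat.pow_sub_one_dvd_pow_sub_one p h1)
      (Nat.pow_sub_one_dvd_pow_sub_one p (dvd_mul_right d r))]
  rw [gauss_eq hD.1 hd h2 j θ (map_zero θ) fun k => by rw [map_pow, hθ],
    gauss_eq hD.1 (Nat.mul_pos hd hr) h1 j (fun x => θ (∏ l ∈ range r, x ^ p ^ (d * l)))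
      (by simp [(Fact.out : p.Prime).ne_zero, hr.ne'])
      fun k => by rw [prod_pow_eq_pow_sum, pow_right_comm, h5, map_pow, hθ]]
  simp only [h3] at h4
  refine Eq.trans (congrArg _ (sum_congr rfl fun x _ => ?_)) h4
  rw [gaussPsi_apply, gaussPsi_apply, gauss_range, sum_comm]
  simp only [sum_pow_char_pow, pow_add, pow_mul x]

theorem gs_mul_gs (hD : 0 < D) {d : ℕ} (hd : 0 < d) (hdD : d ∣ D) {j : ZMod p} (hj : j ≠ 0)
    {z : ℂ} (hz : z ^ (p ^ d - 1) = 1) (hz1 : z ≠ 1) :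
    gs p D d j z * gs p D d (-j) z⁻¹ = (p : ℂ) ^ d := by
  classical
  have := Fintype.ofFinite (GaloisField p D)
  obtain ⟨θ, hθ⟩ := gauss_theta hD hdD hz
  let χ : MulChar (gaussK p D d) ℂ :=
    { toFun := fun x => θ x
      map_one' := map_one θ
      map_mul' := fun x y => map_mul θ _ _
      map_nonunit' := fun x hx => by rw [not_not.1 (mt isUnit_iff_ne_zero.2 hx)]; exact map_zero θ }
  have h1 : gamd p D d ∈ gaussK p D d := by
    have h := gauss_pos (p := p) hd
    show gamd p D d ^ p ^ d = gamd p D d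
    rw [← Nat.sub_add_cancel (show 1 ≤ p ^ d by omega), pow_succ, (gauss_prim hD hdD).pow_eq_one,
      one_mul]
  have h2 : χ ≠ 1 := fun e => hz1 (hθ.symm.trans ((DFunLike.congr_fun e ⟨_, h1⟩).trans
    (MulChar.one_apply (Ne.isUnit fun h => (gauss_prim hD hdD).ne_zero (gauss_pos hd).ne'
      (congrArg Subtype.val h)))))
  have h3 := gaussSum_mul_gaussSum_eq_card h2
    (AddChar.IsPrimitive.of_ne_one (gaussRes_ne hD hd hdD hj))
  have h4 := gauss_card (p := p) hD hd hdD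
  rw [card_eq_sum_ones, gauss_sub p D d, ← card_eq_sum_ones, card_univ] at h4
  rw [gauss_eq hD hd hdD j θ (map_zero θ) fun k => by rw [map_pow, hθ],
    gauss_eq hD hd hdD (-j) (fun x => (θ x)⁻¹) (by simp) fun k => by rw [map_pow, hθ, inv_pow],
    gauss_sub p D d, gauss_sub p D d, ← Nat.cast_pow, ← h4, ← h3]
  refine congrArg _ (sum_congr rfl fun x _ => ?_)
  rw [MulChar.inv_apply_eq_inv', gaussPsi_neg]
  rfl

theorem gs_one (hD : 0 < D) {j : ZMod p} (hj : j ≠ 0) : gs p D 1 j 1 = -1 := by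
  classical
  have := Fintype.ofFinite (GaloisField p D)
  have h := AddChar.sum_eq_zero_of_ne_one (gaussRes_ne hD one_pos (one_dvd D) hj)
  have h1 := gauss_sum hD one_pos (one_dvd D) (gaussPsi p D 1 j)
  rw [gauss_sub p D 1, AddChar.map_zero_eq_one] at h1
  simp only [gs, one_pow, mul_one]
  exact eq_neg_of_add_eq_zero_right (h1.symm.trans h)

end Pool.Agent.KGV
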