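import Pool.Agent.P.MP_9e9a11_al.Defs

namespace Pool.Agent.KGV

open Finset Matrix

theorem stab_orb_succ (p d : ℕ) (z : ℂ) : orb p (d + 1) z = z ^ p ^ d ::ₘ orb p d z := by
  unfold orb
  rw [Multiset.range_succ, Multiset.map_cons]

theorem stab_orb_succ' (p d : ℕ) (z : ℂ) :
    orb p (d + 1) z = z ::ₘ (orb p d z).map (· ^ p) := by
  induction d with
  | zero => simp [orb]
  | succ d ih =>
    rw [stab_orb_succ p (d + 1), ih, Multiset.cons_swap, ← ih, stab_orb_succ p d,
      Multiset.map_cons, ← pow_mul, ← pow_succ]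

theorem stab_orb_stable {p d : ℕ} {z : ℂ} (h : z ^ p ^ d = z) : Stable p (orb p d z) := by
  have e := stab_orb_succ' p d z
  rw [stab_orb_succ, h] at e
  exact ((Multiset.cons_inj_right z).1 e).symm

theorem stab_periodic {p : ℕ} {Y : Multiset ℂ} (hY : Stable p Y) {z : ℂ} (hz : z ∈ Y) :
    z ∈ Function.periodicPts (fun x : ℂ => x ^ p) := by
  classical
  have hm : Set.MapsTo (fun x : ℂ => x ^ p) (Y.toFinset : Set ℂ) (Y.toFinset : Set ℂ) := by
    intro x hx
    have h1 : x ∈ Y := Multiset.mem_toFinset.1 hx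
    have h2 : x ^ p ∈ Y.map (· ^ p) := Multiset.mem_map_of_mem _ h1
    rw [hY] at h2
    exact Multiset.mem_toFinset.2 h2
  have hsurj : Function.Surjective (hm.restrict _ _ _) := by
    rintro ⟨y, hy⟩
    have h1 : y ∈ Y.map (· ^ p) := by rw [hY]; exact Multiset.mem_toFinset.1 hy
    obtain ⟨x, hx, rfl⟩ := Multiset.mem_map.1 h1
    exact ⟨⟨x, Multiset.mem_toFinset.2 hx⟩, rfl⟩
  have hinj := Finite.injective_iff_surjective.2 hsurj
  obtain ⟨n, hn, h⟩ := Function.mem_periodicPts.1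
    (hinj.mem_periodicPts ⟨z, Multiset.mem_toFinset.2 hz⟩)
  refine Function.mk_mem_periodicPts hn ?_
  have := congrArg Subtype.val h
  rwa [Set.MapsTo.coe_iterate_restrict] at this

theorem stab_pow_mem {p : ℕ} {Y : Multiset ℂ} (hY : Stable p Y) {z : ℂ} (hz : z ∈ Y) (l : ℕ) :
    z ^ p ^ l ∈ Y := by
  induction l with
  | zero => simpa using hz
  | succ l ih =>
    have h2 : (z ^ p ^ l) ^ p ∈ Y.map (· ^ p) := Multiset.mem_map_of_mem _ ih
    rwa [hY, ← pow_mul, ← pow_succ] at h2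

/-- A stable multiset without zero is a sum of exact orbits. -/
theorem stable_induction {p : ℕ} {P : Multiset ℂ → Prop} (hp : 1 < p) (h0 : P 0)
    (hs : ∀ (d : ℕ) (z : ℂ) (Y : Multiset ℂ), 0 < d → z ^ (p ^ d - 1) = 1 → (orb p d z).Nodup →
      Stable p Y → (0 : ℂ) ∉ Y → P Y → P (orb p d z + Y)) :
    ∀ Y, Stable p Y → (0 : ℂ) ∉ Y → P Y := by
  intro Y
  induction h : Y.card using Nat.strong_induction_on generalizing Y with
  | _ c ih =>
    intro hY hz
    rcases Y.empty_or_exists_mem with rfl | ⟨z, hzY⟩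
    · exact h0
    have hper := stab_periodic hY hzY
    have hd := Function.minimalPeriod_pos_of_mem_periodicPts hper
    have hit : ∀ l, (fun x : ℂ => x ^ p)^[l] z = z ^ p ^ l := fun l => by rw [pow_iterate]
    have hfix : z ^ p ^ Function.minimalPeriod (fun x : ℂ => x ^ p) z = z := by
      rw [← hit]; exact Function.iterate_minimalPeriod
    have hinj := Function.iterate_injOn_Iio_minimalPeriod (f := fun x : ℂ => x ^ p) (x := z)
    generalize Function.minimalPeriod (fun x : ℂ => x ^ p) z = d at hd hfix hinj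
    have hz0 : z ≠ 0 := fun e => hz (e ▸ hzY)
    have hnd : (orb p d z).Nodup := by
      refine Multiset.Nodup.map_on (fun a ha b hb e => ?_) (Multiset.nodup_range d)
      refine hinj (Multiset.mem_range.1 ha) (Multiset.mem_range.1 hb) ?_
      change (fun x : ℂ => x ^ p)^[a] z = (fun x : ℂ => x ^ p)^[b] z
      rw [hit, hit]; exact e
    have hle : orb p d z ≤ Y := (Multiset.le_iff_subset hnd).2 fun x hx => by
      obtain ⟨l, -, rfl⟩ := Multiset.mem_map.1 hx
      exact stab_pow_mem hY hzY l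
    obtain ⟨Z, rfl⟩ := Multiset.le_iff_exists_add.1 hle
    have hZ : Stable p Z := by
      have e1 : (orb p d z).map (· ^ p) = orb p d z := stab_orb_stable hfix
      have e2 : (orb p d z + Z).map (· ^ p) = orb p d z + Z := hY
      rw [Multiset.map_add, e1] at e2
      exact add_left_cancel e2
    have hZ0 : (0 : ℂ) ∉ Z := fun e => hz (Multiset.mem_add.2 (Or.inr e))
    have hone : z ^ (p ^ d - 1) = 1 := by
      have h1 : 1 ≤ p ^ d := Nat.one_le_pow _ _ (by omega)
      apply mul_right_cancel₀ hz0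
      rw [← pow_succ, Nat.sub_add_cancel h1, hfix, one_mul]
    refine hs d z Z hd hone hnd hZ hZ0 (ih Z.card ?_ Z rfl hZ hZ0)
    rw [← h, Multiset.card_add]
    have : (orb p d z).card = d := by simp [orb]
    omega

theorem stable_pow_eq_one {p n D : ℕ} (hp : 1 < p) (hD : Big n D) {Y : Multiset ℂ}
    (hY : Stable p Y) (h0 : (0 : ℂ) ∉ Y) (hn : Y.card ≤ n) : ∀ y ∈ Y, y ^ (p ^ D - 1) = 1 := by
  refine stable_induction (P := fun Y => Y.card ≤ n → ∀ y ∈ Y, y ^ (p ^ D - 1) = 1) hp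
    (fun _ y hy => absurd hy (Multiset.notMem_zero y)) ?_ Y hY h0 hn
  intro d z Z hd hz _ _ _ ih hc y hy
  have hcard : (orb p d z).card = d := by simp [orb]
  rw [Multiset.card_add, hcard] at hc
  rcases Multiset.mem_add.1 hy with hy | hy
  · obtain ⟨l, -, rfl⟩ := Multiset.mem_map.1 hy
    obtain ⟨q, hq⟩ := Nat.pow_sub_one_dvd_pow_sub_one p (hD.2 d hd (by omega))
    rw [hq, ← pow_mul, mul_comm (p ^ l), mul_assoc, pow_mul, hz, one_pow]
  · exact ih (by omega) y hy

theorem stab_esymm_map {R S : Type*} [CommRing R] [CommRing S] (f : R →+* S) (Z : Multiset R)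
    (k : ℕ) : f (Z.esymm k) = (Z.map f).esymm k := by
  unfold Multiset.esymm
  rw [map_multiset_sum, Multiset.powersetCard_map, Multiset.map_map, Multiset.map_map]
  refine congrArg Multiset.sum (Multiset.map_congr rfl fun t _ => ?_)
  exact map_multiset_prod f t

theorem stab_esymm_inj {K : Type*} [Field K] {Z Z' : Multiset K} {m : ℕ} (h : Z.card = m)
    (h' : Z'.card = m) (he : ∀ k, k < m → Z.esymm (k + 1) = Z'.esymm (k + 1)) : Z = Z' := by
  rw [← Polynomial.roots_multiset_prod_X_sub_C Z, ← Polynomial.roots_multiset_prod_X_sub_C Z',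
    Multiset.prod_X_sub_X_eq_sum_esymm, Multiset.prod_X_sub_X_eq_sum_esymm, h, h']
  refine congrArg Polynomial.roots (Finset.sum_congr rfl fun j hj => ?_)
  have : Z.esymm j = Z'.esymm j := by
    rcases j with _ | j
    · simp [Multiset.esymm]
    · exact he j (by have := Finset.mem_range.1 hj; omega)
  rw [this]

theorem stab_card_idx (p n : ℕ) : p ^ n * (p - 1) ≤ Fintype.card (Idx p n) := by
  have h := Fintype.card_le_of_injective
    (fun x : (Fin n → Fin p) × Fin (p - 1) =>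
      (⟨Fin.snoc (α := fun _ => Fin p) x.1 ⟨x.2, by have := x.2.2; omega⟩, by
        have := x.2.2
        rw [Fin.snoc_last]
        change (x.2 : ℕ) + 1 < p
        omega⟩ : Idx p n)) (by
      rintro ⟨a, b⟩ ⟨a', b'⟩ e
      have e1 := congrArg Subtype.val e
      obtain ⟨h1, h2⟩ := (Fin.snoc_inj (α := fun _ => Fin p)).1 e1
      refine Prod.ext h1 (Fin.ext ?_)
      exact congrArg (fun t : Fin p => (t : ℕ)) h2)
  simpa using h

theorem stab_phi {p D : ℕ} [Fact p.Prime] (hD : 0 < D) : ∃ φ : ℂ → GaloisField p D,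
    (∀ y, y ^ (p ^ D - 1) = 1 → φ y ≠ 0 ∧ φ (y ^ p) = φ y ^ p) ∧
      Set.InjOn φ {y | y ^ (p ^ D - 1) = 1} := by
  classical
  have hp : 1 < p := (Fact.out : p.Prime).one_lt
  have hN : p ^ D - 1 ≠ 0 := by
    have := Nat.one_lt_pow hD.ne' hp
    omega
  haveI : NeZero (p ^ D - 1) := ⟨hN⟩
  have hr : IsPrimitiveRoot (rt (p ^ D - 1)) (p ^ D - 1) := Complex.isPrimitiveRoot_exp _ hN
  have hfin : IsOfFinOrder (rt (p ^ D - 1)) := hr.isOfFinOrder hN
  have key : ∀ m m' : ℕ, rt (p ^ D - 1) ^ m = rt (p ^ D - 1) ^ m' ↔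
      ((gam p D ^ m : (GaloisField p D)ˣ) : GaloisField p D) = (gam p D ^ m' : (GaloisField p D)ˣ) := by
    intro m m'
    rw [hfin.pow_eq_pow_iff_modEq, ← hr.eq_orderOf, Units.val_inj, pow_eq_pow_iff_modEq,
      orderOf_gam p D hD]
  let φ : ℂ → GaloisField p D := fun y =>
    if h : ∃ m : ℕ, rt (p ^ D - 1) ^ m = y then (gam p D ^ h.choose : (GaloisField p D)ˣ) else 0
  have hφ : ∀ m : ℕ, φ (rt (p ^ D - 1) ^ m) = (gam p D ^ m : (GaloisField p D)ˣ) := by
    intro m
    have h : ∃ m' : ℕ, rt (p ^ D - 1) ^ m' = rt (p ^ D - 1) ^ m := ⟨m, rfl⟩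
    exact (dif_pos h).trans ((key _ _).1 h.choose_spec)
  refine ⟨φ, fun y hy => ?_, fun y hy y' hy' e => ?_⟩
  · obtain ⟨m, -, rfl⟩ := hr.eq_pow_of_pow_eq_one hy
    rw [← pow_mul, hφ, hφ, pow_mul, Units.val_pow_eq_pow_val (gam p D ^ m)]
    exact ⟨Units.ne_zero _, rfl⟩
  · obtain ⟨m, -, rfl⟩ := hr.eq_pow_of_pow_eq_one hy
    obtain ⟨m', -, rfl⟩ := hr.eq_pow_of_pow_eq_one hy'
    rw [hφ, hφ] at e
    exact (key _ _).2 e

theorem count_stable {p D : ℕ} [Fact p.Prime] {n : ℕ} (hD : Big (n + 1) D) :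
    ∃ s : Finset (Multiset ℂ), s.card ≤ Fintype.card (Idx p n) ∧
      ∀ Y, Y ∈ s ↔ Stable p Y ∧ (0 : ℂ) ∉ Y ∧ Y.card = n + 1 := by
  classical
  have hp : 1 < p := (Fact.out : p.Prime).one_lt
  obtain ⟨φ, hφ, hinj⟩ := stab_phi (p := p) hD.1
  let F : Finset (GaloisField p D) :=
    (Polynomial.X ^ p - Polynomial.X : Polynomial (GaloisField p D)).roots.toFinset
  have hF : ∀ x, x ∈ F ↔ x ^ p = x := fun x => by
    rw [Multiset.mem_toFinset, Polynomial.mem_roots (FiniteField.X_pow_card_sub_X_ne_zero _ hp)]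
    simp [sub_eq_zero]
  have hFc : F.card ≤ p := (Multiset.toFinset_card_le _).trans
    ((Polynomial.card_roots' _).trans (FiniteField.X_pow_card_sub_X_natDegree_eq _ hp).le)
  let T : Finset ((Fin n → GaloisField p D) × GaloisField p D) :=
    (Fintype.piFinset fun _ => F) ×ˢ F.erase 0
  have hT : T.card ≤ Fintype.card (Idx p n) := by
    refine le_trans ?_ (stab_card_idx p n)
    rw [Finset.card_product, Fintype.card_piFinset_const,
      Finset.card_erase_of_mem ((hF 0).2 (zero_pow (by omega)))]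
    exact Nat.mul_le_mul (Nat.pow_le_pow_left hFc n) (by omega)
  let S : Set (Multiset ℂ) := {Y | Stable p Y ∧ (0 : ℂ) ∉ Y ∧ Y.card = n + 1}
  let g : Multiset ℂ → (Fin n → GaloisField p D) × GaloisField p D := fun Y =>
    (fun k => (Y.map φ).esymm (k + 1), (Y.map φ).esymm (n + 1))
  have hroot : ∀ Y ∈ S, ∀ y ∈ Y, y ^ (p ^ D - 1) = 1 := fun Y hY =>
    stable_pow_eq_one hp hD hY.1 hY.2.1 hY.2.2.le
  have hmaps : Set.MapsTo g S T := by
    intro Y hY
    have e1 : (Y.map φ).map (frobenius (GaloisField p D) p) = Y.map φ := by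
      have e2 : Y.map (· ^ p) = Y := hY.1
      conv_rhs => rw [← e2]
      rw [Multiset.map_map, Multiset.map_map]
      exact Multiset.map_congr rfl fun y hy => (hφ y (hroot Y hY y hy)).2.symm
    have e2 : ∀ k, (Y.map φ).esymm k ∈ F := fun k => (hF _).2 (by
      have := stab_esymm_map (frobenius (GaloisField p D) p) (Y.map φ) k
      rwa [e1] at this)
    refine Finset.mem_coe.2 (Finset.mem_product.2
      ⟨Fintype.mem_piFinset.2 fun k => e2 _, Finset.mem_erase.2 ⟨?_, e2 _⟩⟩)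
    have e3 : n + 1 = (Y.map φ).card := by rw [Multiset.card_map, hY.2.2]
    change (Y.map φ).esymm (n + 1) ≠ 0
    rw [e3, Multiset.esymm, Multiset.powersetCard_self, Multiset.map_singleton,
      Multiset.sum_singleton]
    refine Multiset.prod_ne_zero fun h => ?_
    obtain ⟨y, hy, e⟩ := Multiset.mem_map.1 h
    exact (hφ y (hroot Y hY y hy)).1 e
  have hg : Set.InjOn g S := by
    intro Y hY Y' hY' e
    have e1 : Y.map φ = Y'.map φ := by
      refine stab_esymm_inj (m := n + 1) (by rw [Multiset.card_map, hY.2.2])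
        (by rw [Multiset.card_map, hY'.2.2]) fun k hk => ?_
      rcases Nat.lt_succ_iff_lt_or_eq.1 hk with h | rfl
      · exact congrFun (congrArg Prod.fst e) ⟨k, h⟩
      · exact congrArg Prod.snd e
    have e2 : ∀ Z ∈ S, (Z.map φ).map (Function.invFunOn φ {y | y ^ (p ^ D - 1) = 1}) = Z := by
      intro Z hZ
      rw [Multiset.map_map]
      exact (Multiset.map_congr rfl fun y hy => hinj.leftInvOn_invFunOn (hroot Z hZ y hy)).trans
        (Multiset.map_id' Z)
    rw [← e2 Y hY, e1, e2 Y' hY']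
  have hfin : S.Finite := Set.Finite.of_injOn hmaps hg T.finite_toSet
  refine ⟨hfin.toFinset, le_trans ?_ hT, fun Y => hfin.mem_toFinset⟩
  exact Finset.card_le_card_of_injOn g (fun Y hY => hmaps (hfin.mem_toFinset.1 hY))
    fun Y hY Y' hY' => hg (hfin.mem_toFinset.1 hY) (hfin.mem_toFinset.1 hY')

end Pool.Agent.KGV
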