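import Pool.Agent.P.MP_9e9a11_al.Defs
import Pool.Agent.P.MP_9e9a11_al.Gauss
import Pool.Agent.P.MP_9e9a11_al.Stab

namespace Pool.Agent.KGV

open Finset Matrix

variable {p D : ℕ} [Fact p.Prime]

theorem al_iter (z : ℂ) (l : ℕ) : (fun y : ℂ => y ^ p)^[l] z = z ^ p ^ l := by
  induction l with
  | zero => simp
  | succ l ih => rw [Function.iterate_succ_apply', ih, ← pow_mul, ← pow_succ]

theorem al_ne_zero {d : ℕ} (hd : 0 < d) {z : ℂ} (hz : z ^ (p ^ d - 1) = 1) : z ≠ 0 := by
  rintro rfl
  have h1 : 1 < p ^ d := Nat.one_lt_pow hd.ne' (Fact.out : p.Prime).one_lt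
  rw [zero_pow (by omega)] at hz
  exact zero_ne_one hz

theorem al_per_iff {d : ℕ} {z : ℂ} (hz : z ≠ 0) : z ^ p ^ d = z ↔ z ^ (p ^ d - 1) = 1 := by
  have h1 : 1 ≤ p ^ d := Nat.one_le_pow _ _ (Fact.out : p.Prime).pos
  have h2 : z ^ p ^ d = z ^ (p ^ d - 1) * z := by rw [← pow_succ, Nat.sub_add_cancel h1]
  rw [h2, mul_eq_right₀ hz]

theorem al_orb_add (a b : ℕ) (z : ℂ) : orb p (a + b) z = orb p a z + orb p b (z ^ p ^ a) := by
  unfold orb
  rw [Multiset.range_add, Multiset.map_add, Multiset.map_map]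
  congr 1
  refine Multiset.map_congr rfl fun l _ => ?_
  simp only [Function.comp, ← pow_mul, ← pow_add]

theorem al_orb_mul {d : ℕ} {z : ℂ} (hz : z ^ p ^ d = z) (r : ℕ) :
    orb p (d * r) z = r • orb p d z := by
  induction r with
  | zero => simp [orb]
  | succ r ih => rw [Nat.mul_succ, add_comm, al_orb_add, hz, ih, succ_nsmul']

theorem al_gs_pow (hD : 0 < D) {d : ℕ} (hd : 0 < d) (hdD : d ∣ D) (j : ZMod p) {z : ℂ}
    (hz : z ^ (p ^ d - 1) = 1) (l : ℕ) : gs p D d j (z ^ p ^ l) = gs p D d j z := by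
  induction l with
  | zero => simp
  | succ l ih =>
    rw [pow_succ, pow_mul, gs_frob hD hd hdD j, ih]
    rw [← pow_mul, mul_comm, pow_mul, hz, one_pow]

theorem exists_alpha {n : ℕ} (hD : Big n D) : ∃ α, IsAlpha p D n α := by
  classical
  let f : ℂ → ℂ := fun y => y ^ p
  let rep : ℂ → ℂ := fun z => Classical.epsilon fun y => ∃ l, y = z ^ p ^ l
  let v : ZMod p → ℂ → ℂ := fun j z =>
    if z = rep z then - gs p D (Function.minimalPeriod f z) j z else 1
  refine ⟨fun j Y => (Y.map (v j)).prod, fun j => by simp, fun j Y Z => by simp, ?_⟩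
  intro j hj d hd hdn z hz
  have hz0 := al_ne_zero hd hz
  have hper : Function.IsPeriodicPt f d z := by
    change f^[d] z = z
    rw [al_iter, al_per_iff hz0, hz]
  set e := Function.minimalPeriod f z with he
  have he0 : 0 < e := hper.minimalPeriod_pos hd
  obtain ⟨r, hr⟩ : e ∣ d := hper.minimalPeriod_dvd
  have hr0 : 0 < r := Nat.pos_of_ne_zero (by rintro rfl; omega)
  have hze : z ^ p ^ e = z := by
    rw [← al_iter]; exact Function.isPeriodicPt_minimalPeriod f z
  have hze' : z ^ (p ^ e - 1) = 1 := (al_per_iff hz0).1 hze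
  have heD : e ∣ D := hD.2 e he0 ((Nat.le_of_dvd hd ⟨r, hr⟩).trans hdn)
  have hmem : z ∈ Function.periodicPts f := Function.mk_mem_periodicPts hd hper
  have hrep : ∀ l, rep (z ^ p ^ l) = rep z := by
    intro l
    have : (fun y => ∃ m, y = (z ^ p ^ l) ^ p ^ m) = fun y => ∃ m, y = z ^ p ^ m := by
      funext y
      apply propext
      constructor
      · rintro ⟨m, rfl⟩
        exact ⟨l + m, by rw [← pow_mul, ← pow_add]⟩
      · rintro ⟨m, rfl⟩
        refine ⟨m + (e - 1) * l, ?_⟩
        have h1 : l + (m + (e - 1) * l) = e * l + m := by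
          obtain ⟨e', rfl'⟩ := Nat.exists_eq_add_of_le he0
          rw [rfl', Nat.add_sub_cancel_left]; ring
        have h2 : z ^ p ^ (e * l) = z := by
          rw [← al_iter]; exact (Function.isPeriodicPt_minimalPeriod f z).mul_const l
        rw [← pow_mul, ← pow_add, h1, pow_add, pow_mul, h2]
    simp only [rep, this]
  obtain ⟨l0, hl0⟩ : ∃ l, rep z = z ^ p ^ l :=
    Classical.epsilon_spec (p := fun y => ∃ l, y = z ^ p ^ l) ⟨z, 0, by simp⟩
  have hl1 : rep z = z ^ p ^ (l0 % e) := by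
    rw [hl0, ← al_iter, ← al_iter]
    exact (Function.iterate_mod_minimalPeriod_eq (f := f)).symm
  have hone : ((orb p e z).map (v j)).prod = - gs p D e j z := by
    unfold orb
    rw [Multiset.map_map]
    change ∏ l ∈ range e, v j (z ^ p ^ l) = _
    rw [Finset.prod_eq_single (l0 % e)]
    · have h1 : Function.minimalPeriod f (z ^ p ^ (l0 % e)) = e := by
        rw [← al_iter]; exact Function.minimalPeriod_apply_iterate hmem _
      simp only [v]
      rw [hrep, if_pos hl1.symm, h1, al_gs_pow hD.1 he0 heD j hze']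
    · intro l hl hne
      simp only [v]
      rw [hrep, if_neg]
      intro h
      rw [hl1, ← al_iter, ← al_iter] at h
      exact hne (Function.iterate_injOn_Iio_minimalPeriod (f := f) (mem_range.1 hl)
        (Nat.mod_lt _ he0) h)
    · intro h
      exact absurd (mem_range.2 (Nat.mod_lt _ he0)) h
  change ((orb p d z).map (v j)).prod = _
  rw [hr, al_orb_mul hze, Multiset.map_nsmul, Multiset.prod_nsmul, hone,
    gs_lift hD he0 hr0 (hr ▸ hdn) hj hze']

theorem IsAlpha.norm {n : ℕ} (hD : Big n D) {α : ZMod p → Multiset ℂ → ℂ} (hα : IsAlpha p D n α)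
    {j : ZMod p} (hj : j ≠ 0) {Y : Multiset ℂ} (hY : Stable p Y) (h0 : (0 : ℂ) ∉ Y)
    (hn : Y.card ≤ n) :
    α j Y * α (-j) (Y.map (·⁻¹)) * (p : ℂ) ^ Y.count 1 = (p : ℂ) ^ Y.card := by
  classical
  refine stable_induction (p := p) (P := fun Y => Y.card ≤ n →
    α j Y * α (-j) (Y.map (·⁻¹)) * (p : ℂ) ^ Y.count 1 = (p : ℂ) ^ Y.card)
    (Fact.out : p.Prime).one_lt (fun _ => by simp [hα.zero]) ?_ Y hY h0 hn
  intro d z Y hd hz hnd _ _ ih hc
  have hcard : (orb p d z).card = d := by simp [orb]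
  rw [Multiset.card_add, hcard] at hc
  have hdn : d ≤ n := by omega
  have hinv : (orb p d z).map (·⁻¹) = orb p d z⁻¹ := by
    unfold orb
    rw [Multiset.map_map]
    exact Multiset.map_congr rfl fun l _ => by simp
  have hz' : z⁻¹ ^ (p ^ d - 1) = 1 := by rw [inv_pow, hz, inv_one]
  have key : gs p D d j z * gs p D d (-j) z⁻¹ * (p : ℂ) ^ (orb p d z).count 1 = (p : ℂ) ^ d := by
    by_cases h1 : z = 1
    · subst h1
      have h2 : orb p d 1 = Multiset.replicate d 1 := by simp [orb]
      have h3 : d = 1 := by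
        have := Multiset.nodup_iff_count_le_one.1 hnd 1
        rw [h2, Multiset.count_replicate_self] at this
        omega
      subst h3
      rw [inv_one, gs_one hD.1 hj, gs_one hD.1 (neg_ne_zero.2 hj), h2, Multiset.count_replicate_self]
      ring
    · have h2 : (orb p d z).count 1 = 0 := by
        rw [Multiset.count_eq_zero]
        intro h
        obtain ⟨l, hl, hl1⟩ := Multiset.mem_map.1 h
        have hl' := (Multiset.mem_range.1 hl).le
        have h3 := (al_per_iff (al_ne_zero hd hz)).2 hz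
        rw [← Nat.add_sub_cancel' hl', pow_add, pow_mul, hl1, one_pow] at h3
        exact h1 h3.symm
      rw [h2, pow_zero, mul_one, gs_mul_gs hD.1 hd (hD.2 d hd hdn) hj hz h1]
  rw [Multiset.map_add, hα.add, hα.add, hinv, hα.cyc j hj d hd hdn z hz,
    hα.cyc (-j) (neg_ne_zero.2 hj) d hd hdn z⁻¹ hz', Multiset.count_add, Multiset.card_add, hcard,
    pow_add, pow_add, ← key, ← ih (by omega)]
  ring

end Pool.Agent.KGV
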