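import Pool.Agent.P.MP_9e9a11_al.Defs

namespace Pool.Agent.KGV

open Finset Matrix

namespace RChar

/-- A product of matrix algebras. -/
abbrev BB {k : ℕ} (d : Fin k → ℕ) := Π i, Matrix (Fin (d i)) (Fin (d i)) ℂ

variable {k : ℕ} {d : Fin k → ℕ}

theorem trace_mulLeft (x : BB d) :
    LinearMap.trace ℂ (BB d) (LinearMap.mulLeft ℂ x) = ∑ j, (d j : ℂ) * (x j).trace := by
  rw [LinearMap.trace_eq_matrix_trace ℂ
    (Pi.basis fun j => Matrix.stdBasis ℂ (Fin (d j)) (Fin (d j))), Matrix.trace,
    Fintype.sum_sigma]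
  refine sum_congr rfl fun j _ => ?_
  have : ∀ p : Fin (d j) × Fin (d j), ∀ y : Matrix (Fin (d j)) (Fin (d j)) ℂ,
      (Matrix.stdBasis ℂ (Fin (d j)) (Fin (d j))).repr y p = y p.1 p.2 := fun p y => by
    simp [Matrix.stdBasis]
  simp only [Matrix.diag_apply, LinearMap.toMatrix_apply, Pi.basis_apply, Pi.basis_repr,
    LinearMap.mulLeft_apply, Pi.mul_apply, Pi.single_eq_same, this, Fintype.sum_prod_type,
    Matrix.stdBasis_eq_single, Matrix.mul_single_apply_same, mul_one, sum_const, card_univ,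
    Fintype.card_fin, nsmul_eq_mul, Matrix.trace, mul_sum]

theorem tracial (hd : ∀ i, NeZero (d i)) (L : BB d →ₗ[ℂ] ℂ) (hL : ∀ x y, L (x * y) = L (y * x))
    (x : BB d) : L x = ∑ i, L (Pi.single i (Matrix.single 0 0 1)) * (x i).trace := by
  have key : ∀ i (a c : Fin (d i)), L (Pi.single i (Matrix.single a c 1)) =
      if a = c then L (Pi.single i (Matrix.single 0 0 1)) else 0 := fun i a c => by
    have h := hL (Pi.single i (Matrix.single a 0 1)) (Pi.single i (Matrix.single 0 c 1))
    rw [← Pi.single_mul, ← Pi.single_mul, Matrix.single_mul_single_same, mul_one] at h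
    rw [h]
    split_ifs with e
    · rw [e, Matrix.single_mul_single_same, mul_one]
    · rw [Matrix.single_mul_single_of_ne _ _ _ _ (Ne.symm e), Pi.single_zero, map_zero]
  conv_lhs => rw [← univ_sum_single x, map_sum]
  refine sum_congr rfl fun i _ => ?_
  let M : Matrix (Fin (d i)) (Fin (d i)) ℂ →ₗ[ℂ] ℂ :=
    L.comp (LinearMap.single ℂ (fun i => Matrix (Fin (d i)) (Fin (d i)) ℂ) i)
  have hM : ∀ y, L (Pi.single i y) = M y := fun _ => rfl
  have e : ∀ a c, M (Matrix.single a c (x i a c)) =
      if a = c then L (Pi.single i (Matrix.single 0 0 1)) * x i a c else 0 := fun a c => by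
    have : Matrix.single a c (x i a c) = x i a c • Matrix.single a c (1 : ℂ) := by simp
    rw [this, map_smul, ← hM, key, smul_eq_mul, mul_ite, mul_zero, mul_comm]
  rw [hM, Matrix.trace, mul_sum]
  conv_lhs => rw [Matrix.matrix_eq_sum_single (x i)]
  simp only [map_sum, e, sum_ite_eq, mem_univ, if_true, Matrix.diag_apply]

theorem trace_idem {m : ℕ} {P : Matrix (Fin m) (Fin m) ℂ} (h : P * P = P) :
    ∃ r : ℕ, P.trace = r := by
  have h1 : IsIdempotentElem (Matrix.toLin' P) := by
    rw [IsIdempotentElem, Module.End.mul_eq_comp, ← Matrix.toLin'_mul, h]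
  exact ⟨_, (Matrix.trace_toLin'_eq P).symm.trans ((LinearMap.isProj_range_iff_isIdempotentElem _).2 h1).trace⟩

theorem scalar_of_central {z : BB d} (hz : ∀ y, z * y = y * z) (i : Fin k) :
    ∃ c : ℂ, z i = c • 1 := by
  obtain ⟨c, hc⟩ := (Matrix.mem_range_scalar_iff_commute_single' (M := z i)).2 fun a c => by
    have := congrFun (hz (Pi.single i (Matrix.single a c 1))) i
    simpa [Commute, SemiconjBy] using this.symm
  exact ⟨c, by rw [← hc, Matrix.scalar_apply, Matrix.smul_one_eq_diagonal]⟩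

variable {T : Type*} [Group T] [Fintype T] (b : Module.Basis T ℂ (BB d))
  (hm : ∀ g h, b (g * h) = b g * b h)

include hm

omit [Fintype T] in
theorem repr_mul (x : BB d) (g h : T) : b.repr (x * b g) (h * g) = b.repr x h := by
  classical
  have : (b.coord (h * g)).comp (LinearMap.mulRight ℂ (b g)) = b.coord h :=
    b.ext fun a => by simp [← hm, Finsupp.single_apply]
  exact LinearMap.congr_fun this x

theorem reg (x : BB d) :
    (Fintype.card T : ℂ) * b.repr x 1 = ∑ j, (d j : ℂ) * (x j).trace := by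
  classical
  rw [← trace_mulLeft, LinearMap.trace_eq_matrix_trace ℂ b, Matrix.trace]
  have : ∀ g, b.repr (x * b g) g = b.repr x 1 := fun g => by
    simpa using repr_mul b hm x g 1
  simp only [Matrix.diag_apply, LinearMap.toMatrix_apply, LinearMap.mulLeft_apply, this]
  simp

theorem repr_idem (j : Fin k) (g : T) :
    (Fintype.card T : ℂ) * b.repr (Pi.single j 1) g = d j * (b g⁻¹ j).trace := by
  have h1 := repr_mul b hm (Pi.single j 1) g⁻¹ g
  rw [mul_inv_cancel] at h1
  rw [← h1, reg b hm, sum_eq_single j (fun i _ hi => by simp [Pi.single_eq_of_ne hi]) (by simp)]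
  simp

theorem central {c : T → ℂ} (hc : ∀ g h, c (h * g * h⁻¹) = c g) (y : BB d) :
    (∑ g, c g • b g) * y = y * ∑ g, c g • b g := by
  have : LinearMap.mulLeft ℂ (∑ g, c g • b g) = LinearMap.mulRight ℂ (∑ g, c g • b g) :=
    b.ext fun h => by
      simp only [LinearMap.mulLeft_apply, LinearMap.mulRight_apply, sum_mul, mul_sum,
        smul_mul_assoc, mul_smul_comm, ← hm]
      refine (Fintype.sum_equiv (MulAut.conj h).toEquiv _ _ fun g => ?_).symm
      simp [hc]
  exact LinearMap.congr_fun this y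

theorem orth (hd : ∀ i, NeZero (d i)) (i j : Fin k) :
    ∑ g, (b g i).trace * (b g⁻¹ j).trace = if i = j then (Fintype.card T : ℂ) else 0 := by
  have h0 : (d j : ℂ) ≠ 0 := Nat.cast_ne_zero.2 (hd j).ne
  have h1 := congrArg (fun x : BB d => (Fintype.card T : ℂ) * (x i).trace)
    (b.sum_repr (Pi.single j 1))
  simp only [Finset.sum_apply, Pi.smul_apply, Matrix.trace_sum, Matrix.trace_smul, smul_eq_mul,
    mul_sum, ← mul_assoc, repr_idem b hm] at h1
  refine mul_left_cancel₀ h0 ?_
  rw [mul_sum, sum_congr rfl fun g _ => by rw [mul_comm (b g i).trace, ← mul_assoc], h1]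
  split_ifs with e
  · subst e
    simp [mul_comm]
  · simp [Pi.single_eq_of_ne e]

theorem card_eq (hd : ∀ i, NeZero (d i)) : k = Nat.card (ConjClasses T) := by
  classical
  have hN : (Fintype.card T : ℂ) ≠ 0 := Nat.cast_ne_zero.2 Fintype.card_ne_zero
  have cl : ∀ (i : Fin k) (g h : T), IsConj g h → (b g⁻¹ i).trace = (b h⁻¹ i).trace := by
    intro i g h e
    obtain ⟨u, rfl⟩ := isConj_iff.1 e
    rw [show (u * g * u⁻¹)⁻¹ = u * (g⁻¹ * u⁻¹) by group, hm, Pi.mul_apply, Matrix.trace_mul_comm,
      ← Pi.mul_apply (b _) (b _), ← hm]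
    simp
  let v : Fin k → ConjClasses T → ℂ := fun i => Quotient.lift (fun g => (b g⁻¹ i).trace) (cl i)
  have hv : ∀ i g, v i (ConjClasses.mk g) = (b g⁻¹ i).trace := fun _ _ => rfl
  have li : LinearIndependent ℂ v := by
    refine Fintype.linearIndependent_iff.2 fun c hc i => ?_
    have h1 : ∑ g, (b g i).trace * (∑ j, c j • v j) (ConjClasses.mk g) = 0 := by
      rw [hc]
      simp
    simp only [Finset.sum_apply, Pi.smul_apply, smul_eq_mul, hv, mul_sum, mul_left_comm _ (c _)]
      at h1
    rw [sum_comm] at h1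
    simp only [← mul_sum, orth b hm hd, mul_ite, mul_zero, sum_ite_eq, mem_univ, if_true] at h1
    exact (mul_eq_zero.1 h1).resolve_right hN
  have sp : ⊤ ≤ Submodule.span ℂ (Set.range v) := fun c _ => by
    choose l hl using scalar_of_central
      (central b hm (c := fun g => c (ConjClasses.mk g)) fun g h => by
        rw [ConjClasses.mk_eq_mk_iff_isConj.2 (isConj_iff.2 ⟨h, rfl⟩).symm])
    refine (Submodule.mem_span_range_iff_exists_fun ℂ).2
      ⟨fun i => l i * d i / Fintype.card T, funext fun q => ?_⟩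
    obtain ⟨g, rfl⟩ := ConjClasses.mk_surjective q
    have e : ∑ g, c (ConjClasses.mk g) • b g = ∑ i, l i • (Pi.single i 1 : BB d) := by
      funext i
      rw [hl, Finset.sum_apply, sum_eq_single i
        (fun j _ hj => by simp [Pi.single_eq_of_ne hj.symm]) (by simp)]
      simp
    have e2 := congrArg (fun x => (Fintype.card T : ℂ) * b.repr x g) e
    beta_reduce at e2
    rw [b.repr_sum_self] at e2
    simp only [map_sum, map_smul, Finsupp.coe_finsetSum, Finset.sum_apply,
      Finsupp.smul_apply, smul_eq_mul, mul_sum, mul_left_comm _ (l _), repr_idem b hm] at e2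
    refine mul_left_cancel₀ hN ?_
    rw [e2]
    simp only [Finset.sum_apply, Pi.smul_apply, smul_eq_mul, hv, mul_sum]
    exact sum_congr rfl fun i _ => by field_simp
  have := Module.finrank_eq_card_basis (Module.Basis.mk li sp)
  rw [Module.finrank_fintype_fun_eq_card, Fintype.card_fin] at this
  rw [Nat.card_eq_fintype_card, this]

end RChar

open RChar in
theorem exists_CT (T : Type*) [Group T] [Fintype T] :
    ∃ (k : ℕ) (χ : Fin k → T → ℂ), CT χ := by
  classical
  have : NeZero (Nat.card T : ℂ) := ⟨Nat.cast_ne_zero.2 Nat.card_pos.ne'⟩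
  obtain ⟨k, d, hd, ⟨e⟩⟩ :=
    IsSemisimpleRing.exists_algEquiv_pi_matrix_of_isAlgClosed ℂ (MonoidAlgebra ℂ T)
  let b : Module.Basis T ℂ (BB d) := (MonoidAlgebra.basis T ℂ).map e.toLinearEquiv
  have hb : ∀ g, b g = e (MonoidAlgebra.of ℂ T g) := fun g => rfl
  have hm : ∀ g h, b (g * h) = b g * b h := fun g h => by simp only [hb, map_mul]
  have h1 : b 1 = 1 := by simp only [hb, map_one]
  have t1 : ∀ i, (b 1 i).trace = d i := fun i => by simp [h1]
  refine ⟨k, fun i g => (b g i).trace, fun i => ⟨d i,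
    ⟨⟨fun g => b g i, by rw [h1]; rfl⟩, fun g h => congrFun (hm g h) i⟩, fun _ => rfl⟩,
    card_eq b hm hd, orth b hm hd, ?_, fun i c hc x => ?_, ?_, fun g hg => ?_⟩
  · rintro f ⟨m, σ, hf⟩
    let F : BB d →ₐ[ℂ] Matrix (Fin m) (Fin m) ℂ := (MonoidAlgebra.lift ℂ _ T σ).comp e.symm
    have hF : ∀ g, F (b g) = σ g := fun g => by simp [F, hb]
    choose r hr using fun i => trace_idem (P := F (Pi.single i (Matrix.single 0 0 1))) (by
      rw [← map_mul, ← Pi.single_mul, Matrix.single_mul_single_same, mul_one])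
    refine ⟨r, fun g => ?_⟩
    have := tracial hd ((Matrix.traceLinearMap _ ℂ ℂ).comp F.toLinearMap)
      (fun x y => by simp [Matrix.trace_mul_comm (F x)]) (b g)
    simpa [hF, hf, hr] using this
  · obtain ⟨l, hl⟩ := scalar_of_central (central b hm hc) i
    have e1 := congrArg Matrix.trace hl
    have e2 := congrArg (fun y => (y * b x i).trace) hl
    simp only [Finset.sum_apply, Pi.smul_apply, Matrix.trace_sum, Matrix.trace_smul, smul_eq_mul,
      Matrix.trace_one, Fintype.card_fin, sum_mul, smul_mul_assoc, one_mul,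
      ← Pi.mul_apply (b _) (b _), ← hm] at e1 e2
    rw [e1, e2, t1]
    ring
  · have := reg b hm (b 1)
    simp only [t1] at this ⊢
    rw [← this]
    simp
  · have := reg b hm (b g)
    simp only [t1]
    rw [← this]
    simp [hg]

end Pool.Agent.KGV
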