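import Pool.Agent.P.MP_9e9a11_al.Defs

namespace Pool.Agent.KGV

open Finset Matrix

variable {ι : Type*} [Fintype ι] [DecidableEq ι] {G : Type*} [Group G]

theorem card_eig (A : Matrix ι ι ℂ) : (eig A).card = Fintype.card ι := by
  rw [eig, IsAlgClosed.card_roots_eq_natDegree, Matrix.charpoly_natDegree_eq_dim]

theorem sp_eig_swap (P Q A : Matrix ι ι ℂ) (h : Q * P = 1) : eig (P * A * Q) = eig A := by
  unfold eig
  rw [Matrix.charpoly_mul_comm, ← Matrix.mul_assoc, h, Matrix.one_mul]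

theorem sp_eig_diagonal (d : ι → ℂ) : eig (diagonal d) = univ.val.map d := by
  unfold eig
  rw [Matrix.charpoly_diagonal, Finset.prod_eq_multiset_prod]
  have h := Polynomial.roots_multiset_prod_X_sub_C (univ.val.map d)
  rw [Multiset.map_map] at h
  exact h

theorem eig_diag (P : (Matrix ι ι ℂ)ˣ) (d : ι → ℂ) :
    eig (P.val * diagonal d * P⁻¹.val) = univ.val.map d := by
  rw [sp_eig_swap _ _ _ (Units.inv_mul P), sp_eig_diagonal]

theorem eig_conj (ρ : G →* Matrix ι ι ℂ) (g h : G) : eig (ρ (h * g * h⁻¹)) = eig (ρ g) := by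
  rw [map_mul, map_mul]
  exact sp_eig_swap _ _ _ (by rw [← map_mul, inv_mul_cancel, map_one])

open scoped MatrixOrder ComplexOrder in
theorem sp_gram [Fintype G] (ρ : G →* Matrix ι ι ℂ) :
    ∃ C : Matrix ι ι ℂ, IsUnit C ∧ ∑ g, (ρ g)ᴴ * ρ g = Cᴴ * C := by
  classical
  have hH : (∑ g, (ρ g)ᴴ * ρ g).PosDef := by
    rw [← Finset.add_sum_erase _ _ (Finset.mem_univ (1 : G)), map_one, conjTranspose_one,
      Matrix.mul_one]
    exact PosDef.one.add_posSemidef
      (posSemidef_sum _ fun g _ => posSemidef_conjTranspose_mul_self _)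
  obtain ⟨b, hb, h⟩ := CStarAlgebra.isStrictlyPositive_iff_eq_star_mul_self.mp hH.isStrictlyPositive
  exact ⟨b, hb, h⟩

theorem exists_unitary [Finite G] (ρ : G →* Matrix ι ι ℂ) :
    ∃ (B : (Matrix ι ι ℂ)ˣ) (σ : G →* Matrix ι ι ℂ), (∀ g, (σ g)ᴴ = σ g⁻¹) ∧
      ∀ g, ρ g = B.val * σ g * B⁻¹.val := by
  classical
  have := Fintype.ofFinite G
  obtain ⟨C, ⟨c, rfl⟩, hC⟩ := sp_gram ρ
  have hinv : ∀ h : G, (ρ h)ᴴ * ((c.val)ᴴ * c.val) * ρ h = (c.val)ᴴ * c.val := by
    intro h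
    rw [← hC, Finset.mul_sum, Finset.sum_mul]
    rw [← Equiv.sum_comp (Equiv.mulRight h) (fun g => (ρ g)ᴴ * ρ g)]
    refine Finset.sum_congr rfl fun g _ => ?_
    simp only [Equiv.coe_mulRight, map_mul, conjTranspose_mul, Matrix.mul_assoc]
  let σ : G →* Matrix ι ι ℂ :=
    { toFun := fun g => c.val * ρ g * c⁻¹.val
      map_one' := by rw [map_one, Matrix.mul_one, Units.mul_inv]
      map_mul' := fun g h => by
        rw [map_mul]
        simp only [Matrix.mul_assoc]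
        rw [← Matrix.mul_assoc c⁻¹.val c.val, Units.inv_mul, Matrix.one_mul] }
  have hσ : ∀ g, σ g = c.val * ρ g * c⁻¹.val := fun _ => rfl
  refine ⟨c⁻¹, σ, fun g => ?_, fun g => ?_⟩
  · have h1 : (σ g)ᴴ * σ g = 1 := by
      rw [hσ, conjTranspose_mul, conjTranspose_mul]
      have h2 : (c⁻¹.val)ᴴ * ((ρ g)ᴴ * (c.val)ᴴ) * (c.val * ρ g * c⁻¹.val)
          = (c⁻¹.val)ᴴ * ((ρ g)ᴴ * ((c.val)ᴴ * c.val) * ρ g) * c⁻¹.val := by
        simp only [Matrix.mul_assoc]
      rw [h2, hinv, ← Matrix.mul_assoc, ← conjTranspose_mul, Units.mul_inv, conjTranspose_one,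
        Matrix.one_mul, Units.mul_inv]
    have h3 : σ g * σ g⁻¹ = 1 := by rw [← map_mul, mul_inv_cancel, map_one]
    calc (σ g)ᴴ = (σ g)ᴴ * (σ g * σ g⁻¹) := by rw [h3, Matrix.mul_one]
      _ = σ g⁻¹ := by rw [← Matrix.mul_assoc, h1, Matrix.one_mul]
  · rw [hσ, inv_inv]
    simp only [Matrix.mul_assoc]
    rw [Units.inv_mul, Matrix.mul_one, ← Matrix.mul_assoc, Units.inv_mul, Matrix.one_mul]

open Polynomial in
theorem sp_vanish (A : Matrix ι ι ℂ) {N : ℕ} (hN : 0 < N) (hA : A ^ N = 1) (q : ℂ[X])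
    (hq : ∀ z : ℂ, z ^ N = 1 → q.eval z = 0) : aeval A q = 0 := by
  have hd : (X ^ N - 1 : ℂ[X]) ∣ q := by
    rw [X_pow_sub_one_eq_prod hN (Complex.isPrimitiveRoot_exp N hN.ne')]
    refine Finset.prod_dvd_of_coprime ?_ ?_
    · intro a _ b _ hab
      exact pairwise_coprime_X_sub_C (s := id) Function.injective_id hab
    · intro z hz
      exact dvd_iff_isRoot.mpr (hq z ((mem_nthRootsFinset hN 1).mp hz))
  obtain ⟨r, rfl⟩ := hd
  rw [map_mul, map_sub, map_pow, aeval_X, hA, map_one, sub_self, zero_mul]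

open Polynomial in
theorem sp_star_aeval (A : Matrix ι ι ℂ) (q : ℂ[X]) :
    (aeval A q)ᴴ = aeval Aᴴ (q.map (starRingEnd ℂ)) := by
  induction q using Polynomial.induction_on' with
  | add p r hp hr => rw [map_add, conjTranspose_add, hp, hr, Polynomial.map_add, map_add]
  | monomial n a =>
    rw [aeval_monomial, Polynomial.map_monomial, aeval_monomial, Algebra.algebraMap_eq_smul_one,
      Algebra.algebraMap_eq_smul_one, smul_mul_assoc, smul_mul_assoc, one_mul, one_mul,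
      conjTranspose_smul, conjTranspose_pow]
    rfl

open Polynomial in
theorem sp_aeval_conj (U V D : Matrix ι ι ℂ) (h1 : V * U = 1) (h2 : U * V = 1) (q : ℂ[X]) :
    aeval (U * D * V) q = U * aeval D q * V := by
  have hp : ∀ n : ℕ, (U * D * V) ^ n = U * D ^ n * V := by
    intro n
    induction n with
    | zero => rw [pow_zero, pow_zero, Matrix.mul_one, h2]
    | succ n ih =>
      rw [pow_succ, ih, pow_succ]
      simp only [Matrix.mul_assoc]
      rw [← Matrix.mul_assoc V U, h1, Matrix.one_mul]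
  induction q using Polynomial.induction_on' with
  | add p r hp hr => rw [map_add, map_add, hp, hr, Matrix.mul_add, Matrix.add_mul]
  | monomial n a =>
    rw [aeval_monomial, aeval_monomial, Algebra.algebraMap_eq_smul_one,
      smul_mul_assoc, smul_mul_assoc, one_mul, one_mul, hp, Matrix.mul_smul, Matrix.smul_mul]

open Polynomial in
theorem sp_aeval_diagonal (d : ι → ℂ) (q : ℂ[X]) :
    aeval (diagonal d) q = diagonal fun i => q.eval (d i) := by
  induction q using Polynomial.induction_on' with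
  | add p r hp hr =>
    rw [map_add, hp, hr, diagonal_add]
    simp only [eval_add]
  | monomial n a =>
    rw [aeval_monomial, Algebra.algebraMap_eq_smul_one, smul_mul_assoc, one_mul, diagonal_pow,
      ← diagonal_smul]
    congr 1
    funext i
    simp only [eval_monomial, Pi.smul_apply, Pi.pow_apply, smul_eq_mul]

open Polynomial in
theorem sp_interp (s : Finset ℂ) (f : ℂ → ℂ) : ∃ q : ℂ[X], ∀ z ∈ s, q.eval z = f z :=
  ⟨Lagrange.interpolate s id f, fun _ hz =>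
    Lagrange.eval_interpolate_at_node (v := id) f Function.injective_id.injOn hz⟩

open Polynomial in
theorem sp_herm (A : Matrix ι ι ℂ) (hU : Aᴴ * A = 1) {N : ℕ} (hN : 0 < N) (hA : A ^ N = 1) :
    ∃ (H : Matrix ι ι ℂ) (f : ℂ[X]), H.IsHermitian ∧ A = aeval H f := by
  classical
  obtain ⟨p, hp⟩ := sp_interp (nthRootsFinset N (1 : ℂ)) fun z => (Complex.arg z : ℂ)
  obtain ⟨f, hf⟩ := sp_interp ((nthRootsFinset N (1 : ℂ)).image fun z => (Complex.arg z : ℂ))
    fun t => Complex.exp (t * Complex.I)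
  obtain ⟨M, rfl⟩ : ∃ M, N = M + 1 := ⟨N - 1, by omega⟩
  have hAs : Aᴴ = A ^ M := by
    calc Aᴴ = Aᴴ * A ^ (M + 1) := by rw [hA, Matrix.mul_one]
      _ = A ^ M := by rw [pow_succ', ← Matrix.mul_assoc, hU, Matrix.one_mul]
  refine ⟨aeval A p, f, ?_, ?_⟩
  · have h := sp_vanish A hN hA ((p.map (starRingEnd ℂ)).comp (X ^ M) - p) fun z hz => by
      have hn : ‖z‖ = 1 := Complex.norm_eq_one_of_pow_eq_one hz hN.ne'
      have hz0 : z ≠ 0 := by
        rintro rfl
        simp at hn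
      have hc : z ^ M = starRingEnd ℂ z := by
        apply mul_right_cancel₀ hz0
        rw [← pow_succ, hz, mul_comm, Complex.mul_conj, Complex.normSq_eq_norm_sq, hn]
        simp
      rw [eval_sub, eval_comp, eval_pow, eval_X, hc, eval_map, eval₂_at_apply,
        hp z ((mem_nthRootsFinset hN 1).mpr hz), Complex.conj_ofReal, sub_self]
    rw [map_sub, sub_eq_zero, aeval_comp, map_pow, aeval_X] at h
    rw [IsHermitian, sp_star_aeval, hAs, h]
  · have h := sp_vanish A hN hA (f.comp p - X) fun z hz => by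
      have hn : ‖z‖ = 1 := Complex.norm_eq_one_of_pow_eq_one hz hN.ne'
      have hm := (mem_nthRootsFinset hN 1).mpr hz
      rw [eval_sub, eval_comp, eval_X, hp z hm, hf _ (Finset.mem_image_of_mem _ hm), sub_eq_zero]
      have h3 := Complex.norm_mul_exp_arg_mul_I z
      rw [hn] at h3
      simpa using h3
    rw [map_sub, sub_eq_zero, aeval_comp, aeval_X] at h
    exact h.symm

theorem exists_udiag (A : Matrix ι ι ℂ) (hU : Aᴴ * A = 1) {N : ℕ} (hN : 0 < N) (hA : A ^ N = 1) :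
    ∃ (U : Matrix ι ι ℂ) (d : ι → ℂ), Uᴴ * U = 1 ∧ U * Uᴴ = 1 ∧ A = U * diagonal d * Uᴴ ∧
      eig A = univ.val.map d := by
  obtain ⟨H, f, hH, hf⟩ := sp_herm A hU hN hA
  have hs := hH.spectral_theorem
  rw [Unitary.conjStarAlgAut_apply] at hs
  have h1 : (hH.eigenvectorUnitary : Matrix ι ι ℂ)ᴴ * hH.eigenvectorUnitary = 1 :=
    Unitary.coe_star_mul_self hH.eigenvectorUnitary
  have h2 : (hH.eigenvectorUnitary : Matrix ι ι ℂ) * (hH.eigenvectorUnitary : Matrix ι ι ℂ)ᴴ = 1 :=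
    Unitary.coe_mul_star_self hH.eigenvectorUnitary
  have h3 : A = hH.eigenvectorUnitary * diagonal
      (fun i => f.eval ((RCLike.ofReal ∘ hH.eigenvalues : ι → ℂ) i)) *
      (hH.eigenvectorUnitary : Matrix ι ι ℂ)ᴴ := by
    rw [← sp_aeval_diagonal, ← sp_aeval_conj _ _ _ h1 h2]
    exact hf.trans (congrArg (fun M => Polynomial.aeval M f) hs)
  refine ⟨_, _, h1, h2, h3, ?_⟩
  rw [h3, sp_eig_swap _ _ _ h1, sp_eig_diagonal]

theorem exists_diag [Finite G] (ρ : G →* Matrix ι ι ℂ) (g : G) :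
    ∃ (P : (Matrix ι ι ℂ)ˣ) (d : ι → ℂ),
      ρ g = P.val * diagonal d * P⁻¹.val ∧
      eig (ρ g) = univ.val.map d := by
  obtain ⟨B, σ, hσ, hB⟩ := exists_unitary ρ
  obtain ⟨U, d, h1, h2, h3, -⟩ := exists_udiag (σ g)
    (by rw [hσ, ← map_mul, inv_mul_cancel, map_one]) (orderOf_pos g)
    (by rw [← map_pow, pow_orderOf_eq_one, map_one])
  have h4 : ρ g = (B * ⟨U, Uᴴ, h2, h1⟩).val * diagonal d * (B * ⟨U, Uᴴ, h2, h1⟩)⁻¹.val := by
    rw [hB, h3, _root_.mul_inv_rev, Units.val_mul, Units.val_mul]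
    simp only [Matrix.mul_assoc]
    rfl
  exact ⟨_, d, h4, by rw [h4, eig_diag]⟩

theorem sp_pow (P : (Matrix ι ι ℂ)ˣ) (d : ι → ℂ) (k : ℕ) :
    (P.val * diagonal d * P⁻¹.val) ^ k = P.val * diagonal (fun i => d i ^ k) * P⁻¹.val := by
  rw [Units.conj_pow, diagonal_pow]
  rfl

theorem eig_pow [Finite G] (ρ : G →* Matrix ι ι ℂ) (g : G) (k : ℕ) :
    eig (ρ (g ^ k)) = (eig (ρ g)).map (· ^ k) := by
  obtain ⟨P, d, h1, h2⟩ := exists_diag ρ g
  rw [h2, map_pow, h1, sp_pow, eig_diag, Multiset.map_map]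
  rfl

theorem eig_pow_eq_one [Finite G] (ρ : G →* Matrix ι ι ℂ) (g : G) {N : ℕ} (hg : g ^ N = 1) :
    ∀ y ∈ eig (ρ g), y ^ N = 1 := by
  intro y hy
  have h1 : y ^ N ∈ eig (ρ (g ^ N)) := by
    rw [eig_pow]
    exact Multiset.mem_map_of_mem _ hy
  rw [hg, map_one, ← diagonal_one, sp_eig_diagonal] at h1
  obtain ⟨i, -, hi⟩ := Multiset.mem_map.mp h1
  exact hi.symm

theorem eig_inv [Finite G] (ρ : G →* Matrix ι ι ℂ) (g : G) :
    eig (ρ g⁻¹) = (eig (ρ g)).map (·⁻¹) := by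
  obtain ⟨M, hM⟩ : ∃ M, orderOf g = M + 1 := ⟨orderOf g - 1, by have := orderOf_pos g; omega⟩
  have hg : g ^ (M + 1) = 1 := by rw [← hM, pow_orderOf_eq_one]
  have h1 : g⁻¹ = g ^ M := by
    rw [inv_eq_iff_mul_eq_one, ← pow_succ', hg]
  rw [h1, eig_pow]
  refine Multiset.map_congr rfl fun y hy => ?_
  have h2 := eig_pow_eq_one ρ g hg y hy
  exact eq_inv_of_mul_eq_one_left (by rw [← pow_succ, h2])

theorem trace_eq_sum_eig (A : Matrix ι ι ℂ) : A.trace = (eig A).sum := by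
  exact Matrix.trace_eq_sum_roots_charpoly A

end Pool.Agent.KGV
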