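import Pool.Agent.P.MP_9e9a11_al.Defs
import Pool.Agent.P.MP_9e9a11_al.Spec

namespace Pool.Agent.KGV

open Finset Matrix

variable {T : Type*} [Group T]

theorem isChar_of_rep {W : Type*} [AddCommGroup W] [Module ℂ W] [Module.Finite ℂ W]
    (ρ : T →* Module.End ℂ W) : IsChar fun g => LinearMap.trace ℂ W (ρ g) := by
  classical
  let b := Module.finBasis ℂ W
  refine ⟨Module.finrank ℂ W,
    ((LinearMap.toMatrixAlgEquiv b).toMulEquiv.toMonoidHom).comp ρ, fun g => ?_⟩
  exact LinearMap.trace_eq_matrix_trace ℂ b (ρ g)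

/-- A matrix representation over any finite index type gives a character. -/
theorem isChar_of_mat {ι : Type*} [Fintype ι] [DecidableEq ι] (ρ : T →* Matrix ι ι ℂ) :
    IsChar fun g => (ρ g).trace := by
  let e := Fintype.equivFin ι
  refine ⟨Fintype.card ι, ((Matrix.reindexAlgEquiv ℂ ℂ e).toMulEquiv.toMonoidHom).comp ρ,
    fun g => ?_⟩
  change (ρ g).trace = (Matrix.reindex e e (ρ g)).trace
  simp only [Matrix.trace, Matrix.diag, Matrix.reindex_apply, Matrix.submatrix_apply]
  exact (Equiv.sum_comp e.symm fun i => ρ g i i).symm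

theorem IsChar.one : IsChar (fun _ : T => (1 : ℂ)) := by
  refine ⟨1, 1, fun g => ?_⟩
  simp

theorem IsChar.mul {f f' : T → ℂ} (h : IsChar f) (h' : IsChar f') : IsChar (f * f') := by
  obtain ⟨m, ρ, hρ⟩ := h
  obtain ⟨m', ρ', hρ'⟩ := h'
  let σ : T →* Matrix (Fin m × Fin m') (Fin m × Fin m') ℂ :=
    { toFun := fun g => Matrix.kroneckerMap (· * ·) (ρ g) (ρ' g)
      map_one' := by
        rw [map_one, map_one]
        exact Matrix.one_kronecker_one
      map_mul' := fun g g' => by
        rw [map_mul, map_mul]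
        exact Matrix.mul_kronecker_mul _ _ _ _ }
  have h1 := isChar_of_mat σ
  have h2 : (fun g => (σ g).trace) = f * f' := by
    funext g
    rw [Pi.mul_apply, hρ, hρ']
    exact Matrix.trace_kronecker _ _
  rwa [h2] at h1

theorem IsChar.comp {T' : Type*} [Group T'] (u : T' →* T) {f : T → ℂ} (h : IsChar f) :
    IsChar (f ∘ u) := by
  obtain ⟨m, ρ, hρ⟩ := h
  exact ⟨m, ρ.comp u, fun g => hρ (u g)⟩

theorem IsChar.conj {f : T → ℂ} (h : IsChar f) (g x : T) : f (x * g * x⁻¹) = f g := by
  obtain ⟨m, ρ, hρ⟩ := h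
  rw [hρ, hρ, map_mul, Matrix.trace_mul_comm, ← map_mul]
  congr 2
  group

theorem VC.mul {f f' : T → ℂ} (h : f ∈ VC T) (h' : f' ∈ VC T) : f * f' ∈ VC T := by
  unfold VC at h h'
  induction h using AddSubgroup.closure_induction with
  | mem x hx =>
    induction h' using AddSubgroup.closure_induction with
    | mem y hy => exact AddSubgroup.subset_closure (IsChar.mul hx hy)
    | zero => rw [mul_zero]; exact zero_mem _
    | add y z _ _ hy hz => rw [mul_add]; exact add_mem hy hz
    | neg y _ hy => rw [mul_neg]; exact neg_mem hy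
  | zero => rw [zero_mul]; exact zero_mem _
  | add y z _ _ hy hz => rw [add_mul]; exact add_mem hy hz
  | neg y _ hy => rw [neg_mul]; exact neg_mem hy

theorem VC.comp {T' : Type*} [Group T'] (u : T' →* T) {f : T → ℂ} (h : f ∈ VC T) :
    f ∘ u ∈ VC T' := by
  unfold VC at h
  induction h using AddSubgroup.closure_induction with
  | mem x hx => exact AddSubgroup.subset_closure (IsChar.comp u hx)
  | zero => exact zero_mem (VC T')
  | add y z _ _ hy hz => exact add_mem hy hz
  | neg y _ hy => exact neg_mem hy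

theorem CT.decomp_vc [Fintype T] {k : ℕ} {χ : Fin k → T → ℂ} (hχ : CT χ) {f : T → ℂ}
    (h : f ∈ VC T) : ∃ m : Fin k → ℤ, ∀ g, f g = ∑ i, (m i : ℂ) * χ i g := by
  unfold VC at h
  induction h using AddSubgroup.closure_induction with
  | mem x hx =>
    obtain ⟨m, hm⟩ := hχ.decomp x hx
    exact ⟨fun i => m i, fun g => by simpa using hm g⟩
  | zero => exact ⟨0, fun g => by simp⟩
  | add y z _ _ hy hz =>
    obtain ⟨m, hm⟩ := hy
    obtain ⟨m', hm'⟩ := hz
    refine ⟨m + m', fun g => ?_⟩
    rw [Pi.add_apply, hm, hm', ← Finset.sum_add_distrib]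
    refine Finset.sum_congr rfl fun i _ => ?_
    rw [Pi.add_apply]
    push_cast
    ring
  | neg y _ hy =>
    obtain ⟨m, hm⟩ := hy
    refine ⟨-m, fun g => ?_⟩
    rw [Pi.neg_apply, hm, ← Finset.sum_neg_distrib]
    refine Finset.sum_congr rfl fun i _ => ?_
    rw [Pi.neg_apply]
    push_cast
    ring

/-- The exterior power as a monoid homomorphism on matrices. -/
noncomputable def extHom (n k : ℕ) :
    Matrix (Fin n) (Fin n) ℂ →* Module.End ℂ (⋀[ℂ]^k (Fin n → ℂ)) where
  toFun A := exteriorPower.map k (Matrix.toLin' A)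
  map_one' := by
    rw [Matrix.toLin'_one, exteriorPower.map_id]
    rfl
  map_mul' A B := by
    rw [Matrix.toLin'_mul, exteriorPower.map_comp]
    rfl

theorem trace_extHom_diag (n k : ℕ) (d : Fin n → ℂ) :
    LinearMap.trace ℂ _ (extHom n k (diagonal d)) = (univ.val.map d).esymm k := by
  classical
  let b := (Pi.basisFun ℂ (Fin n)).exteriorPower k
  have hb : ∀ s, extHom n k (diagonal d) (b s) = (∏ i ∈ s.val, d i) • b s := by
    intro s
    have h1 : b s = exteriorPower.ιMulti ℂ k
        (fun j => Pi.basisFun ℂ (Fin n) (Set.powersetCard.ofFinEmbEquiv.symm s j)) := by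
      simp only [b, exteriorPower.basis_apply]
      rfl
    rw [h1]
    change exteriorPower.map k (Matrix.toLin' (diagonal d)) _ = _
    rw [exteriorPower.map_apply_ιMulti]
    have h2 : (Matrix.toLin' (diagonal d)) ∘
        (fun j => Pi.basisFun ℂ (Fin n) (Set.powersetCard.ofFinEmbEquiv.symm s j)) =
        fun j => d (Set.powersetCard.ofFinEmbEquiv.symm s j) •
          Pi.basisFun ℂ (Fin n) (Set.powersetCard.ofFinEmbEquiv.symm s j) := by
      funext j
      ext i
      simp only [Function.comp_apply, Matrix.toLin'_apply, Pi.basisFun_apply,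
        Matrix.mulVec_diagonal, Pi.smul_apply, smul_eq_mul, Pi.single_apply]
      split_ifs with h
      · rw [h]
      · simp
    rw [h2, AlternatingMap.map_smul_univ]
    congr 1
    rw [Set.powersetCard.ofFinEmbEquiv_symm_apply]
    refine Finset.prod_bij (fun j _ => Finset.orderEmbOfFin s.val s.prop j) ?_ ?_ ?_ ?_
    · intro j _
      exact Finset.orderEmbOfFin_mem _ _ j
    · intro j _ j' _ h
      exact (Finset.orderEmbOfFin s.val s.prop).injective h
    · intro i hi
      have h3 : i ∈ Set.range (Finset.orderEmbOfFin s.val s.prop) := by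
        rw [Finset.range_orderEmbOfFin]
        exact hi
      obtain ⟨j, hj⟩ := h3
      exact ⟨j, Finset.mem_univ _, hj⟩
    · intro j _
      rfl
  rw [LinearMap.trace_eq_matrix_trace ℂ b, Finset.esymm_map_val]
  simp only [Matrix.trace, Matrix.diag, LinearMap.toMatrix_apply, hb, map_smul,
    Module.Basis.repr_self, Finsupp.smul_apply, Finsupp.single_eq_same, smul_eq_mul, mul_one]
  symm
  refine Finset.sum_subtype (p := fun s : Finset (Fin n) => s ∈ Set.powersetCard (Fin n) k) _
    (fun s => ?_) (fun s => ∏ i ∈ s, d i)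
  rw [Finset.mem_powersetCard]
  exact ⟨fun h => h.2, fun h => ⟨Finset.subset_univ _, h⟩⟩

theorem isChar_esymm [Finite T] {n : ℕ} (ρ : T →* Matrix (Fin n) (Fin n) ℂ) (k : ℕ) :
    IsChar fun g => (eig (ρ g)).esymm k := by
  have h1 := isChar_of_rep ((extHom n k).comp ρ)
  have h2 : (fun g => LinearMap.trace ℂ _ (((extHom n k).comp ρ) g)) =
      fun g => (eig (ρ g)).esymm k := by
    funext g
    obtain ⟨P, d, hP, hd⟩ := exists_diag ρ g
    rw [hd, ← trace_extHom_diag, MonoidHom.comp_apply, hP, map_mul, LinearMap.trace_mul_comm,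
      ← map_mul, ← Matrix.mul_assoc, Units.inv_mul, Matrix.one_mul]
  rwa [h2] at h1

theorem aeval_esymm_mem [Finite T] {n : ℕ} (ρ : T →* Matrix (Fin n) (Fin n) ℂ)
    (P : MvPolynomial (Fin n) ℤ) :
    (fun g => MvPolynomial.aeval (fun k : Fin n => (eig (ρ g)).esymm (k + 1)) P) ∈ VC T := by
  induction P using MvPolynomial.induction_on with
  | C a =>
    have h1 : (fun _ : T => (1 : ℂ)) ∈ VC T := AddSubgroup.subset_closure IsChar.one
    have h2 := zsmul_mem h1 a
    have h3 : (a • fun _ : T => (1 : ℂ)) = fun g => MvPolynomial.aeval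
        (fun k : Fin n => (eig (ρ g)).esymm (k + 1)) (MvPolynomial.C a) := by
      funext g
      simp
    rwa [h3] at h2
  | add p q hp hq =>
    have h2 := add_mem hp hq
    have h3 : ((fun g => MvPolynomial.aeval (fun k : Fin n => (eig (ρ g)).esymm (k + 1)) p) +
        fun g => MvPolynomial.aeval (fun k : Fin n => (eig (ρ g)).esymm (k + 1)) q) =
        fun g => MvPolynomial.aeval (fun k : Fin n => (eig (ρ g)).esymm (k + 1)) (p + q) := by
      funext g
      rw [map_add]
      rfl
    rwa [h3] at h2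
  | mul_X p i hp =>
    have h1 : (fun g => (eig (ρ g)).esymm (i + 1)) ∈ VC T :=
      AddSubgroup.subset_closure (isChar_esymm ρ (i + 1))
    have h2 := VC.mul hp h1
    have h3 : ((fun g => MvPolynomial.aeval (fun k : Fin n => (eig (ρ g)).esymm (k + 1)) p) *
        fun g => (eig (ρ g)).esymm (i + 1)) =
        fun g => MvPolynomial.aeval (fun k : Fin n => (eig (ρ g)).esymm (k + 1))
          (p * MvPolynomial.X i) := by
      funext g
      rw [map_mul, MvPolynomial.aeval_X]
      rfl
    rwa [h3] at h2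

end Pool.Agent.KGV
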