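import Pool.Agent.P.MP_9e9a11_al.Defs

namespace Pool.Agent.KGV

open Finset Matrix

variable {p D : ℕ} [Fact p.Prime]

namespace RedA

open Polynomial

variable {F : Type} [Field F]

/-- The polynomial `a + b X + c X ^ 2 / 2`. -/
noncomputable def jet (a b c : F) : F[X] := C a + C b * X + C (c / 2) * X ^ 2

/-- Reduction modulo `X ^ 3`. -/
noncomputable def q (F : Type) [Field F] : F[X] →+* F[X] ⧸ Ideal.span {(X : F[X]) ^ 3} :=
  Ideal.Quotient.mk _

theorem q_eq {f g : F[X]} : q F f = q F g ↔ X ^ 3 ∣ f - g :=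
  Ideal.Quotient.eq.trans Ideal.mem_span_singleton

theorem jet_inj (h2 : (2 : F) ≠ 0) {a b c a' b' c' : F}
    (h : q F (jet a b c) = q F (jet a' b' c')) : a = a' ∧ b = b' ∧ c = c' := by
  rw [q_eq, X_pow_dvd_iff] at h
  have h0 := h 0 (by norm_num)
  have h1 := h 1 (by norm_num)
  have h3 := h 2 (by norm_num)
  simp [jet, coeff_X, coeff_X_pow, coeff_C, sub_eq_zero, h2] at h0 h1 h3
  exact ⟨h0, h1, h3⟩

theorem jet_add (a b c a' b' c' : F) :
    jet (a + a') (b + b') (c + c') = jet a b c + jet a' b' c' := by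
  simp only [jet, add_div, map_add]
  ring

theorem jet_mul (h2 : (2 : F) ≠ 0) (a b c a' b' c' : F) :
    q F (jet a b c * jet a' b' c') =
      q F (jet (a * a') (a * b' + b * a') (a * c' + 2 * (b * b') + c * a')) := by
  have e : (a * c' + 2 * (b * b') + c * a') / 2 = a * (c' / 2) + b * b' + c / 2 * a' := by
    field_simp
  rw [q_eq]
  refine ⟨C b * C (c' / 2) + C (c / 2) * C b' + C (c / 2) * C (c' / 2) * X, ?_⟩
  simp only [jet, e, map_add, map_mul]
  ring

theorem jet_const (a : F) : jet a 0 0 = C a := by simp [jet]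

theorem q_pow_char (p : ℕ) [Fact p.Prime] [CharP F p] (hp : 3 ≤ p) :
    q F (jet 1 1 1) ^ p = 1 := by
  rw [← map_pow, ← map_one (q F), q_eq]
  have e : jet (1 : F) 1 1 = 1 + X * (1 + C (1 / 2) * X) := by
    simp only [jet, map_one]
    ring
  rw [e, add_pow_char, one_pow, add_sub_cancel_left, mul_pow]
  exact (pow_dvd_pow X hp).mul_right _

theorem aeval_cyc {R : Type} [CommRing R] [Algebra ℤ R] (y : R) (n : ℕ) :
    aeval y (cyclotomic n ℤ) = eval y (cyclotomic n R) := by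
  rw [aeval_def, eval₂_eq_eval_map, map_cyclotomic]

theorem cyc_zero (p : ℕ) [Fact p.Prime] [CharP F p] (hp : 4 ≤ p) {N : ℕ} (hN : 0 < N)
    (hpN : ¬ p ∣ N) {η : F[X]} (hη : IsPrimitiveRoot (η.eval 0) N) :
    q F (aeval η (cyclotomic (N * p) ℤ)) = 0 := by
  rw [← map_zero (q F), q_eq, sub_zero, aeval_cyc,
    cyclotomic_mul_prime_eq_pow_of_not_dvd _ hpN, eval_pow]
  refine (pow_dvd_pow X (show 3 ≤ p - 1 by omega)).trans (pow_dvd_pow_of_dvd ?_ _)
  rw [X_dvd_iff, coeff_zero_eq_eval_zero]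
  refine (eval₂_hom (evalRingHom (0 : F)) η).symm.trans ?_
  rw [eval₂_eq_eval_map, map_cyclotomic]
  exact hη.isRoot_cyclotomic hN

theorem rt_pow {m n : ℕ} (hn : n ≠ 0) : rt (m * n) ^ n = rt m := by
  have : (n : ℂ) ≠ 0 := by exact_mod_cast hn
  rw [rt, rt, ← Complex.exp_nat_mul]
  congr 1
  push_cast
  field_simp

end RedA

open Polynomial RedA in
theorem exists_red (hp : 5 ≤ p) (hD : 0 < D) : ∃ Red, IsRed p D Red := by
  have hpr : p.Prime := Fact.out
  have h2 : (2 : GaloisField p D) ≠ 0 := by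
    intro h
    have := (CharP.cast_eq_zero_iff (GaloisField p D) p 2).1 (by exact_mod_cast h)
    have := Nat.le_of_dvd (by norm_num) this
    omega
  have h1 : 1 < p ^ D := Nat.one_lt_pow hD.ne' hpr.one_lt
  obtain ⟨N, hN⟩ : ∃ N, N = p ^ D - 1 := ⟨_, rfl⟩
  have hN0 : 0 < N := by omega
  have hpD : p ∣ N + 1 := by
    rw [hN, Nat.sub_add_cancel h1.le]
    exact dvd_pow_self p hD.ne'
  have hpN : ¬ p ∣ N := fun h => hpr.one_lt.ne' (Nat.dvd_one.1 ((Nat.dvd_add_right h).1 hpD))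
  have hg : IsPrimitiveRoot (((gam p D)⁻¹ : (GaloisField p D)ˣ) : GaloisField p D) N := by
    rw [IsPrimitiveRoot.coe_units_iff, hN, ← orderOf_gam p D hD]
    exact (IsPrimitiveRoot.orderOf _).inv
  set g : GaloisField p D := (((gam p D)⁻¹ : (GaloisField p D)ˣ) : GaloisField p D) with hgd
  have hu : IsPrimitiveRoot (g ^ p ^ (D - 1)) N :=
    hg.pow_of_coprime _ (Nat.Coprime.pow_left _ ((Nat.Prime.coprime_iff_not_dvd hpr).2 hpN))
  have hup : (g ^ p ^ (D - 1)) ^ p = g := by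
    rw [← pow_mul, ← pow_succ, Nat.sub_add_cancel hD, ← Nat.sub_add_cancel h1.le, ← hN, pow_succ,
      hg.pow_eq_one, one_mul]
  let η : (GaloisField p D)[X] := C (g ^ p ^ (D - 1)) * jet 1 1 1 ^ (p - 1)
  have hη : IsPrimitiveRoot (η.eval 0) N := by simpa [η, jet] using hu
  have hξ : IsPrimitiveRoot (rt (N * p)) (N * p) :=
    Complex.isPrimitiveRoot_exp _ (Nat.mul_pos hN0 hpr.pos).ne'
  have hE := q_pow_char (F := GaloisField p D) p (by omega)
  refine ⟨fun x a b c => ∃ f : ℤ[X], aeval (rt (N * p)) f = x ∧ q _ (aeval η f) = q _ (jet a b c),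
    ?_, ?_, ?_, fun m => ⟨C m, by simp, by simp [jet_const]⟩, ⟨X ^ p, ?_, ?_⟩, ⟨X ^ N, ?_, ?_⟩⟩
  · rintro x a b c a' b' c' ⟨f, hf, hf'⟩ ⟨f', hg1, hg'⟩
    refine jet_inj h2 ?_
    have h3 : cyclotomic (N * p) ℤ ∣ f - f' := by
      rw [cyclotomic_eq_minpoly hξ (Nat.mul_pos hN0 hpr.pos)]
      refine minpoly.isIntegrallyClosed_dvd (hξ.isIntegral (Nat.mul_pos hN0 hpr.pos)) ?_
      rw [map_sub, hf, hg1, sub_self]
    obtain ⟨r, hr⟩ := h3
    rw [← hf', ← hg', ← sub_eq_zero, ← map_sub, ← map_sub, hr, map_mul, map_mul,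
      cyc_zero p (by omega) hN0 hpN hη, zero_mul]
  · rintro x y a b c a' b' c' ⟨f, rfl, hf'⟩ ⟨f', rfl, hg'⟩
    exact ⟨f + f', map_add _ _ _, by rw [map_add, map_add, hf', hg', jet_add, map_add]⟩
  · rintro x y a b c a' b' c' ⟨f, rfl, hf'⟩ ⟨f', rfl, hg'⟩
    exact ⟨f * f', map_mul _ _ _, by rw [map_mul, map_mul, hf', hg', ← map_mul, jet_mul h2]⟩
  · rw [aeval_X_pow, rt_pow hpr.ne_zero, hN]
  · rw [aeval_X_pow, jet_const, mul_pow, ← C_pow, hup, map_mul, map_pow, map_pow, ← pow_mul,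
      mul_comm (p - 1), pow_mul, hE, one_pow, mul_one]
  · rw [aeval_X_pow, mul_comm, rt_pow hN0.ne']
  · obtain ⟨k, hk⟩ : ∃ k, (p - 1) * N = p * k + 1 := by
      obtain ⟨t, ht⟩ := hpD
      obtain ⟨r, rfl⟩ : ∃ r, p = r + 2 := ⟨p - 2, by omega⟩
      have h4 : t ≤ N := by
        rcases t with _ | t
        · omega
        · nlinarith
      obtain ⟨s, rfl⟩ := Nat.exists_eq_add_of_le h4
      refine ⟨s, ?_⟩
      rw [show r + 2 - 1 = r + 1 from rfl]
      nlinarith
    rw [aeval_X_pow, mul_pow, ← C_pow, hu.pow_eq_one, map_one, one_mul, ← pow_mul, hk, map_pow,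
      pow_succ _ (p * k), pow_mul, hE, one_pow, one_mul]

variable {Red : ℂ → GaloisField p D → GaloisField p D → GaloisField p D → Prop}

theorem IsRed.sum (hR : IsRed p D Red) {κ : Type*} (s : Finset κ) (x : κ → ℂ)
    (a b c : κ → GaloisField p D) (h : ∀ i ∈ s, Red (x i) (a i) (b i) (c i)) :
    Red (∑ i ∈ s, x i) (∑ i ∈ s, a i) (∑ i ∈ s, b i) (∑ i ∈ s, c i) := by
  classical
  induction s using Finset.induction_on with
  | empty => simpa using hR.int 0
  | insert i s hi ih =>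
    simp only [Finset.sum_insert hi]
    exact hR.add (h i (mem_insert_self _ _)) (ih fun j hj => h j (mem_insert_of_mem hj))

theorem IsRed.eps_pow (hR : IsRed p D Red) (i : ZMod p) :
    Red (rt p ^ i.val) 1 (algebraMap (ZMod p) (GaloisField p D) i)
      (algebraMap (ZMod p) (GaloisField p D) i ^ 2) := by
  have h : ∀ n : ℕ, Red (rt p ^ n) 1 n ((n : GaloisField p D) ^ 2) := by
    intro n
    induction n with
    | zero => simpa using hR.int 1
    | succ n ih =>
      have := hR.mul ih hR.eps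
      rw [pow_succ]
      convert this using 1 <;> push_cast <;> ring
  have e : algebraMap (ZMod p) (GaloisField p D) i = (i.val : GaloisField p D) := by
    rw [← map_natCast (algebraMap (ZMod p) (GaloisField p D)), ZMod.natCast_zmod_val]
  rw [e]
  exact h _

theorem IsRed.zeta_pow (hR : IsRed p D Red) (m : ℕ) :
    Red (rt (p ^ D - 1) ^ m)
      ((((gam p D)⁻¹ : (GaloisField p D)ˣ) : GaloisField p D) ^ m) 0 0 := by
  induction m with
  | zero => simpa using hR.int 1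
  | succ n ih =>
    rw [pow_succ, pow_succ]
    simpa only [mul_zero, zero_mul, add_zero] using hR.mul ih hR.zeta

theorem IsRed.root (hR : IsRed p D Red) (hD : 0 < D) {y : ℂ} (hy : y ^ (p ^ D - 1) = 1) :
    ∃ r, Red y r 0 0 := by
  have h1 : 1 < p ^ D := Nat.one_lt_pow hD.ne' (Fact.out : p.Prime).one_lt
  have : NeZero (p ^ D - 1) := ⟨by omega⟩
  have hξ : IsPrimitiveRoot (rt (p ^ D - 1)) (p ^ D - 1) :=
    Complex.isPrimitiveRoot_exp _ (NeZero.ne _)
  obtain ⟨m, -, rfl⟩ := hξ.eq_pow_of_pow_eq_one hy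
  exact ⟨_, hR.zeta_pow m⟩

end Pool.Agent.KGV
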