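import Pool.Agent.P.MP_9e9a11_al.Defs
import Pool.Agent.P.MP_9e9a11_al.Ext
import Pool.Agent.P.MP_9e9a11_al.Red

namespace Pool.Agent.KGV

open Finset Matrix

variable {p D : ℕ} [Fact p.Prime]

theorem int_form_core (b : ZMod p → ℤ) (m : ℤ) (A : Finset (ZMod p)) (hA : ∀ i ∈ A, b i = m) :
    (A.card : ℤ) * ∑ i ∈ Aᶜ, (b i - m) ^ 2 ≤ p * ∑ i, b i ^ 2 - (∑ i, b i) ^ 2 := by
  have h1 : ∑ i, (b i - m) ^ 2 = ∑ i ∈ Aᶜ, (b i - m) ^ 2 := by
    rw [← sum_add_sum_compl A, sum_eq_zero fun i hi => by rw [hA i hi]; ring, zero_add]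
  have h2 : ∑ i, (b i - m) = ∑ i ∈ Aᶜ, (b i - m) := by
    rw [← sum_add_sum_compl A, sum_eq_zero fun i hi => by rw [hA i hi]; ring, zero_add]
  have h3 := sq_sum_le_card_mul_sum_sq (s := Aᶜ) (f := fun i => b i - m)
  have h4 : (A.card : ℤ) + (Aᶜ.card : ℤ) = p := by
    rw [← Nat.cast_add, card_add_card_compl, ZMod.card]
  have h5 : ∑ i, (b i - m) ^ 2 = ∑ i, b i ^ 2 - 2 * m * ∑ i, b i + p * m ^ 2 := by
    simp only [sub_sq, sum_add_distrib, sum_sub_distrib, sum_const, card_univ, ZMod.card,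
      nsmul_eq_mul, mul_sum]
    congr 2
    exact sum_congr rfl fun i _ => by ring
  have h6 : ∑ i, (b i - m) = ∑ i, b i - p * m := by
    simp only [sum_sub_distrib, sum_const, card_univ, ZMod.card, nsmul_eq_mul]
  rw [← h1, ← h2, h5, h6] at h3
  rw [← h1, h5, eq_sub_of_add_eq h4]
  linarith

theorem int_form_max (b : ZMod p → ℤ) (hb : ∃ i i', b i ≠ b i') :
    ∃ (m : ℤ) (A : Finset (ZMod p)), (∀ i ∈ A, b i = m) ∧ (∀ i ∈ Aᶜ, 1 ≤ m - b i) ∧
      1 ≤ (A.card : ℤ) ∧ 1 ≤ (Aᶜ.card : ℤ) ∧ (A.card : ℤ) + (Aᶜ.card : ℤ) = p := by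
  obtain ⟨j, -, hj⟩ := exists_max_image univ b univ_nonempty
  refine ⟨b j, univ.filter fun i => b i = b j, fun i hi => (mem_filter.1 hi).2, fun i hi => ?_,
    ?_, ?_, by rw [← Nat.cast_add, card_add_card_compl, ZMod.card]⟩
  · have h1 : b i ≠ b j := by simpa using hi
    have h2 := hj i (mem_univ i)
    omega
  · exact Nat.one_le_cast.2 (card_pos.2 ⟨j, by simp⟩)
  · refine Nat.one_le_cast.2 (card_pos.2 ?_)
    obtain ⟨i, i', h⟩ := hb
    by_cases h1 : b i = b j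
    · exact ⟨i', by simpa using fun h2 => h (h1.trans h2.symm)⟩
    · exact ⟨i, by simpa using h1⟩

theorem int_form_ge (b : ZMod p → ℤ) (hb : ∃ i i', b i ≠ b i') :
    (p : ℤ) - 1 ≤ p * ∑ i, b i ^ 2 - (∑ i, b i) ^ 2 := by
  obtain ⟨m, A, h1, h2, h3, h4, h5⟩ := int_form_max b hb
  have h6 : (Aᶜ.card : ℤ) ≤ ∑ i ∈ Aᶜ, (b i - m) ^ 2 := by
    rw [card_eq_sum_ones, Nat.cast_sum]
    exact sum_le_sum fun i hi => by have := h2 i hi; push_cast; nlinarith
  refine le_trans ?_ (int_form_core b m A h1)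
  nlinarith [mul_nonneg (sub_nonneg.2 h3) (sub_nonneg.2 h4),
    mul_le_mul_of_nonneg_left h6 (zero_le_one.trans h3)]

theorem int_form_eq (b : ZMod p → ℤ) (hb : p * ∑ i, b i ^ 2 - (∑ i, b i) ^ 2 = (p : ℤ) - 1) :
    ∃ (c s : ℤ) (j : ZMod p), (s = 1 ∨ s = -1) ∧ ∀ i, b i = c + if i = j then s else 0 := by
  have hne : ∃ i i', b i ≠ b i' := by
    by_contra h
    push Not at h
    have h1 : (1 : ℤ) < p := Nat.one_lt_cast.2 (Fact.out : p.Prime).one_lt
    simp only [fun i => h i 0, sum_const, card_univ, ZMod.card, nsmul_eq_mul] at hb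
    linarith
  obtain ⟨m, A, h1, h2, h3, h4, h5⟩ := int_form_max b hne
  have h6 : ∀ i ∈ Aᶜ, (1 : ℤ) ≤ (b i - m) ^ 2 := fun i hi => by have := h2 i hi; nlinarith
  have h7 : ∑ _i ∈ Aᶜ, (1 : ℤ) = Aᶜ.card := by simp
  have h8 := sum_le_sum h6
  have h9 := int_form_core b m A h1
  rw [hb] at h9
  have h10 := mul_nonneg (sub_nonneg.2 h3) (sub_nonneg.2 h4)
  have h11 := mul_nonneg (zero_le_one.trans h3) (sub_nonneg.2 h8)
  have h12 : ((A.card : ℤ) - 1) * ((Aᶜ.card : ℤ) - 1) = 0 := by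
    rw [h7] at h11
    nlinarith
  have h13 : ∑ _i ∈ Aᶜ, (1 : ℤ) = ∑ i ∈ Aᶜ, (b i - m) ^ 2 := by
    refine le_antisymm h8 (le_of_mul_le_mul_left ?_ (zero_lt_one.trans_le h3))
    rw [h7]
    nlinarith
  have h14 : ∀ i ∈ Aᶜ, b i = m - 1 := fun i hi => by
    have e := (sum_eq_sum_iff_of_le h6).1 h13 i hi
    have := h2 i hi
    nlinarith
  rcases mul_eq_zero.1 h12 with h | h
  · obtain ⟨j, hj⟩ := card_eq_one.1 (Nat.cast_eq_one.1 (sub_eq_zero.1 h))
    refine ⟨m - 1, 1, j, Or.inl rfl, fun i => ?_⟩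
    split_ifs with hi
    · rw [h1 i (by simp [hj, hi])]; ring
    · rw [h14 i (by simp [hj, hi])]; ring
  · obtain ⟨j, hj⟩ := card_eq_one.1 (Nat.cast_eq_one.1 (sub_eq_zero.1 h))
    refine ⟨m, -1, j, Or.inr rfl, fun i => ?_⟩
    split_ifs with hi
    · rw [h14 i (by simp [hj, hi])]; ring
    · rw [h1 i (by rw [← notMem_compl, hj]; simpa using hi)]; ring

theorem rt_pow_val (x : ZMod p) : rt p ^ x.val = ZMod.stdAddChar x := by
  rw [ZMod.stdAddChar_apply, ZMod.toCircle_apply, rt, ← Complex.exp_nat_mul]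
  congr 1
  ring

theorem sum_galois (b : ZMod p → ℤ) :
    ∑ j ∈ univ.erase (0 : ZMod p), (∑ i, rt p ^ (i * j).val * (b i : ℂ)) *
        (∑ i, rt p ^ (i * -j).val * (b i : ℂ)) =
      ((p * ∑ i, b i ^ 2 - (∑ i, b i) ^ 2 : ℤ) : ℂ) := by
  rw [sum_erase_eq_sub (mem_univ _)]
  push_cast
  congr 1
  · have h1 : ∀ j : ZMod p, (∑ i, rt p ^ (i * j).val * (b i : ℂ)) *
        (∑ i, rt p ^ (i * -j).val * (b i : ℂ)) =
        ∑ i, ∑ i', (b i : ℂ) * b i' * ZMod.stdAddChar (j * (i - i')) := fun j => by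
      rw [sum_mul_sum]
      refine sum_congr rfl fun i _ => sum_congr rfl fun i' _ => ?_
      rw [rt_pow_val, rt_pow_val, show j * (i - i') = i * j + i' * -j by ring,
        AddChar.map_add_eq_mul]
      ring
    simp only [h1]
    rw [sum_comm, mul_sum]
    refine sum_congr rfl fun i _ => ?_
    rw [sum_comm, sum_eq_single i (fun i' _ h => ?_) fun h => (h (mem_univ i)).elim]
    · simp [sq]
    · rw [← mul_sum, AddChar.sum_mulShift _ (ZMod.isPrimitive_stdAddChar p),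
        if_neg (sub_ne_zero.2 h.symm)]
      simp
  · simp [sq]

variable {Red : ℂ → GaloisField p D → GaloisField p D → GaloisField p D → Prop}

theorem IsRed.char (hR : IsRed p D Red) (hD : 0 < D) {T : Type*} [Group T] [Finite T]
    (hT : ∀ g : T, g ^ (p ^ D - 1) = 1) {f : T → ℂ} (hf : IsChar f) :
    ∃ r : T → GaloisField p D, ∀ g, Red (f g) (r g) 0 0 := by
  obtain ⟨m, ρ, h⟩ := hf
  have h1 : ∀ Y : Multiset ℂ, (∀ y ∈ Y, y ^ (p ^ D - 1) = 1) → ∃ r, Red Y.sum r 0 0 := by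
    intro Y
    induction Y using Multiset.induction_on with
    | empty => exact fun _ => ⟨0, by simpa using hR.int 0⟩
    | cons y Y ih =>
      intro hY
      obtain ⟨r, hr⟩ := hR.root hD (hY y (Multiset.mem_cons_self _ _))
      obtain ⟨r', hr'⟩ := ih fun z hz => hY z (Multiset.mem_cons_of_mem hz)
      exact ⟨r + r', by simpa using hR.add hr hr'⟩
  choose r hr using fun g => h1 _ (eig_pow_eq_one ρ g (hT g))
  exact ⟨r, fun g => by rw [h, trace_eq_sum_eig]; exact hr g⟩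

/-- The degree of a member of a character table does not reduce to zero. -/
theorem IsRed.degree_ne (hR : IsRed p D Red) {T : Type*} [Group T] [Fintype T]
    (hT : ¬ p ∣ Fintype.card T) {k : ℕ} {χ : Fin k → T → ℂ} (hχ : CT χ) (i : Fin k)
    {r : T → GaloisField p D} (hr : ∀ g, Red (χ i g) (r g) 0 0) : r 1 ≠ 0 := by
  intro h0
  have hc : ((Fintype.card T : ℤ) : GaloisField p D) ≠ 0 := by
    rw [Int.cast_natCast]
    exact fun h => hT ((CharP.cast_eq_zero_iff _ p _).1 h)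
  have ho := hχ.orth i i
  rw [if_pos rfl] at ho
  have hN := hR.int (Fintype.card T)
  rw [Int.cast_natCast] at hN
  have h1 : ∀ x, r x = 0 := fun x => by
    have e := hχ.central i (fun g => χ i g⁻¹) (fun g h => by
      rw [show (h * g * h⁻¹)⁻¹ = h * g⁻¹ * h⁻¹ by group]
      exact (hχ.isChar i).conj _ _) x
    rw [show ∑ g, χ i g⁻¹ * χ i g = (Fintype.card T : ℂ) from
      (sum_congr rfl fun g _ => mul_comm _ _).trans ho] at e
    have e1 := hR.mul (hr 1) (hR.sum univ _ _ _ _ fun g _ => hR.mul (hr g⁻¹) (hr (g * x)))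
    rw [e] at e1
    have e2 := (hR.func e1 (hR.mul hN (hr x))).1
    rw [h0, zero_mul] at e2
    exact (mul_eq_zero.1 e2.symm).resolve_left hc
  have e1 := hR.sum univ _ _ _ _ fun g _ => hR.mul (hr g) (hr g⁻¹)
  rw [ho] at e1
  refine hc ((hR.func hN e1).1.trans ?_)
  simp [h1]

end Pool.Agent.KGV
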