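import Pool.Agent.P.MP_9e9a11_al.Defs
import Pool.Agent.P.MP_9e9a11_al.Char
import Pool.Agent.P.MP_9e9a11_al.Form

namespace Pool.Agent.KGV

open Finset Matrix

variable {p D : ℕ} [Fact p.Prime]
  {Red : ℂ → GaloisField p D → GaloisField p D → GaloisField p D → Prop}

variable {G X : Type*} [Group G] [Fintype G] [Fintype X] [MulAction G X]
  {a : ZMod p → G → ℂ} {S : Finset G} {M : G → GaloisField p D}

theorem CoreA_sum_rt (j : ZMod p) (hj : j ≠ 0) : ∑ l : ZMod p, rt p ^ (l * j).val = 0 := by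
  have hp : p.Prime := Fact.out
  have h1 : ∑ l : ZMod p, rt p ^ (l * j).val = ∑ l : ZMod p, rt p ^ l.val :=
    Fintype.sum_equiv (Equiv.mulRight₀ j hj) _ _ fun l => rfl
  have h2 : ∑ l : ZMod p, rt p ^ l.val = ∑ i ∈ range p, rt p ^ i :=
    Finset.sum_nbij' (fun l => l.val) (fun i => (i : ZMod p))
      (fun l _ => by simpa using ZMod.val_lt l) (fun i _ => by simp)
      (fun l _ => by simp) (fun i hi => ZMod.val_cast_of_lt (by simpa using hi)) (fun l _ => rfl)
  rw [h1, h2]
  exact (Complex.isPrimitiveRoot_exp p hp.ne_zero).geom_sum_eq_zero hp.one_lt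

theorem CoreA_card_conj {T T' : Type*} [Group T] [Group T'] [Finite T] [Finite T'] (e : T ≃* T') :
    Nat.card (ConjClasses T) = Nat.card (ConjClasses T') :=
  le_antisymm
    (Nat.card_le_card_of_surjective _
      (ConjClasses.map_surjective (f := e.symm.toMonoidHom) e.symm.surjective))
    (Nat.card_le_card_of_surjective _
      (ConjClasses.map_surjective (f := e.toMonoidHom) e.surjective))

/-- The quadratic form attached to an integer vector. -/
def CoreA_Q (b : ZMod p → ℤ) : ℤ := p * ∑ i, b i ^ 2 - (∑ i, b i) ^ 2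

/-- The sum over the non-zero `j` of the products of the twisted functions. -/
noncomputable def CoreA_N (a : ZMod p → G → ℂ) (φ : G → ℂ) (g : G) : ℂ :=
  ∑ j ∈ univ.erase (0 : ZMod p), al p a j g * φ g * (al p a (-j) g⁻¹ * φ g⁻¹)

theorem CoreA_local (h : Extr p D G X Red a S M) {φ : G → ℂ} (hφ : IsChar φ)
    (hφ2 : ∀ r, Red (φ 1) r 0 0 → r ≠ 0) {T : Type*} [Group T] [Fintype T] (u : T →* G)
    (hu : Function.Injective u) {k : ℕ} {ψ : Fin k → T → ℂ} (hψ : CT ψ) :
    ∃ b : Fin k → ZMod p → ℤ, (∀ i, (p : ℤ) - 1 ≤ CoreA_Q (b i)) ∧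
      (∀ i j, ∑ t, al p a j (u t) * φ (u t) * ψ i t⁻¹ =
        (Fintype.card T : ℂ) * ∑ l, rt p ^ (l * j).val * (b i l : ℂ)) ∧
      ∑ t, CoreA_N a φ (u t) = (Fintype.card T : ℂ) * ((∑ i, CoreA_Q (b i) : ℤ) : ℂ) := by
  classical
  have hvc : ∀ l, (a l * φ) ∘ u ∈ VC T := fun l =>
    VC.comp u (VC.mul (h.vc l) (AddSubgroup.subset_closure hφ))
  choose m hm using fun l => hψ.decomp_vc (hvc l)
  set B : ZMod p → Fin k → ℂ := fun j i => ∑ l, rt p ^ (l * j).val * (m l i : ℂ) with hB
  have hF : ∀ j t, al p a j (u t) * φ (u t) = ∑ i, B j i * ψ i t := by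
    intro j t
    simp only [al, hB, Finset.sum_mul]
    rw [Finset.sum_comm]
    refine Finset.sum_congr rfl fun l _ => ?_
    have := hm l t
    simp only [Function.comp_apply, Pi.mul_apply] at this
    rw [mul_assoc, this, Finset.mul_sum]
    exact Finset.sum_congr rfl fun i _ => by ring
  have h2 : ∀ i j, ∑ t, al p a j (u t) * φ (u t) * ψ i t⁻¹ = (Fintype.card T : ℂ) * B j i := by
    intro i j
    simp only [hF, Finset.sum_mul]
    rw [Finset.sum_comm]
    have : ∀ i', ∑ t, B j i' * ψ i' t * ψ i t⁻¹ =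
        if i' = i then (Fintype.card T : ℂ) * B j i else 0 := by
      intro i'
      simp only [mul_assoc]
      rw [← Finset.mul_sum, hψ.orth]
      split_ifs with e
      · rw [e, mul_comm]
      · rw [mul_zero]
    simp only [this]
    simp
  have hT : ¬ p ∣ Fintype.card T := fun hd => h.cop (hd.trans (by
    rw [← Nat.card_eq_fintype_card, ← Nat.card_eq_fintype_card]
    exact Subgroup.card_dvd_of_injective u hu))
  have hTe : ∀ t : T, t ^ (p ^ D - 1) = 1 := fun t => hu (by rw [map_pow, h.expo, map_one])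
  refine ⟨fun i l => m l i, fun i => int_form_ge _ ?_, h2, ?_⟩
  · by_contra hc
    have hc' : ∀ l, m l i = m 0 i := fun l => by
      by_contra hne
      exact hc ⟨l, 0, hne⟩
    have hB0 : B 1 i = 0 := by
      simp only [hB, hc']
      rw [← Finset.sum_mul, CoreA_sum_rt 1 one_ne_zero, zero_mul]
    obtain ⟨r, hr⟩ := h.red.char h.pos h.expo hφ
    obtain ⟨r', hr'⟩ := h.red.char h.pos hTe (hψ.isChar i)
    have hal : ∀ t : T, ∃ b c, Red (al p a 1 (u t)) (if t = 1 then 1 else 0) b c := by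
      intro t
      by_cases ht : t = 1
      · rw [if_pos ht, ht, map_one]
        exact ⟨_, _, h.red_one⟩
      · rw [if_neg ht]
        by_cases hS : u t ∈ S
        · exact ⟨_, _, h.red_mem _ hS⟩
        · exact ⟨_, _, h.red_notMem _ (fun e => ht (hu (by rw [e, map_one]))) hS⟩
    choose b c hbc using hal
    have h3 := h.red.sum univ _ _ _ _
      (fun t _ => h.red.mul (h.red.mul (hbc t) (hr (u t))) (hr' t⁻¹))
    rw [h2, hB0, mul_zero] at h3
    have h4 := h.red.int 0
    rw [Int.cast_zero, Int.cast_zero] at h4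
    have h5 := (h.red.func h3 h4).1
    simp only [ite_mul, one_mul, zero_mul, Finset.sum_ite_eq', Finset.mem_univ, if_true, map_one,
      inv_one] at h5
    exact mul_ne_zero (hφ2 _ (hr 1)) (h.red.degree_ne hT hψ i hr') h5
  · have h6 : ∀ j, ∑ t, al p a j (u t) * φ (u t) * (al p a (-j) (u t)⁻¹ * φ (u t)⁻¹) =
        (Fintype.card T : ℂ) * ∑ i, B j i * B (-j) i := by
      intro j
      have : ∀ t, al p a j (u t) * φ (u t) * (al p a (-j) (u t)⁻¹ * φ (u t)⁻¹) =
          ∑ i, B (-j) i * (al p a j (u t) * φ (u t) * ψ i t⁻¹) := by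
        intro t
        rw [← map_inv, hF (-j), Finset.mul_sum]
        exact Finset.sum_congr rfl fun i _ => by ring
      simp only [this]
      rw [Finset.sum_comm, Finset.mul_sum]
      refine Finset.sum_congr rfl fun i _ => ?_
      rw [← Finset.mul_sum, h2]
      ring
    simp only [CoreA_N]
    rw [Finset.sum_comm]
    simp only [h6]
    rw [← Finset.mul_sum, Finset.sum_comm, Int.cast_sum]
    congr 1
    exact Finset.sum_congr rfl fun i _ => sum_galois fun l => m l i

theorem CoreA_global (h : Extr p D G X Red a S M) {φ : G → ℂ}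
    (hφ1 : ∑ g, φ g * φ g⁻¹ = (Fintype.card G : ℂ)) [∀ y : X, Fintype (MulAction.stabilizer G y)] :
    ∑ y : X, ∑ t : MulAction.stabilizer G y, CoreA_N a φ t =
      ((p : ℂ) - 1) * (Fintype.card G * Fintype.card X) := by
  classical
  have h1 : ∀ y : X, ∑ t : MulAction.stabilizer G y, CoreA_N a φ t =
      ∑ g : G, if g • y = y then CoreA_N a φ g else 0 := by
    intro y
    rw [← Finset.sum_filter]
    exact (Finset.sum_subtype _ (fun g => by simp) _).symm
  simp only [h1]
  rw [Finset.sum_comm]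
  have h2 : ∀ g : G, (∑ y : X, if g • y = y then CoreA_N a φ g else 0) =
      ((p : ℂ) - 1) * Fintype.card X * (φ g * φ g⁻¹) := by
    intro g
    rw [← Finset.sum_filter, Finset.sum_const, nsmul_eq_mul, CoreA_N, Finset.mul_sum]
    have h3 : ((univ.filter fun y : X => g • y = y).card : ℂ) =
        (Nat.card {x : X // g • x = x} : ℂ) := by
      rw [Nat.card_eq_fintype_card, Fintype.card_subtype]
    rw [h3, Finset.sum_congr rfl (g := fun _ => (Fintype.card X : ℂ) * (φ g * φ g⁻¹))]
    · rw [Finset.sum_const, Finset.card_erase_of_mem (Finset.mem_univ _), Finset.card_univ,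
        ZMod.card, nsmul_eq_mul, Nat.cast_sub (Fact.out : p.Prime).one_le, Nat.cast_one]
      ring
    · intro j hj
      rw [← h.norm j (Finset.ne_of_mem_erase hj) g]
      ring
  simp only [h2]
  rw [← Finset.mul_sum, hφ1]
  ring

theorem core_units (h : Extr p D G X Red a S M) (x : X) (hx : ∀ g : G, g • x = x)
    {φ : G → ℂ} (hφ : IsChar φ) (hφ1 : ∑ g, φ g * φ g⁻¹ = (Fintype.card G : ℂ))
    (hφ2 : ∀ r, Red (φ 1) r 0 0 → r ≠ 0) {k : ℕ} {χ : Fin k → G → ℂ} (hχ : CT χ) (i : Fin k) :
    ∃ (s : ℤ) (j0 : ZMod p), (s = 1 ∨ s = -1) ∧ ∀ j, j ≠ 0 →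
      ∑ g, al p a j g * φ g * χ i g⁻¹ = (Fintype.card G : ℂ) * s * rt p ^ (j0 * j).val := by
  classical
  have hloc : ∀ y : X, ∃ q : ℤ,
      ((p : ℤ) - 1) * Nat.card (ConjClasses (MulAction.stabilizer G y)) ≤ q ∧
      ∑ t : MulAction.stabilizer G y, CoreA_N a φ t =
        (Nat.card (MulAction.stabilizer G y) : ℂ) * (q : ℂ) := by
    intro y
    obtain ⟨k', ψ, hψ⟩ := exists_CT (MulAction.stabilizer G y)
    obtain ⟨b, hb1, -, hb3⟩ := CoreA_local h hφ hφ2 (MulAction.stabilizer G y).subtype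
      (MulAction.stabilizer G y).subtype_injective hψ
    refine ⟨∑ i, CoreA_Q (b i), ?_, ?_⟩
    · rw [← hψ.card_eq]
      refine le_trans (le_of_eq ?_) (Finset.sum_le_sum fun i _ => hb1 i)
      rw [Finset.sum_const, Finset.card_univ, Fintype.card_fin, nsmul_eq_mul, mul_comm]
    · rw [Nat.card_eq_fintype_card]
      exact hb3
  choose q hq1 hq2 using hloc
  have hg := CoreA_global h hφ1
  simp only [hq2] at hg
  have hg' : ∑ y : X, (Nat.card (MulAction.stabilizer G y) : ℤ) * q y =
      ((p : ℤ) - 1) * (Fintype.card G * Fintype.card X) := by exact_mod_cast hg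
  have he : ∑ y : X, (Nat.card (MulAction.stabilizer G y) : ℤ) *
      (((p : ℤ) - 1) * Nat.card (ConjClasses (MulAction.stabilizer G y))) =
      ((p : ℤ) - 1) * (Fintype.card G * Fintype.card X) := by
    have h1 : ∑ y : X, (Nat.card (MulAction.stabilizer G y) : ℤ) *
        Nat.card (ConjClasses (MulAction.stabilizer G y)) = Fintype.card G * Fintype.card X := by
      exact_mod_cast h.extr
    rw [← h1, Finset.mul_sum]
    exact Finset.sum_congr rfl fun y _ => by ring
  have hx1 := (Finset.sum_eq_sum_iff_of_le (fun y _ => mul_le_mul_of_nonneg_left (hq1 y)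
    (Int.natCast_nonneg (Nat.card (MulAction.stabilizer G y))))).1 (he.trans hg'.symm) x
    (Finset.mem_univ x)
  let e : MulAction.stabilizer G x ≃* G :=
    MulEquiv.ofBijective (MulAction.stabilizer G x).subtype
      ⟨(MulAction.stabilizer G x).subtype_injective, fun g => ⟨⟨g, hx g⟩, rfl⟩⟩
  obtain ⟨b, hb1, hb2, hb3⟩ := CoreA_local h hφ hφ2 (MonoidHom.id G) Function.injective_id hχ
  have h4 : ∑ t : MulAction.stabilizer G x, CoreA_N a φ t = ∑ g : G, CoreA_N a φ g :=
    Fintype.sum_equiv e.toEquiv _ _ fun t => rfl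
  have h5 : Nat.card (MulAction.stabilizer G x) = Fintype.card G := by
    rw [Nat.card_congr e.toEquiv, Nat.card_eq_fintype_card]
  have h6 : (Fintype.card G : ℤ) * q x = Fintype.card G * ∑ i, CoreA_Q (b i) := by
    have h7 := hq2 x
    rw [h4, h5] at h7
    simp only [MonoidHom.id_apply] at hb3
    exact_mod_cast h7.symm.trans hb3
  rw [h5, h6, CoreA_card_conj e, ← hχ.card_eq] at hx1
  have h8 : ∑ _i : Fin k, ((p : ℤ) - 1) = ∑ i, CoreA_Q (b i) := by
    rw [← mul_left_cancel₀ (by exact_mod_cast Fintype.card_ne_zero) hx1,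
      Finset.sum_const, Finset.card_univ, Fintype.card_fin, nsmul_eq_mul, mul_comm]
  have h9 := (Finset.sum_eq_sum_iff_of_le (fun i _ => hb1 i)).1 h8 i (Finset.mem_univ i)
  obtain ⟨c, s, j0, hs, hc⟩ := int_form_eq (b i) h9.symm
  refine ⟨s, j0, hs, fun j hj => ?_⟩
  have h10 := hb2 i j
  simp only [MonoidHom.id_apply] at h10
  rw [h10, mul_assoc]
  congr 1
  simp only [hc, Int.cast_add, mul_add, Finset.sum_add_distrib]
  rw [← Finset.sum_mul, CoreA_sum_rt j hj, zero_mul, zero_add, Finset.sum_eq_single j0]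
  · simp [mul_comm]
  · intro l _ hl
    simp [hl]
  · simp

end Pool.Agent.KGV
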