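import Pool.Agent.P.MP_9e9a11_al.Defs
import Pool.Agent.P.MP_9e9a11_al.Char
import Pool.Agent.P.MP_9e9a11_al.CoreA

namespace Pool.Agent.KGV

open Finset Matrix

variable {p D : ℕ} [Fact p.Prime]
  {Red : ℂ → GaloisField p D → GaloisField p D → GaloisField p D → Prop}
  {G X : Type*} [Group G] [Fintype G] [Fintype X] [MulAction G X]
  {a : ZMod p → G → ℂ} {S : Finset G} {M : G → GaloisField p D}

theorem CoreB_zero {k : ℕ} {χ : Fin k → G → ℂ} (hχ : CT χ) {f : G → ℂ}
    (hf : f ∈ Submodule.span ℂ (Set.range χ)) (h0 : ∀ i, ∑ g, f g * χ i g⁻¹ = 0) : f = 0 := by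
  obtain ⟨c, rfl⟩ := (Submodule.mem_span_range_iff_exists_fun ℂ).1 hf
  have hc : ∀ j, c j = 0 := fun j => by
    have h1 := h0 j
    simp only [Finset.sum_apply, Pi.smul_apply, smul_eq_mul, sum_mul, mul_assoc] at h1
    rw [sum_comm] at h1
    simp only [← mul_sum, hχ.orth, mul_ite, mul_zero, sum_ite_eq', mem_univ, if_true] at h1
    exact (mul_eq_zero.1 h1).resolve_right (Nat.cast_ne_zero.2 Fintype.card_ne_zero)
  simp [hc]

theorem CoreB_span {k : ℕ} {χ : Fin k → G → ℂ} (hχ : CT χ) {f : G → ℂ} (hf : f ∈ VC G) :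
    f ∈ Submodule.span ℂ (Set.range χ) := by
  obtain ⟨m, hm⟩ := hχ.decomp_vc hf
  refine (Submodule.mem_span_range_iff_exists_fun ℂ).2 ⟨fun i => m i, ?_⟩
  funext g
  simp [hm g]

theorem CoreB_al (h : Extr p D G X Red a S M) {k : ℕ} {χ : Fin k → G → ℂ} (hχ : CT χ)
    {φ : G → ℂ} (hφ : IsChar φ) :
    (fun g => al p a 1 g * φ g) ∈ Submodule.span ℂ (Set.range χ) := by
  have : (fun g => al p a 1 g * φ g) = ∑ i : ZMod p, rt p ^ (i * 1).val • (a i * φ) := by
    funext g
    simp only [al, Finset.sum_apply, Pi.smul_apply, smul_eq_mul, Pi.mul_apply, sum_mul, mul_assoc]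
  rw [this]
  exact Submodule.sum_mem _ fun i _ => Submodule.smul_mem _ _
    (CoreB_span hχ (VC.mul (h.vc i) (AddSubgroup.subset_closure hφ)))

theorem CoreB_fib (N : Subgroup G) [Fintype (G ⧸ N)] (F : G ⧸ N → ℂ) :
    ∑ g : G, F (g : G ⧸ N) = (Nat.card N : ℂ) * ∑ q, F q := by
  classical
  rw [← sum_fiberwise univ fun g : G => (g : G ⧸ N), mul_sum]
  refine sum_congr rfl fun q _ => ?_
  rw [sum_congr rfl (g := fun _ => F q) fun g hg => by rw [(mem_filter.1 hg).2], sum_const,
    nsmul_eq_mul]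
  congr 2
  have := QuotientGroup.card_preimage_mk N {q}
  rw [Nat.card_unique (α := ({q} : Set (G ⧸ N))), mul_one] at this
  rw [← this, ← Nat.card_eq_finsetCard]
  exact Nat.card_congr (Equiv.subtypeEquivRight fun g => by simp)

open Classical in
theorem CoreB_red (h : Extr p D G X Red a S M) {φ ψ : G → ℂ} {r r' : G → GaloisField p D}
    (hr : ∀ g, Red (φ g) (r g) 0 0) (hr' : ∀ g, Red (ψ g) (r' g) 0 0) (hS : ∀ g ∈ S, r g = r 1)
    {s : ℤ} {j : ZMod p}
    (e : ∑ g, al p a 1 g * φ g * ψ g⁻¹ = (Fintype.card G : ℂ) * s * rt p ^ (j * 1).val) :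
    r 1 * ∑ g, (if g = 1 then 1 else 0) * r' g⁻¹ = (Fintype.card G : GaloisField p D) * s ∧
    r 1 * ∑ g, (if g ∈ S then 1 else 0) * r' g⁻¹ =
      (Fintype.card G : GaloisField p D) * s * algebraMap (ZMod p) _ j := by
  have h1 : ∀ g, Red (al p a 1 g) (if g = 1 then 1 else 0) (if g ∈ S then 1 else 0) (M g) := by
    intro g
    by_cases hg : g = 1
    · subst hg; rw [if_pos rfl, if_neg h.one_notMem]; exact h.red_one
    · rw [if_neg hg]
      by_cases hs : g ∈ S
      · rw [if_pos hs]; exact h.red_mem g hs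
      · rw [if_neg hs]; exact h.red_notMem g hg hs
  have h2 := h.red.sum univ _ _ _ _ fun g _ => h.red.mul (h.red.mul (h1 g) (hr g)) (hr' g⁻¹)
  have h3 := h.red.mul (h.red.int ((Fintype.card G : ℤ) * s)) (h.red.eps_pow (j * 1))
  rw [e] at h2
  push_cast at h3
  obtain ⟨e1, e2, -⟩ := h.red.func h2 h3
  constructor
  · rw [mul_one] at e1
    rw [← e1, mul_sum]
    refine sum_congr rfl fun g _ => ?_
    split_ifs with hg
    · rw [hg]; ring
    · ring
  · rw [zero_mul, add_zero, mul_one] at e2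
    rw [← e2, mul_sum]
    refine sum_congr rfl fun g _ => ?_
    by_cases hg : g ∈ S
    · rw [if_pos hg, hS g hg]; ring
    · rw [if_neg hg]; ring

theorem CoreB_const (h : Extr p D G X Red a S M) (x : X) (hx : ∀ g : G, g • x = x)
    {φ : G → ℂ} (hφ : IsChar φ) (hφ1 : ∑ g, φ g * φ g⁻¹ = (Fintype.card G : ℂ))
    {r : G → GaloisField p D} (hr : ∀ g, Red (φ g) (r g) 0 0) (h0 : r 1 ≠ 0)
    (hS : ∀ g ∈ S, r g = r 1) (g : G) : φ g = φ 1 := by
  classical
  obtain ⟨k, χ, hχ⟩ := exists_CT G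
  have hone : Red 1 1 0 0 := by simpa using h.red.int 1
  have hG : (Fintype.card G : GaloisField p D) ≠ 0 := by
    rw [Ne, CharP.cast_eq_zero_iff (GaloisField p D) p]; exact h.cop
  have h2 : (1 : GaloisField p D) ≠ -1 := fun e => by
    have : ((2 : ℕ) : GaloisField p D) = 0 := by
      push_cast
      linear_combination e
    rw [CharP.cast_eq_zero_iff (GaloisField p D) p] at this
    have := Nat.le_of_dvd two_pos this
    have := h.five
    omega
  let t : ℂ := if r 1 = 1 then 1 else -1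
  have key : ∀ i, ∑ g, (al p a 1 g * φ g - t * (al p a 1 g * 1)) * χ i g⁻¹ = 0 := by
    intro i
    obtain ⟨r', hr'⟩ := h.red.char h.pos h.expo (hχ.isChar i)
    obtain ⟨s, j, hs, e⟩ := core_units h x hx hφ hφ1
      (fun u hu => (h.red.func hu (hr 1)).1 ▸ h0) hχ i
    obtain ⟨s', j', hs', e'⟩ := core_units h x hx (φ := fun _ => 1) IsChar.one (by simp)
      (fun u hu => (h.red.func hu hone).1 ▸ one_ne_zero) hχ i
    have e := e 1 one_ne_zero
    have e' := e' 1 one_ne_zero
    obtain ⟨a1, a2⟩ := CoreB_red h hr hr' hS e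
    obtain ⟨b1, b2⟩ := CoreB_red h (r := fun _ => 1) (fun _ => hone) hr' (fun _ _ => rfl) e'
    rw [one_mul] at b1 b2
    rw [b1] at a1
    rw [b2, ← mul_assoc, a1] at a2
    have hs0 : (s : GaloisField p D) ≠ 0 := by rcases hs with rfl | rfl <;> simp
    have hj : j' = j :=
      (algebraMap (ZMod p) (GaloisField p D)).injective (mul_left_cancel₀ (mul_ne_zero hG hs0) a2)
    have a3 : r 1 * s' = s := mul_left_cancel₀ hG (by rw [← a1]; ring)
    have ht : (s : ℂ) = t * s' := by
      rcases hs with rfl | rfl <;> rcases hs' with rfl | rfl <;> push_cast at a3 ⊢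
      · rw [mul_one] at a3; simp [t, a3]
      · have : r 1 ≠ 1 := fun e => h2 (by rw [e] at a3; linear_combination -a3)
        simp [t, this]
      · have : r 1 ≠ 1 := fun e => h2 (by rw [e] at a3; linear_combination a3)
        simp [t, this]
      · have : r 1 = 1 := by linear_combination -a3
        simp [t, this]
    simp only [sub_mul, sum_sub_distrib, mul_assoc t, ← mul_sum]
    rw [e, e', hj, ht]
    ring
  have h3 := CoreB_zero hχ (f := fun g => al p a 1 g * φ g - t * (al p a 1 g * 1))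
    (Submodule.sub_mem _ (CoreB_al h hχ hφ)
      (Submodule.smul_mem _ t (CoreB_al h hχ IsChar.one))) key
  have h4 : ∀ g, φ g = t := fun g => by
    have h5 : al p a 1 g ≠ 0 := fun e => by
      have := h.norm 1 one_ne_zero g
      rw [e, zero_mul, zero_mul] at this
      have : Nonempty X := ⟨x⟩
      exact Fintype.card_ne_zero (Nat.cast_eq_zero.1 ‹(0 : ℂ) = _›.symm)
    have h6 : al p a 1 g * φ g - t * (al p a 1 g * 1) = 0 := congrFun h3 g
    exact mul_left_cancel₀ h5 (by linear_combination h6)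
  rw [h4, h4]

theorem core_gen (h : Extr p D G X Red a S M) (x : X) (hx : ∀ g : G, g • x = x) :
    Subgroup.closure (S : Set G) = ⊤ := by
  classical
  by_contra hN
  have : (Subgroup.closure (S : Set G)).Normal := ⟨fun n hn g => by
    induction hn using Subgroup.closure_induction with
    | mem y hy => exact Subgroup.subset_closure (h.conj_mem y hy g)
    | one => simp
    | mul y z _ _ hy hz =>
      have : g * (y * z) * g⁻¹ = g * y * g⁻¹ * (g * z * g⁻¹) := by group
      rw [this]; exact mul_mem hy hz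
    | inv y _ hy =>
      have : g * y⁻¹ * g⁻¹ = (g * y * g⁻¹)⁻¹ := by group
      rw [this]; exact inv_mem hy⟩
  set N := Subgroup.closure (S : Set G) with hNdef
  obtain ⟨g0, hg0⟩ : ∃ g, g ∉ N := by
    by_contra hc
    push Not at hc
    exact hN ((Subgroup.eq_top_iff' N).2 hc)
  have := Fintype.ofFinite (G ⧸ N)
  obtain ⟨k, ψ, hψ⟩ := exists_CT (G ⧸ N)
  have hcard : Fintype.card G = Nat.card N * Fintype.card (G ⧸ N) := by
    rw [← Nat.card_eq_fintype_card, ← Nat.card_eq_fintype_card, mul_comm]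
    exact Subgroup.card_eq_card_quotient_mul_card_subgroup N
  have hc : ∀ i, ψ i g0 = ψ i 1 := fun i => by
    obtain ⟨r, hr⟩ := h.red.char h.pos (T := G ⧸ N) (fun q => by
      obtain ⟨g, rfl⟩ := QuotientGroup.mk_surjective q
      rw [← QuotientGroup.mk_pow, h.expo, QuotientGroup.mk_one]) (hψ.isChar i)
    have h0 := h.red.degree_ne (fun hd => h.cop (hcard ▸ hd.mul_left _)) hψ i hr
    refine CoreB_const h x hx ((hψ.isChar i).comp (QuotientGroup.mk' N)) ?_
      (r := fun g => r g) (fun g => hr g) h0 (fun g hg => ?_) g0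
    · have := CoreB_fib N fun q => ψ i q * ψ i q⁻¹
      rw [hψ.orth, if_pos rfl, ← Nat.cast_mul, ← hcard] at this
      exact this
    · rw [(QuotientGroup.eq_one_iff g).2 (Subgroup.subset_closure hg), QuotientGroup.mk_one]
  have h1 := hψ.regular (g0 : G ⧸ N) fun e => hg0 ((QuotientGroup.eq_one_iff g0).1 e)
  simp only [hc, hψ.regular_one] at h1
  exact Fintype.card_ne_zero (Nat.cast_eq_zero.1 h1)

end Pool.Agent.KGV
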