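import Pool.Agent.P.MP_9e9a11_al.Defs
import Pool.Agent.P.MP_9e9a11_al.Char
import Pool.Agent.P.MP_9e9a11_al.CoreA

namespace Pool.Agent.KGV

open Finset Matrix

variable {p D : ℕ} [Fact p.Prime]
  {Red : ℂ → GaloisField p D → GaloisField p D → GaloisField p D → Prop}
  {G X : Type*} [Group G] [Fintype G] [DecidableEq G] [Fintype X] [MulAction G X]
  {a : ZMod p → G → ℂ} {S : Finset G} {M : G → GaloisField p D}

omit [DecidableEq G] in
theorem coreC_central (hR : IsRed p D Red) {k : ℕ} {χ : Fin k → G → ℂ} (hχ : CT χ) (i : Fin k)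
    {r : G → GaloisField p D} (hr : ∀ g, Red (χ i g) (r g) 0 0) (c : G → GaloisField p D)
    (hc : ∀ g h, c (h * g * h⁻¹) = c g) (x : G) :
    r 1 * ∑ g, c g * r (g⁻¹ * x) = (∑ g, c g * r g⁻¹) * r x := by
  classical
  have hone : Red 1 1 0 0 := by simpa using hR.int 1
  have hzero : Red 0 0 0 0 := by simpa using hR.int 0
  have hind : ∀ (v : GaloisField p D) (g : G),
      Red (if c g = v then 1 else 0) (if c g = v then 1 else 0) 0 0 := fun v g => by
    split_ifs
    · exact hone
    · exact hzero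
  have key : ∀ v : GaloisField p D,
      r 1 * ∑ g, (if c g = v then 1 else 0) * r (g⁻¹ * x) =
        (∑ g, (if c g = v then 1 else 0) * r g⁻¹) * r x := fun v => by
    have e := hχ.central i (fun g => if c g⁻¹ = v then 1 else 0) (fun g h => by
      rw [show (h * g * h⁻¹)⁻¹ = h * g⁻¹ * h⁻¹ by group, hc]) x
    rw [← Equiv.sum_comp (Equiv.inv G) fun g => (if c g⁻¹ = v then (1 : ℂ) else 0) * χ i (g * x),
      ← Equiv.sum_comp (Equiv.inv G) fun g => (if c g⁻¹ = v then (1 : ℂ) else 0) * χ i g] at e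
    simp only [Equiv.inv_apply, inv_inv] at e
    have e1 := hR.mul (hr 1) (hR.sum univ _ _ _ _ fun g _ => hR.mul (hind v g) (hr (g⁻¹ * x)))
    have e2 := hR.mul (hR.sum univ _ _ _ _ fun g _ => hR.mul (hind v g) (hr g⁻¹)) (hr x)
    rw [e] at e1
    exact (hR.func e1 e2).1
  have dec : ∀ f : G → GaloisField p D, ∑ g, c g * f g =
      ∑ v ∈ univ.image c, v * ∑ g, (if c g = v then 1 else 0) * f g := fun f => by
    simp only [mul_sum]
    rw [sum_comm]
    refine sum_congr rfl fun g _ => ?_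
    rw [sum_eq_single (c g)]
    · simp
    · intro v _ hv
      rw [if_neg (Ne.symm hv)]
      simp
    · intro h
      exact (h (mem_image_of_mem c (mem_univ g))).elim
  rw [dec fun g => r (g⁻¹ * x), dec fun g => r g⁻¹, mul_sum, sum_mul]
  refine sum_congr rfl fun v _ => ?_
  rw [mul_left_comm, key, mul_assoc]

theorem coreC_regular (hR : IsRed p D Red) {k : ℕ} {χ : Fin k → G → ℂ} (hχ : CT χ)
    {r : Fin k → G → GaloisField p D} (hr : ∀ i g, Red (χ i g) (r i g) 0 0) (g : G) :
    ∑ i, r i 1 * r i g = if g = 1 then (Fintype.card G : GaloisField p D) else 0 := by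
  have e1 := hR.sum univ _ _ _ _ fun i _ => hR.mul (hr i 1) (hr i g)
  split_ifs with hg
  · subst hg
    rw [hχ.regular_one] at e1
    have hN := hR.int (Fintype.card G)
    rw [Int.cast_natCast, Int.cast_natCast] at hN
    exact (hR.func e1 hN).1
  · rw [hχ.regular g hg] at e1
    have hzero : Red 0 0 0 0 := by simpa using hR.int 0
    exact (hR.func e1 hzero).1

theorem coreC_isolate (hR : IsRed p D Red) {k : ℕ} {χ : Fin k → G → ℂ} (hχ : CT χ)
    {r : Fin k → G → GaloisField p D} (hr : ∀ i g, Red (χ i g) (r i g) 0 0)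
    (c : G → GaloisField p D) (g : G) :
    ∑ i, r i 1 * ∑ u, c u * r i (u⁻¹ * g) = (Fintype.card G : GaloisField p D) * c g := by
  simp only [mul_sum]
  rw [sum_comm]
  have : ∀ u, ∑ i, r i 1 * (c u * r i (u⁻¹ * g)) =
      if u = g then (Fintype.card G : GaloisField p D) * c g else 0 := fun u => by
    have e := coreC_regular hR hχ hr (u⁻¹ * g)
    rw [show ∑ i, r i 1 * (c u * r i (u⁻¹ * g)) = c u * ∑ i, r i 1 * r i (u⁻¹ * g) by
      rw [mul_sum]; exact sum_congr rfl fun i _ => by ring, e]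
    by_cases hu : u = g
    · subst hu
      simp [mul_comm]
    · rw [if_neg (fun h => hu (inv_mul_eq_one.1 h)), if_neg hu, mul_zero]
  simp only [this]
  simp

theorem coreC_moment (h : Extr p D G X Red a S M) (x : X) (hx : ∀ g : G, g • x = x)
    {k : ℕ} {χ : Fin k → G → ℂ} (hχ : CT χ) (i : Fin k)
    {r : G → GaloisField p D} (hr : ∀ g, Red (χ i g) (r g) 0 0) :
    (∑ g, (if g ∈ S then 1 else 0) * r g⁻¹) ^ 2 = r 1 * ∑ g, M g * r g⁻¹ := by
  have hR := h.red
  have hone : Red 1 1 0 0 := by simpa using hR.int 1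
  have h10 : (1 : ZMod p) ≠ 0 := one_ne_zero
  obtain ⟨s, j0, -, hs⟩ := core_units h x hx (φ := fun _ => 1) IsChar.one (by simp)
    (fun r' hr' => by rw [← (hR.func hone hr').1]; exact one_ne_zero) hχ i
  have e := hs 1 h10
  simp only [mul_one] at e
  have hal : ∀ g : G, Red (al p a 1 g) (if g = 1 then 1 else 0) (if g ∈ S then 1 else 0) (M g) :=
    fun g => by
      by_cases h1 : g = 1
      · subst h1
        rw [if_pos rfl, if_neg h.one_notMem]
        exact h.red_one
      · by_cases h2 : g ∈ S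
        · rw [if_neg h1, if_pos h2]
          exact h.red_mem g h2
        · rw [if_neg h1, if_neg h2]
          exact h.red_notMem g h1 h2
  have e1 := hR.sum univ _ _ _ _ fun g _ => hR.mul (hal g) (hr g⁻¹)
  have hN := hR.int (Fintype.card G)
  rw [Int.cast_natCast] at hN
  have e2 := hR.mul (hR.mul hN (hR.int s)) (hR.eps_pow j0)
  rw [e] at e1
  obtain ⟨f0, f1, f2⟩ := hR.func e1 e2
  simp only [mul_zero, zero_add, add_zero, zero_mul, mul_one] at f0 f1 f2
  have f0' : r 1 = ((Fintype.card G : ℤ) : GaloisField p D) * (s : GaloisField p D) := by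
    rw [← f0]
    simp
  rw [f0', f1, f2]
  ring

theorem core_count (h : Extr p D G X Red a S M) (x : X) (hx : ∀ g : G, g • x = x) (g : G) :
    ((((S ×ˢ S).filter fun u => u.1 * u.2 = g).card : ℕ) : GaloisField p D) = M g := by
  have hR := h.red
  obtain ⟨k, χ, hχ⟩ := exists_CT G
  choose r hr using fun i => hR.char h.pos h.expo (hχ.isChar i)
  have hc : (Fintype.card G : GaloisField p D) ≠ 0 := fun h0 =>
    h.cop ((CharP.cast_eq_zero_iff _ p _).1 h0)
  set Nc : G → GaloisField p D :=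
    fun u => ((((S ×ˢ S).filter fun w => w.1 * w.2 = u).card : ℕ) : GaloisField p D) with hNc
  have hS : ∀ u w : G, w * u * w⁻¹ ∈ S ↔ u ∈ S := fun u w =>
    ⟨fun hu => by simpa [mul_assoc] using h.conj_mem _ hu w⁻¹, fun hu => h.conj_mem u hu w⟩
  have hind : ∀ f : G → GaloisField p D,
      ∑ u, (if u ∈ S then 1 else 0) * f u = ∑ u ∈ S, f u := fun f => by
    simp [ite_mul, sum_ite_mem]
  have hcount : ∀ f : G → GaloisField p D,
      ∑ u, Nc u * f u = ∑ b ∈ S, ∑ c ∈ S, f (b * c) := fun f => by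
    rw [← sum_product' S S fun b c => f (b * c),
      ← sum_fiberwise (S ×ˢ S) (fun w => w.1 * w.2) fun w => f (w.1 * w.2)]
    refine sum_congr rfl fun u _ => ?_
    rw [sum_congr rfl (g := fun _ => f u) fun w hw => by rw [(mem_filter.1 hw).2]]
    simp [hNc]
  have main : ∀ i, r i 1 * ∑ u, Nc u * r i (u⁻¹ * g) = r i 1 * ∑ u, M u * r i (u⁻¹ * g) := by
    intro i
    have hne : r i 1 ≠ 0 := hR.degree_ne h.cop hχ i (hr i)
    have hC := fun y => coreC_central hR hχ i (hr i) (fun u => if u ∈ S then 1 else 0)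
      (fun u w => by simp only [hS]) y
    have hM := coreC_central hR hχ i (hr i) M h.conj_M g
    have hmom := coreC_moment h x hx hχ i (hr i)
    simp only [hind] at hC hmom
    refine mul_left_cancel₀ hne ?_
    rw [hM, hcount fun u => r i (u⁻¹ * g), ← mul_assoc (r i 1) (∑ u, M u * r i u⁻¹), ← hmom,
      mul_sum S]
    have : ∀ b ∈ S, r i 1 * ∑ c ∈ S, r i ((b * c)⁻¹ * g) =
        (∑ c ∈ S, r i c⁻¹) * r i (b⁻¹ * g) := fun b _ => by
      rw [← hC]
      congr 1
      exact sum_congr rfl fun c _ => by rw [_root_.mul_inv_rev, mul_assoc]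
    rw [sum_congr rfl this, ← mul_sum, mul_left_comm, hC]
    ring
  have e1 := coreC_isolate hR hχ hr Nc g
  have e2 := coreC_isolate hR hχ hr M g
  rw [sum_congr rfl fun i _ => main i, e2] at e1
  exact (mul_left_cancel₀ hc e1).symm

end Pool.Agent.KGV
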