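import Pool.Agent.P.MP_9e9a11_al.Defs

namespace Pool.Agent.KGV

open Finset Matrix

namespace RCount

theorem card_range_mul_card_ker {R A B : Type*} [Ring R] [AddCommGroup A] [AddCommGroup B]
    [Module R A] [Module R B] (f : A →ₗ[R] B) :
    Nat.card (LinearMap.range f) * Nat.card (LinearMap.ker f) = Nat.card A := by
  rw [← Nat.card_congr f.quotKerEquivRange.toEquiv]
  exact (AddSubgroup.card_eq_card_quotient_mul_card_addSubgroup
    (LinearMap.ker f).toAddSubgroup).symm

variable {p : ℕ} [Fact p.Prime] {V : Type*} [AddCommGroup V] [Module (ZMod p) V] [Fintype V]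

/-- The map whose kernel describes commuting pairs. -/
def cm (g h : V ≃ₗ[ZMod p] V) : V × V →ₗ[ZMod p] V :=
  (LinearMap.id - h.toLinearMap).coprod (g.toLinearMap - LinearMap.id)

omit [Fintype V] in
theorem cm_apply (g h : V ≃ₗ[ZMod p] V) (u v : V) : cm g h (u, v) = u - h u + (g v - v) := by
  simp [cm]

theorem card_range_cm (G : Subgroup (V ≃ₗ[ZMod p] V)) (hp : ¬ p ∣ Nat.card G) (g h : G) :
    Nat.card {x : V // g • x = x ∧ h • x = x} * Nat.card (LinearMap.range (cm g.1 h.1)) =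
      Nat.card V := by
  classical
  have hfin : Finite (V ≃ₗ[ZMod p] V) :=
    Finite.of_injective (fun f : V ≃ₗ[ZMod p] V => (f : V → V)) DFunLike.coe_injective
  let H : Subgroup G := Subgroup.closure {g, h}
  have hH : ((Nat.card H : ℕ) : ZMod p) ≠ 0 := fun h0 =>
    hp (((ZMod.natCast_eq_zero_iff _ _).1 h0).trans (Subgroup.card_subgroup_dvd_card H))
  have hF : Fintype H := Fintype.ofFinite H
  have hg : g ∈ H := Subgroup.subset_closure (by simp)
  have hh : h ∈ H := Subgroup.subset_closure (by simp)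
  let π : V →ₗ[ZMod p] V :=
    ((Nat.card H : ℕ) : ZMod p)⁻¹ • ∑ x : H, (x.1.1 : V ≃ₗ[ZMod p] V).toLinearMap
  have hπ : ∀ v, π v = ((Nat.card H : ℕ) : ZMod p)⁻¹ • ∑ x : H, x.1.1 v := fun v => by
    simp [π]
  have hc : ∀ v : V, ((Nat.card H : ℕ) : ZMod p)⁻¹ • ∑ _x : H, v = v := fun v => by
    rw [Finset.sum_const, Finset.card_univ, ← Nat.card_eq_fintype_card,
      ← Nat.cast_smul_eq_nsmul (ZMod p), smul_smul, inv_mul_cancel₀ hH, one_smul]
  have hr : ∀ y ∈ H, ∀ v, π (y.1 v) = π v := fun y hy v => by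
    rw [hπ, hπ]
    congr 1
    exact Fintype.sum_equiv (Equiv.mulRight (⟨y, hy⟩ : H)) _ _ fun x => rfl
  have hl : ∀ y ∈ H, ∀ v, y.1 (π v) = π v := fun y hy v => by
    rw [hπ, map_smul, map_sum]
    congr 1
    exact Fintype.sum_equiv (Equiv.mulLeft (⟨y, hy⟩ : H)) _ _ fun x => rfl
  have hU : ∀ y ∈ H, ∀ v, v - y.1 v ∈ LinearMap.range (cm g.1 h.1) := by
    intro y hy
    induction hy using Subgroup.closure_induction with
    | mem x hx =>
      intro v
      rcases hx with rfl | rfl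
      · exact ⟨(0, -v), by rw [cm_apply]; simp [sub_eq_add_neg, add_comm]⟩
      · exact ⟨(v, 0), by rw [cm_apply]; simp⟩
    | one => intro v; simp
    | mul x y _ _ hx hy =>
      intro v
      have e : v - (x * y).1 v = (v - y.1 v) + (y.1 v - x.1 (y.1 v)) := by
        simp
      rw [e]
      exact add_mem (hy v) (hx _)
    | inv x _ hx =>
      intro v
      have := neg_mem (hx ((x⁻¹).1 v))
      simpa using this
  have hfix : ∀ v, g • v = v → h • v = v → ∀ y ∈ H, y.1 v = v := by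
    intro v h1 h2 y hy
    induction hy using Subgroup.closure_induction with
    | mem x hx =>
      rcases hx with rfl | rfl
      · exact h1
      · exact h2
    | one => simp
    | mul x y _ _ hx hy => simp [hx, hy]
    | inv x _ hx =>
      have := congrArg (x⁻¹).1 hx
      simpa using this.symm
  have e1 : LinearMap.ker π = LinearMap.range (cm g.1 h.1) := by
    ext v
    constructor
    · intro hv
      have h0 : π v = 0 := hv
      have : v = ((Nat.card H : ℕ) : ZMod p)⁻¹ • ∑ x : H, (v - x.1.1 v) := by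
        rw [Finset.sum_sub_distrib, smul_sub, hc, ← hπ, h0, sub_zero]
      rw [this]
      exact Submodule.smul_mem _ _ (Submodule.sum_mem _ fun x _ => hU x.1 x.2 v)
    · rintro ⟨⟨u, w⟩, rfl⟩
      rw [LinearMap.mem_ker, cm_apply, map_add, map_sub, map_sub, hr h hh, hr g hg]
      simp
  have e2 : Nat.card {x : V // g • x = x ∧ h • x = x} = Nat.card (LinearMap.range π) := by
    refine Nat.card_congr (Equiv.subtypeEquivRight fun v => ⟨fun hv => ⟨v, ?_⟩, ?_⟩)
    · rw [hπ, Finset.sum_congr rfl fun x _ => hfix v hv.1 hv.2 x.1 x.2, hc]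
    · rintro ⟨w, rfl⟩
      exact ⟨hl g hg w, hl h hh w⟩
  rw [e2, ← e1, card_range_mul_card_ker]

theorem card_ker_cm (G : Subgroup (V ≃ₗ[ZMod p] V)) (hp : ¬ p ∣ Nat.card G) (g h : G) :
    Nat.card (LinearMap.ker (cm g.1 h.1)) =
      Nat.card V * Nat.card {x : V // g • x = x ∧ h • x = x} := by
  have h1 := card_range_cm G hp g h
  have h2 := card_range_mul_card_ker (cm g.1 h.1)
  have h3 : 0 < Nat.card (LinearMap.range (cm g.1 h.1)) := Nat.card_pos
  rw [Nat.card_prod] at h2
  refine Nat.eq_of_mul_eq_mul_left h3 ?_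
  rw [h2]
  calc Nat.card V * Nat.card V = Nat.card V * (Nat.card {x : V // g • x = x ∧ h • x = x} *
        Nat.card (LinearMap.range (cm g.1 h.1))) := by rw [h1]
    _ = _ := by ring

/-- Commuting pairs in the semidirect product. -/
def eqv₁ (G : Subgroup (V ≃ₗ[ZMod p] V)) :
    {q : (Multiplicative V ⋊[act G] G) × (Multiplicative V ⋊[act G] G) // Commute q.1 q.2} ≃
      Σ q : {q : G × G // Commute q.1 q.2}, LinearMap.ker (cm q.1.1.1 q.1.2.1) where
  toFun q := ⟨⟨(q.1.1.right, q.1.2.right), congrArg SemidirectProduct.right q.2.eq⟩,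
    ⟨(q.1.1.left.toAdd, q.1.2.left.toAdd), by
      have h : q.1.1.left.toAdd + q.1.1.right.1 q.1.2.left.toAdd =
          q.1.2.left.toAdd + q.1.2.right.1 q.1.1.left.toAdd :=
        congrArg (fun x => Multiplicative.toAdd (SemidirectProduct.left x)) q.2.eq
      rw [LinearMap.mem_ker, cm_apply, ← sub_eq_zero.2 h]
      abel⟩⟩
  invFun q := ⟨(⟨Multiplicative.ofAdd q.2.1.1, q.1.1.1⟩, ⟨Multiplicative.ofAdd q.2.1.2, q.1.1.2⟩), by
    have h : cm q.1.1.1.1 q.1.1.2.1 (q.2.1.1, q.2.1.2) = 0 := q.2.2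
    rw [cm_apply] at h
    refine SemidirectProduct.ext ?_ q.1.2.eq
    refine Multiplicative.toAdd.injective ?_
    change q.2.1.1 + q.1.1.1.1 q.2.1.2 = q.2.1.2 + q.1.1.2.1 q.2.1.1
    rw [← sub_eq_zero, ← h]
    abel⟩
  left_inv _ := rfl
  right_inv _ := rfl

/-- Commuting pairs in the stabilisers. -/
def eqv₂ (G : Subgroup (V ≃ₗ[ZMod p] V)) :
    (Σ v : V, {q : MulAction.stabilizer G v × MulAction.stabilizer G v // Commute q.1 q.2}) ≃
      Σ q : {q : G × G // Commute q.1 q.2}, {x : V // q.1.1 • x = x ∧ q.1.2 • x = x} where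
  toFun q := ⟨⟨(q.2.1.1.1, q.2.1.2.1), congrArg Subtype.val q.2.2.eq⟩, q.1, q.2.1.1.2, q.2.1.2.2⟩
  invFun q := ⟨q.2.1, (⟨q.1.1.1, q.2.2.1⟩, ⟨q.1.1.2, q.2.2.2⟩), Subtype.ext q.1.2.eq⟩
  left_inv _ := rfl
  right_inv _ := rfl

end RCount

open RCount

theorem count_classes {p : ℕ} [Fact p.Prime] {V : Type*} [AddCommGroup V] [Module (ZMod p) V]
    [Fintype V] (G : Subgroup (V ≃ₗ[ZMod p] V)) (hp : ¬ p ∣ Nat.card G) :
    Nat.card G * Nat.card (ConjClasses (Multiplicative V ⋊[act G] G)) =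
      ∑ v : V, Nat.card (MulAction.stabilizer G v) *
        Nat.card (ConjClasses (MulAction.stabilizer G v)) := by
  have hfin : Finite (V ≃ₗ[ZMod p] V) :=
    Finite.of_injective (fun f : V ≃ₗ[ZMod p] V => (f : V → V)) DFunLike.coe_injective
  have hF : Fintype {q : G × G // Commute q.1 q.2} := Fintype.ofFinite _
  have h1 := Nat.card_congr (eqv₁ G)
  have h2 := Nat.card_congr (eqv₂ G)
  rw [card_comm_eq_card_conjClasses_mul_card, SemidirectProduct.card, Nat.card_sigma,
    Finset.sum_congr rfl fun q _ => card_ker_cm G hp q.1.1 q.1.2, ← Finset.mul_sum,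
    Nat.card_congr Multiplicative.toAdd] at h1
  rw [Nat.card_sigma, Nat.card_sigma] at h2
  refine Nat.eq_of_mul_eq_mul_left (Nat.card_pos (α := V)) ?_
  rw [Finset.sum_congr rfl fun v _ => (mul_comm _ _).trans
    (card_comm_eq_card_conjClasses_mul_card (MulAction.stabilizer G v)).symm, h2, ← h1]
  ring

end Pool.Agent.KGV
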