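import Pool.Agent.P.MP_9e9a11_al.Defs
import Pool.Agent.P.MP_9e9a11_al.Gauss

set_option linter.unusedSectionVars false

namespace Pool.Agent.KGV

open Finset Matrix

variable {p D : ℕ} [Fact p.Prime]

theorem SS_rec {ι : Type*} (w : Equiv.Perm ι) (hw : w ^ D = 1) (a : ι → ℕ) (i : ι) :
    p * SS p D w a i = SS p D w a (w i) + (p ^ D - 1) * a i := by
  cases D with
  | zero => simp [SS]
  | succ D =>
    have hp : 1 ≤ p ^ (D + 1) := Nat.one_le_pow _ _ (Fact.out : p.Prime).pos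
    have e1 : p * SS p (D + 1) w a i =
        ∑ k ∈ range D, p ^ (D - k) * a ((w ^ (k + 1)) i) + p ^ (D + 1) * a i := by
      unfold SS
      rw [sum_range_succ', mul_add, mul_sum]
      congr 1
      · refine sum_congr rfl fun k hk => ?_
        have hk' := mem_range.1 hk
        have : D - k = (D + 1 - 1 - (k + 1)) + 1 := by omega
        rw [this, pow_succ]; ring
      · simp [pow_succ]; ring
    have e2 : SS p (D + 1) w a (w i) =
        ∑ k ∈ range D, p ^ (D - k) * a ((w ^ (k + 1)) i) + a i := by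
      unfold SS
      rw [sum_range_succ]
      congr 1
      have : (w ^ D) (w i) = i := by
        rw [← Equiv.Perm.mul_apply, ← pow_succ, hw]; rfl
      rw [this]; simp
    rw [e1, e2]
    obtain ⟨m, hm⟩ := Nat.exists_eq_add_of_le hp
    rw [hm]
    simp only [Nat.add_sub_cancel_left]
    ring

theorem SS_adj {ι : Type*} [Fintype ι] (w : Equiv.Perm ι) (a c : ι → ℕ) :
    ∑ i, a i * SS p D w⁻¹ c i = ∑ i, SS p D w a i * c i := by
  unfold SS
  simp only [mul_sum, sum_mul]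
  rw [sum_comm, sum_comm (s := univ) (t := range D)]
  refine sum_congr rfl fun k _ => ?_
  rw [← Equiv.sum_comp (w ^ k)]
  refine sum_congr rfl fun i _ => ?_
  have : (w⁻¹ ^ k) ((w ^ k) i) = i := by
    rw [inv_pow]; simp
  rw [this]; ring

theorem pow_D_eq_one {n : ℕ} (hD : n.factorial ∣ D) {ι : Type*} [Fintype ι] [DecidableEq ι]
    (hι : Fintype.card ι ≤ n) (w : Equiv.Perm ι) : w ^ D = 1 := by
  rw [← orderOf_dvd_iff_pow_eq_one]
  refine (orderOf_dvd_card (x := w)).trans ?_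
  rw [Fintype.card_perm]
  exact (Nat.factorial_dvd_factorial hι).trans hD

/-- the cycle of a point -/
noncomputable def Cyc_O {ι : Type} [Fintype ι] (u : Equiv.Perm ι) (i : ι) : Finset ι :=
  open Classical in univ.filter fun x => u.SameCycle i x

theorem Cyc_mem {ι : Type} [Fintype ι] {u : Equiv.Perm ι} {i x : ι} :
    x ∈ Cyc_O u i ↔ u.SameCycle i x := by
  classical
  unfold Cyc_O
  rw [mem_filter]
  exact ⟨fun h => h.2, fun h => ⟨mem_univ _, h⟩⟩

theorem Cyc_enum {ι : Type} [Fintype ι] (u : Equiv.Perm ι) (i : ι) :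
    (Cyc_O u i).val = (Multiset.range (Cyc_O u i).card).map (fun l => (u ^ l) i) ∧
      (u ^ (Cyc_O u i).card) i = i ∧ 0 < (Cyc_O u i).card ∧
      ∀ t, 0 < t → t < (Cyc_O u i).card → (u ^ t) i ≠ i := by
  classical
  have hper : i ∈ Function.periodicPts u := u.injective.mem_periodicPts i
  have hpos := Function.minimalPeriod_pos_of_mem_periodicPts hper
  have hinj : Set.InjOn (fun l => (u ^ l) i) (range (Function.minimalPeriod u i) : Set ℕ) := by
    intro a ha b hb e
    exact Function.iterate_injOn_Iio_minimalPeriod (f := u) (x := i)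
      (mem_range.1 (mem_coe.1 ha)) (mem_range.1 (mem_coe.1 hb)) e
  have himg : Cyc_O u i = (range (Function.minimalPeriod u i)).image fun l => (u ^ l) i := by
    ext x
    rw [Cyc_mem, mem_image]
    constructor
    · intro h
      obtain ⟨l, hl⟩ := h.exists_nat_pow_eq
      refine ⟨l % Function.minimalPeriod u i, mem_range.2 (Nat.mod_lt _ hpos), ?_⟩
      rw [← hl]
      exact Function.iterate_mod_minimalPeriod_eq (f := u) (x := i) (n := l)
    · rintro ⟨l, -, rfl⟩
      exact ⟨(l : ℤ), by simp⟩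
  have hcard : (Cyc_O u i).card = Function.minimalPeriod u i := by
    rw [himg, card_image_of_injOn hinj, card_range]
  rw [hcard]
  refine ⟨?_, Function.iterate_minimalPeriod (f := u) (x := i), hpos, fun t h0 ht e => ?_⟩
  · rw [himg, image_val_of_injOn hinj]; rfl
  · exact Function.not_isPeriodicPt_of_pos_of_lt_minimalPeriod (f := u) (x := i) h0.ne' ht e

theorem Cyc_sum {ι : Type} [Fintype ι] (u : Equiv.Perm ι) (i : ι) {M : Type*} [AddCommMonoid M]
    (f : ι → M) : ∑ x ∈ Cyc_O u i, f x = ∑ l ∈ range (Cyc_O u i).card, f ((u ^ l) i) := by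
  have h := (Cyc_enum u i).1
  calc ∑ x ∈ Cyc_O u i, f x = ((Cyc_O u i).val.map f).sum := rfl
    _ = (((Multiset.range (Cyc_O u i).card).map (fun l => (u ^ l) i)).map f).sum := by rw [← h]
    _ = _ := by rw [Multiset.map_map]; rfl

theorem Cyc_pow {n : ℕ} (hD : Big n D) {ι : Type} [Fintype ι] (hι : Fintype.card ι ≤ n)
    (w : Equiv.Perm ι) : w ^ D = 1 := by
  ext i
  obtain ⟨-, h1, h2, -⟩ := Cyc_enum w i
  obtain ⟨m, hm⟩ := hD.2 _ h2 ((card_le_univ _).trans hι)
  rw [hm, pow_mul]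
  exact Equiv.Perm.pow_apply_eq_self_of_apply_eq_self h1 m

theorem Cyc_frob {ι : Type} {M : Type*} [Monoid M] {g : M} (hg : g ^ (p ^ D - 1) = 1)
    (w : Equiv.Perm ι) (hw : w ^ D = 1) (a : ι → ℕ) (i : ι) (l : ℕ) :
    g ^ SS p D w a ((w ^ l) i) = (g ^ SS p D w a i) ^ p ^ l := by
  induction l with
  | zero => simp
  | succ l ih =>
    rw [pow_succ p, pow_mul, ← ih, ← pow_mul, mul_comm _ p, SS_rec w hw, pow_add g, pow_mul, hg,
      one_pow, mul_one, pow_succ', Equiv.Perm.mul_apply]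

theorem Cyc_SS_add {ι : Type} [DecidableEq ι] (w : Equiv.Perm ι) (a : ι → ℕ) (i0 : ι) (k : ℕ)
    (i : ι) : SS p D w (fun x => a x + k * if x = i0 then 1 else 0) i =
      SS p D w a i + k * SS p D w (fun x => if x = i0 then 1 else 0) i := by
  unfold SS
  rw [mul_sum, ← sum_add_distrib]
  exact sum_congr rfl fun t _ => by ring

theorem Cyc_SS_off {ι : Type} [Fintype ι] [DecidableEq ι] (w : Equiv.Perm ι) (i0 : ι) {i : ι}
    (hi : i ∉ Cyc_O w i0) : SS p D w (fun x => if x = i0 then 1 else 0) i = 0 := by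
  unfold SS
  refine sum_eq_zero fun t _ => ?_
  have : (w ^ t) i ≠ i0 := fun e =>
    hi (Cyc_mem.2 (Equiv.Perm.SameCycle.symm ⟨(t : ℤ), by simpa using e⟩))
  simp [this]

theorem Cyc_O_apply {ι : Type} [Fintype ι] (w : Equiv.Perm ι) (i0 : ι) :
    Cyc_O w (w i0) = Cyc_O w i0 := by
  ext x
  rw [Cyc_mem, Cyc_mem, Equiv.Perm.sameCycle_apply_left]

theorem Cyc_O_inv {ι : Type} [Fintype ι] (w : Equiv.Perm ι) (i0 : ι) :
    Cyc_O w⁻¹ i0 = Cyc_O w i0 := by
  ext x
  rw [Cyc_mem, Cyc_mem, Equiv.Perm.sameCycle_inv]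

theorem Cyc_SS_star {ι : Type} [Fintype ι] [DecidableEq ι] (w : Equiv.Perm ι) (hw : w ^ D = 1)
    (i0 : ι) : SS p D w (fun x => if x = i0 then 1 else 0) (w i0) =
      (p ^ D - 1) / (p ^ (Cyc_O w i0).card - 1) := by
  obtain ⟨-, h1, h2, h3⟩ := Cyc_enum w i0
  obtain ⟨e, he⟩ : ∃ e, (Cyc_O w i0).card = e + 1 := ⟨_, (Nat.succ_pred_eq_of_pos h2).symm⟩
  rw [he] at h1 h3 ⊢
  set S := SS p D w (fun x => if x = i0 then 1 else 0) with hS
  have key : ∀ l, l ≤ e → S ((w ^ (l + 1)) i0) = p ^ l * S (w i0) := by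
    intro l
    induction l with
    | zero => intro _; simp
    | succ l ih =>
      intro hl
      have h4 := SS_rec (p := p) w hw (fun x => if x = i0 then 1 else 0) ((w ^ (l + 1)) i0)
      rw [if_neg (h3 (l + 1) (by omega) (by omega)), mul_zero, add_zero, ← hS,
        ih (by omega)] at h4
      rw [pow_succ' w (l + 1), Equiv.Perm.mul_apply, ← h4]; ring
  have h5 := key e le_rfl
  rw [h1] at h5
  have h4 := SS_rec (p := p) w hw (fun x => if x = i0 then 1 else 0) i0
  rw [if_pos rfl, mul_one, ← hS, h5] at h4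
  have hp : 1 < p ^ (e + 1) := Nat.one_lt_pow (by omega) (Fact.out : p.Prime).one_lt
  symm
  refine Nat.div_eq_of_eq_mul_left (by omega) ?_
  have h6 : p * (p ^ e * S (w i0)) = S (w i0) * p ^ (e + 1) := by ring
  rw [Nat.mul_sub, mul_one]
  omega

theorem Cyc_geom {N : ℕ} (hN : 0 < N) (m : ℕ) :
    ∑ c : Fin N, rt N ^ (m * (c : ℕ)) = if N ∣ m then (N : ℂ) else 0 := by
  have hz : IsPrimitiveRoot (rt N) N := Complex.isPrimitiveRoot_exp N hN.ne'
  simp only [pow_mul]
  rw [Fin.sum_univ_eq_sum_range (fun c => (rt N ^ m) ^ c) N]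
  split_ifs with h
  · rw [(hz.pow_eq_one_iff_dvd m).2 h]; simp
  · have h1 : rt N ^ m ≠ 1 := fun e => h ((hz.pow_eq_one_iff_dvd m).1 e)
    rw [geom_sum_eq h1, ← pow_mul, mul_comm, pow_mul, hz.pow_eq_one]; simp

theorem Cyc_sign {ι : Type} [Fintype ι] [DecidableEq ι] (w : Equiv.Perm ι)
    [DecidableRel w.SameCycle] (i0 : ι) :
    ((Equiv.Perm.sign (w.cycleOf i0) : ℤ) : ℂ) = -(-1) ^ (Cyc_O w i0).card := by
  by_cases h : w i0 = i0
  · rw [(Equiv.Perm.cycleOf_eq_one_iff w).2 h]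
    obtain ⟨-, -, h2, h3⟩ := Cyc_enum w i0
    have : (Cyc_O w i0).card = 1 := by
      by_contra hne
      exact h3 1 one_pos (by omega) (by simpa using h)
    rw [this]; simp
  · rw [(Equiv.Perm.isCycle_cycleOf w h).sign]
    have : (w.cycleOf i0).support = Cyc_O w i0 := by
      ext x
      rw [Cyc_mem]
      constructor
      · intro hx
        rw [Equiv.Perm.mem_support] at hx
        by_contra hn
        exact hx (Equiv.Perm.cycleOf_apply_of_not_sameCycle hn)
      · intro hx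
        rw [Equiv.Perm.mem_support, hx.cycleOf_apply]
        intro e
        exact h (hx.apply_eq_self_iff.2 e)
    rw [this]; simp

/-- exactly one term of the Gauss sum survives on a cycle -/
theorem Cyc_pick {n : ℕ} (hD : Big n D) {ι : Type} [Fintype ι] [DecidableEq ι]
    (hι : Fintype.card ι ≤ n) (w : Equiv.Perm ι) (a : ι → ℕ) (i0 : ι) :
    ∃ k0, k0 < p ^ (Cyc_O w i0).card - 1 ∧
      (∀ k, k < p ^ (Cyc_O w i0).card - 1 → ((∀ i ∈ Cyc_O w i0, (p ^ D - 1) ∣
        SS p D w (fun x => a x + k * if x = i0 then 1 else 0) i) ↔ k = k0)) ∧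
      ∑ l ∈ range (Cyc_O w i0).card, (gamd p D (Cyc_O w i0).card ^ k0) ^ p ^ l =
        ∑ i ∈ Cyc_O w i0,
          (((gam p D)⁻¹ : (GaloisField p D)ˣ) : GaloisField p D) ^ SS p D w a i := by
  have hw := Cyc_pow hD hι w
  obtain ⟨h0, h1, h2, -⟩ := Cyc_enum w (w i0)
  have hsum := fun f : ι → GaloisField p D => Cyc_sum w (w i0) f
  rw [Cyc_O_apply] at h0 h1 h2 hsum
  have hdD : (Cyc_O w i0).card ∣ D := hD.2 _ h2 ((card_le_univ _).trans hι)
  have hstar := Cyc_SS_star (p := p) w hw i0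
  generalize hd : (Cyc_O w i0).card = d at h0 h1 h2 hsum hdD hstar ⊢
  set g : GaloisField p D := (((gam p D)⁻¹ : (GaloisField p D)ˣ) : GaloisField p D) with hg
  have hog : orderOf g = p ^ D - 1 := by
    rw [hg, orderOf_units, orderOf_inv, orderOf_gam p D hD.1]
  have hgN : g ^ (p ^ D - 1) = 1 := by rw [← hog]; exact pow_orderOf_eq_one g
  have hg0 : g ≠ 0 := Units.ne_zero _
  have hfr := fun (b : ι → ℕ) (l : ℕ) => Cyc_frob hgN w hw b (w i0) l
  have hfix : (g ^ SS p D w a (w i0)) ^ p ^ d = g ^ SS p D w a (w i0) := by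
    rw [← hfr, h1]
  obtain ⟨k0, hk0, hx⟩ := ((mem_fix_iff hD.1 h2 hdD _).1 hfix).resolve_left (pow_ne_zero _ hg0)
  have hgd : g ^ ((p ^ D - 1) / (p ^ d - 1)) * gamd p D d = 1 := by
    rw [gamd, ← mul_pow, hg, Units.inv_mul, one_pow]
  have hone : ∀ k, g ^ SS p D w (fun x => a x + k * if x = i0 then 1 else 0) (w i0) *
      gamd p D d ^ k = gamd p D d ^ k0 := by
    intro k
    rw [Cyc_SS_add, hstar, pow_add, hx, mul_comm k, pow_mul, mul_assoc, ← mul_pow, hgd, one_pow,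
      mul_one]
  refine ⟨k0, hk0, fun k hk => ⟨fun h => ?_, fun h i hi => ?_⟩, ?_⟩
  · have h3 := h (w i0) (Cyc_mem.2 ⟨1, by simp⟩)
    rw [← hog, orderOf_dvd_iff_pow_eq_one] at h3
    have h4 := hone k
    rw [h3, one_mul] at h4
    have ho := orderOf_gamd (p := p) hD.1 h2 hdD
    exact pow_injOn_Iio_orderOf (x := gamd p D d) (by rw [ho]; exact hk) (by rw [ho]; exact hk0) h4
  · subst h
    have h4 := hone k
    have hne : gamd p D d ^ k ≠ 0 := pow_ne_zero _ (right_ne_zero_of_mul_eq_one hgd)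
    have h5 : g ^ SS p D w (fun x => a x + k * if x = i0 then 1 else 0) (w i0) = 1 :=
      mul_right_cancel₀ hne (by rw [h4, one_mul])
    have h6 : i ∈ (Cyc_O w i0).val := hi
    rw [h0] at h6
    obtain ⟨l, -, rfl⟩ := Multiset.mem_map.1 h6
    rw [← hog, orderOf_dvd_iff_pow_eq_one, hfr, h5, one_pow]
  · rw [hsum]
    exact sum_congr rfl fun l _ => by rw [hfr, hx]

theorem Cyc_main {n : ℕ} (hD : Big n D) {α : ZMod p → Multiset ℂ → ℂ} (hα : IsAlpha p D n α)
    {j : ZMod p} (hj : j ≠ 0) {ι : Type} [Fintype ι] [DecidableEq ι] (hι : Fintype.card ι ≤ n)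
    (w : Equiv.Perm ι) (s : Finset ι) :
    (∀ i, w i ∈ s ↔ i ∈ s) → ∀ u : Equiv.Perm ι, (∀ i ∈ s, u i = w i) → (∀ i, i ∉ s → u i = i) →
    ∀ a : ι → ℕ, ((Equiv.Perm.sign u : ℤ) : ℂ) * ∑ c : ι → Fin (p ^ D - 1),
        α j (s.val.map fun i => rt (p ^ D - 1) ^ SS p D w⁻¹ (fun i => (c i : ℕ)) i) *
          rt (p ^ D - 1) ^ (∑ i, a i * SS p D w⁻¹ (fun i => (c i : ℕ)) i) =
      (-1) ^ s.card * ((p ^ D - 1 : ℕ) : ℂ) ^ Fintype.card ι *
        ((if ∀ i, i ∉ s → (p ^ D - 1) ∣ SS p D w a i then 1 else 0) *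
        Psi p D j (∑ i ∈ s,
          (((gam p D)⁻¹ : (GaloisField p D)ˣ) : GaloisField p D) ^ SS p D w a i)) := by
  classical
  have hN : 0 < p ^ D - 1 :=
    Nat.sub_pos_of_lt (Nat.one_lt_pow hD.1.ne' (Fact.out : p.Prime).one_lt)
  have hz : IsPrimitiveRoot (rt (p ^ D - 1)) (p ^ D - 1) := Complex.isPrimitiveRoot_exp _ hN.ne'
  have hw := Cyc_pow hD hι w
  have hw' := Cyc_pow hD hι w⁻¹
  induction s using Finset.strongInduction with
  | H s ih =>
  intro hs u hu1 hu2 a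
  rcases s.eq_empty_or_nonempty with rfl | ⟨i0, hi0⟩
  · have hu : u = 1 := Equiv.ext fun i => hu2 i (notMem_empty i)
    have hP : Psi p D j 0 = 1 := by simp [Psi]
    simp only [hu, map_one, Units.val_one, Int.cast_one, one_mul, empty_val, Multiset.map_zero,
      hα.zero, card_empty, pow_zero, sum_empty, hP, mul_one, SS_adj, notMem_empty,
      not_false_eq_true, forall_const]
    have e1 : ∑ c : ι → Fin (p ^ D - 1), rt (p ^ D - 1) ^ (∑ i, SS p D w a i * (c i : ℕ)) =
        ∏ i, ∑ c : Fin (p ^ D - 1), rt (p ^ D - 1) ^ (SS p D w a i * (c : ℕ)) := by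
      rw [prod_univ_sum, Fintype.piFinset_univ]
      exact sum_congr rfl fun c _ => (prod_pow_eq_pow_sum _ _ _).symm
    rw [e1]
    simp only [Cyc_geom hN]
    split_ifs with h
    · simp only [h, if_true, prod_const, card_univ, mul_one]
    · obtain ⟨i, hi⟩ := not_forall.1 h
      rw [mul_zero]
      exact prod_eq_zero (mem_univ i) (if_neg hi)
  · have hpow : ∀ (l : ℕ) (i : ι), i ∈ s → (w ^ l) i ∈ s := by
      intro l i hi
      induction l with
      | zero => exact hi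
      | succ l ih' => rw [pow_succ', Equiv.Perm.mul_apply]; exact (hs _).2 ih'
    have hOs : Cyc_O w i0 ⊆ s := by
      intro x hx
      obtain ⟨l, rfl⟩ := (Cyc_mem.1 hx).exists_nat_pow_eq
      exact hpow l i0 hi0
    have hi0O : i0 ∈ Cyc_O w i0 := Cyc_mem.2 (Equiv.Perm.SameCycle.refl _ _)
    have hOw : ∀ i, w i ∈ Cyc_O w i0 ↔ i ∈ Cyc_O w i0 := fun i => by
      rw [Cyc_mem, Cyc_mem, Equiv.Perm.sameCycle_apply_right]
    have hlt : s \ Cyc_O w i0 ⊂ s := sdiff_ssubset hOs ⟨i0, hi0O⟩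
    have hcyc1 : ∀ i ∈ Cyc_O w i0, w.cycleOf i0 i = w i := fun i hi =>
      (Cyc_mem.1 hi).cycleOf_apply
    have hcyc2 : ∀ i, i ∉ Cyc_O w i0 → w.cycleOf i0 i = i := fun i hi =>
      Equiv.Perm.cycleOf_apply_of_not_sameCycle fun h => hi (Cyc_mem.2 h)
    have hcyc3 : ∀ i, i ∉ Cyc_O w i0 → (w.cycleOf i0)⁻¹ i = i := fun i hi => by
      rw [Equiv.Perm.inv_eq_iff_eq, hcyc2 i hi]
    have IH := ih _ hlt (fun i => by rw [mem_sdiff, mem_sdiff, hs, hOw])
      (u * (w.cycleOf i0)⁻¹) (fun i hi => by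
        rw [Equiv.Perm.mul_apply, hcyc3 i (mem_sdiff.1 hi).2, hu1 i (mem_sdiff.1 hi).1])
      (fun i hi => by
        by_cases hO : i ∈ Cyc_O w i0
        · obtain ⟨x, rfl⟩ := w.surjective i
          have hx := (hOw x).1 hO
          have e0 : (w.cycleOf i0)⁻¹ (w x) = x := by
            rw [Equiv.Perm.inv_eq_iff_eq, hcyc1 x hx]
          rw [Equiv.Perm.mul_apply, e0, hu1 x (hOs hx)]
        · rw [Equiv.Perm.mul_apply, hcyc3 i hO]
          exact hu2 i fun h => hi (mem_sdiff.2 ⟨h, hO⟩))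
    have hsign : ((Equiv.Perm.sign u : ℤ) : ℂ) =
        ((Equiv.Perm.sign (u * (w.cycleOf i0)⁻¹) : ℤ) : ℂ) * -(-1) ^ (Cyc_O w i0).card := by
      rw [← Cyc_sign w i0, ← Int.cast_mul, ← Units.val_mul, ← map_mul, inv_mul_cancel_right]
    obtain ⟨k0, hk0, hk, hsum⟩ := Cyc_pick (p := p) hD hι w a i0
    obtain ⟨h0, h1, h2, -⟩ := Cyc_enum w⁻¹ i0
    rw [Cyc_O_inv] at h0 h1 h2
    have hdn : (Cyc_O w i0).card ≤ n := (card_le_univ _).trans hι
    have hval : s.val = (s \ Cyc_O w i0).val + (Cyc_O w i0).val := by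
      rw [sdiff_val, tsub_add_cancel_of_le (val_le_iff.2 hOs)]
    have hterm : ∀ c : ι → Fin (p ^ D - 1),
        α j (s.val.map fun i => rt (p ^ D - 1) ^ SS p D w⁻¹ (fun i => (c i : ℕ)) i) *
          rt (p ^ D - 1) ^ (∑ i, a i * SS p D w⁻¹ (fun i => (c i : ℕ)) i) =
        -∑ k ∈ range (p ^ (Cyc_O w i0).card - 1),
          Psi p D j (∑ l ∈ range (Cyc_O w i0).card, (gamd p D (Cyc_O w i0).card ^ k) ^ p ^ l) *
          (α j ((s \ Cyc_O w i0).val.map
              fun i => rt (p ^ D - 1) ^ SS p D w⁻¹ (fun i => (c i : ℕ)) i) *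
            rt (p ^ D - 1) ^ (∑ i, (a i + k * if i = i0 then 1 else 0) *
              SS p D w⁻¹ (fun i => (c i : ℕ)) i)) := by
      intro c
      have hfr := fun l => Cyc_frob hz.pow_eq_one w⁻¹ hw' (fun i => (c i : ℕ)) i0 l
      have e1 : ((Cyc_O w i0).val.map
          fun i => rt (p ^ D - 1) ^ SS p D w⁻¹ (fun i => (c i : ℕ)) i) =
          orb p (Cyc_O w i0).card (rt (p ^ D - 1) ^ SS p D w⁻¹ (fun i => (c i : ℕ)) i0) := by
        conv_lhs => rw [h0]
        rw [Multiset.map_map, orb]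
        exact Multiset.map_congr rfl fun l _ => hfr l
      have hy0 : rt (p ^ D - 1) ^ SS p D w⁻¹ (fun i => (c i : ℕ)) i0 ≠ 0 :=
        pow_ne_zero _ (hz.ne_zero hN.ne')
      have e2 : (rt (p ^ D - 1) ^ SS p D w⁻¹ (fun i => (c i : ℕ)) i0) ^
          (p ^ (Cyc_O w i0).card - 1) = 1 := by
        have a1 := hfr (Cyc_O w i0).card
        rw [h1] at a1
        refine mul_right_cancel₀ hy0 ?_
        rw [one_mul, ← pow_succ, Nat.sub_add_cancel
          (Nat.one_le_pow _ _ (Fact.out : p.Prime).pos), ← a1]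
      rw [hval, Multiset.map_add, hα.add, e1, hα.cyc j hj _ h2 hdn _ e2, gs, mul_neg, neg_mul,
        mul_sum, sum_mul]
      congr 1
      refine sum_congr rfl fun k _ => ?_
      have e3 : ∑ i, (a i + k * if i = i0 then 1 else 0) * SS p D w⁻¹ (fun i => (c i : ℕ)) i =
          ∑ i, a i * SS p D w⁻¹ (fun i => (c i : ℕ)) i +
            SS p D w⁻¹ (fun i => (c i : ℕ)) i0 * k := by
        simp only [add_mul, sum_add_distrib]
        congr 1
        rw [sum_eq_single i0 (fun i _ hi => by simp [hi]) (fun h => absurd (mem_univ _) h)]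
        simp [mul_comm]
      rw [e3, pow_add, pow_mul]; ring
    rw [sum_congr rfl fun c _ => hterm c, sum_neg_distrib, sum_comm, hsign]
    simp only [← mul_sum]
    have hstep : ∀ k ∈ range (p ^ (Cyc_O w i0).card - 1),
        ((Equiv.Perm.sign (u * (w.cycleOf i0)⁻¹) : ℤ) : ℂ) *
        (Psi p D j (∑ l ∈ range (Cyc_O w i0).card, (gamd p D (Cyc_O w i0).card ^ k) ^ p ^ l) *
          ∑ c : ι → Fin (p ^ D - 1), α j ((s \ Cyc_O w i0).val.map
              fun i => rt (p ^ D - 1) ^ SS p D w⁻¹ (fun i => (c i : ℕ)) i) *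
            rt (p ^ D - 1) ^ (∑ i, (a i + k * if i = i0 then 1 else 0) *
              SS p D w⁻¹ (fun i => (c i : ℕ)) i)) =
        if k = k0 then (-1) ^ (s \ Cyc_O w i0).card * ((p ^ D - 1 : ℕ) : ℂ) ^ Fintype.card ι *
          ((if ∀ i, i ∉ s → (p ^ D - 1) ∣ SS p D w a i then 1 else 0) *
          Psi p D j (∑ i ∈ s,
            (((gam p D)⁻¹ : (GaloisField p D)ˣ) : GaloisField p D) ^ SS p D w a i)) else 0 := by
      intro k hk'
      have hoff : ∀ i, i ∉ Cyc_O w i0 →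
          SS p D w (fun x => a x + k * if x = i0 then 1 else 0) i = SS p D w a i := fun i hi => by
        rw [Cyc_SS_add, Cyc_SS_off w i0 hi, mul_zero, add_zero]
      rw [mul_left_comm, IH fun x => a x + k * if x = i0 then 1 else 0]
      by_cases hkk : k = k0
      · have hO := (hk k (mem_range.1 hk')).2 hkk
        have hiff : (∀ i, i ∉ s \ Cyc_O w i0 → (p ^ D - 1) ∣
            SS p D w (fun x => a x + k * if x = i0 then 1 else 0) i) ↔
            ∀ i, i ∉ s → (p ^ D - 1) ∣ SS p D w a i := by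
          constructor
          · intro h i hi
            rw [← hoff i fun h' => hi (hOs h')]
            exact h i fun h' => hi (mem_sdiff.1 h').1
          · intro h i hi
            by_cases hiO : i ∈ Cyc_O w i0
            · exact hO i hiO
            · rw [hoff i hiO]
              exact h i fun h' => hi (mem_sdiff.2 ⟨h', hiO⟩)
        have e4 : ∑ i ∈ s \ Cyc_O w i0,
            (((gam p D)⁻¹ : (GaloisField p D)ˣ) : GaloisField p D) ^
              SS p D w (fun x => a x + k * if x = i0 then 1 else 0) i =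
            ∑ i ∈ s \ Cyc_O w i0,
              (((gam p D)⁻¹ : (GaloisField p D)ˣ) : GaloisField p D) ^ SS p D w a i :=
          sum_congr rfl fun i hi => by rw [hoff i (mem_sdiff.1 hi).2]
        rw [if_pos hkk, ← sum_sdiff hOs, Psi_add, ← hsum, ← hkk, e4]
        by_cases hc : ∀ i, i ∉ s → (p ^ D - 1) ∣ SS p D w a i
        · rw [if_pos hc, if_pos (hiff.2 hc)]; ring
        · rw [if_neg hc, if_neg fun h => hc (hiff.1 h)]; ring
      · rw [if_neg hkk, if_neg, zero_mul, mul_zero, mul_zero]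
        intro h
        exact hkk ((hk k (mem_range.1 hk')).1 fun i hi => h i fun h' => (mem_sdiff.1 h').2 hi)
    have hcard : s.card = (s \ Cyc_O w i0).card + (Cyc_O w i0).card :=
      (card_sdiff_add_card_eq_card hOs).symm
    rw [mul_assoc, neg_mul_neg, mul_left_comm, mul_sum, sum_congr rfl hstep, sum_ite_eq',
      if_pos (mem_range.2 hk0), hcard, pow_add]
    ring

theorem cyc_formula {n : ℕ} (hD : Big n D) {α : ZMod p → Multiset ℂ → ℂ} (hα : IsAlpha p D n α)
    {j : ZMod p} (hj : j ≠ 0) (ι : Type) [Fintype ι] [DecidableEq ι] (hι : Fintype.card ι ≤ n)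
    (w : Equiv.Perm ι) (a : ι → ℕ) :
    ((Equiv.Perm.sign w : ℤ) : ℂ) * ∑ c : ι → Fin (p ^ D - 1),
        α j (univ.val.map fun i => rt (p ^ D - 1) ^ SS p D w⁻¹ (fun i => (c i : ℕ)) i) *
          rt (p ^ D - 1) ^ (∑ i, a i * SS p D w⁻¹ (fun i => (c i : ℕ)) i) =
      (-1) ^ Fintype.card ι * ((p ^ D - 1 : ℕ) : ℂ) ^ Fintype.card ι *
        Psi p D j (∑ i, (((gam p D)⁻¹ : (GaloisField p D)ˣ) : GaloisField p D) ^ SS p D w a i) := by
  have h := Cyc_main hD hα hj hι w univ (fun i => by simp) w (fun _ _ => rfl)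
    (fun i hi => absurd (mem_univ i) hi) a
  rw [h, if_pos fun i hi => absurd (mem_univ i) hi, one_mul, card_univ]

end Pool.Agent.KGV
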