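import Mathlib

/-! Shared definitions for the equality case of the class number bound for coprime linear groups. -/

namespace Pool.Agent.KGV

open Finset

noncomputable section

/-- The action of a group of linear automorphisms on the additive group of the space. -/
def act {R V : Type*} [CommRing R] [AddCommGroup V] [Module R V] (G : Subgroup (V ≃ₗ[R] V)) :
    G →* MulAut (Multiplicative V) where
  toFun g := AddEquiv.toMultiplicative (g : V ≃ₗ[R] V).toAddEquiv
  map_one' := rfl
  map_mul' _ _ := rfl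

/-- A character: the trace of a complex matrix representation. -/
def IsChar {T : Type*} [Group T] (f : T → ℂ) : Prop :=
  ∃ (m : ℕ) (ρ : T →* Matrix (Fin m) (Fin m) ℂ), ∀ g, f g = (ρ g).trace

/-- Virtual characters. -/
def VC (T : Type*) [Group T] : AddSubgroup (T → ℂ) := AddSubgroup.closure {f | IsChar f}

/-- A character table. -/
structure CT {T : Type*} [Group T] [Fintype T] {k : ℕ} (χ : Fin k → T → ℂ) : Prop where
  isChar : ∀ i, IsChar (χ i)
  card_eq : k = Nat.card (ConjClasses T)
  orth : ∀ i j, ∑ g, χ i g * χ j g⁻¹ = if i = j then (Fintype.card T : ℂ) else 0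
  decomp : ∀ f, IsChar f → ∃ m : Fin k → ℕ, ∀ g, f g = ∑ i, (m i : ℂ) * χ i g
  central : ∀ i (c : T → ℂ), (∀ g h, c (h * g * h⁻¹) = c g) →
    ∀ x, χ i 1 * ∑ g, c g * χ i (g * x) = (∑ g, c g * χ i g) * χ i x
  regular_one : ∑ i, χ i 1 * χ i 1 = (Fintype.card T : ℂ)
  regular : ∀ g, g ≠ 1 → ∑ i, χ i 1 * χ i g = 0

/-- The standard primitive `n`-th root of unity. -/
def rt (n : ℕ) : ℂ := Complex.exp (2 * Real.pi * Complex.I / n)

/-- Eigenvalues with multiplicity. -/
def eig {ι : Type*} [Fintype ι] [DecidableEq ι] (A : Matrix ι ι ℂ) : Multiset ℂ := A.charpoly.roots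

/-- A multiset is stable when raising to the power `p` permutes it. -/
def Stable (p : ℕ) (Y : Multiset ℂ) : Prop := Y.map (· ^ p) = Y

/-- The multiset `z, z^p, ..., z^(p^(d-1))`. -/
def orb (p d : ℕ) (z : ℂ) : Multiset ℂ := (Multiset.range d).map fun l => z ^ p ^ l

/-- Spectrum of a Singer cycle on a subspace, extended by ones. -/
def IsS (p d : ℕ) (Y : Multiset ℂ) : Prop :=
  0 < d ∧ ∃ r : ℕ, Y = orb p d (rt (p ^ d - 1)) + Multiset.replicate r 1

/-- Every positive integer up to `n` divides `D`, and `D` is positive. -/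
def Big (n D : ℕ) : Prop := 0 < D ∧ ∀ e, 0 < e → e ≤ n → e ∣ D

variable (p D : ℕ) [Fact p.Prime]

/-- A generator of the multiplicative group of the field with `p ^ D` elements. -/
def gam : (GaloisField p D)ˣ :=
  Classical.choose (IsCyclic.exists_generator (α := (GaloisField p D)ˣ))

theorem gam_gen (x : (GaloisField p D)ˣ) : x ∈ Subgroup.zpowers (gam p D) :=
  Classical.choose_spec (IsCyclic.exists_generator (α := (GaloisField p D)ˣ)) x

theorem orderOf_gam (hD : 0 < D) : orderOf (gam p D) = p ^ D - 1 := by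
  rw [orderOf_eq_card_of_forall_mem_zpowers (gam_gen p D), Nat.card_units,
    GaloisField.card p D hD.ne']

theorem exists_lam : ∃ l : GaloisField p D →ₗ[ZMod p] ZMod p, l 1 = 1 :=
  Module.Projective.exists_dual_eq_one (ZMod p) (one_ne_zero (α := GaloisField p D))

/-- A linear form with value one at one. -/
def lam : GaloisField p D →ₗ[ZMod p] ZMod p := Classical.choose (exists_lam p D)

theorem lam_one : lam p D 1 = 1 := Classical.choose_spec (exists_lam p D)

/-- The additive character attached to `j`. -/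
def Psi (j : ZMod p) (x : GaloisField p D) : ℂ := rt p ^ (j * lam p D x).val

/-- The generator of the subfield with `p ^ d` elements. -/
def gamd (d : ℕ) : GaloisField p D :=
  (gam p D : GaloisField p D) ^ ((p ^ D - 1) / (p ^ d - 1))

/-- The Gauss sum over the subfield with `p ^ d` elements for the character sending `gamd` to `z`. -/
def gs (d : ℕ) (j : ZMod p) (z : ℂ) : ℂ :=
  ∑ k ∈ range (p ^ d - 1), Psi p D j (∑ l ∈ range d, (gamd p D d ^ k) ^ p ^ l) * z ^ k

/-- The multiplicative function built from Gauss sums. -/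
structure IsAlpha (n : ℕ) (α : ZMod p → Multiset ℂ → ℂ) : Prop where
  zero : ∀ j, α j 0 = 1
  add : ∀ j Y Z, α j (Y + Z) = α j Y * α j Z
  cyc : ∀ j, j ≠ 0 → ∀ d, 0 < d → d ≤ n → ∀ z : ℂ, z ^ (p ^ d - 1) = 1 →
    α j (orb p d z) = - gs p D d j z

/-- Reduction of cyclotomic integers to `a + b π + c π ^ 2 / 2` with `π ^ 3 = 0`. -/
structure IsRed (Red : ℂ → GaloisField p D → GaloisField p D → GaloisField p D → Prop) : Prop where
  func : ∀ {x a b c a' b' c'}, Red x a b c → Red x a' b' c' → a = a' ∧ b = b' ∧ c = c'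
  add : ∀ {x y a b c a' b' c'}, Red x a b c → Red y a' b' c' →
    Red (x + y) (a + a') (b + b') (c + c')
  mul : ∀ {x y a b c a' b' c'}, Red x a b c → Red y a' b' c' →
    Red (x * y) (a * a') (a * b' + b * a') (a * c' + 2 * (b * b') + c * a')
  int : ∀ m : ℤ, Red (m : ℂ) (m : GaloisField p D) 0 0
  zeta : Red (rt (p ^ D - 1)) ((gam p D)⁻¹ : (GaloisField p D)ˣ) 0 0
  eps : Red (rt p) 1 1 1

/-- The operator `∑ p ^ (D-1-k) w ^ k` on exponent vectors. -/
def SS {ι : Type*} (w : Equiv.Perm ι) (a : ι → ℕ) (i : ι) : ℕ :=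
  ∑ k ∈ range D, p ^ (D - 1 - k) * a ((w ^ k) i)

/-- The monomial in the elementary symmetric polynomials with exponent vector `c`. -/
def ee {n : ℕ} (c : Fin n → ℕ) : MvPolynomial (Fin n) ℤ :=
  ∏ k : Fin n, MvPolynomial.esymm (Fin n) ℤ (k + 1) ^ c k

/-- The residue functional on integer polynomials. -/
def tauP {n : ℕ} (h : MvPolynomial (Fin n) ℤ) : ℤ :=
  ∑ w : Equiv.Perm (Fin n), (Equiv.Perm.sign w : ℤ) *
    ∑ a ∈ h.support, h.coeff a * if ∀ i, (p ^ D - 1) ∣ SS p D w a i then 1 else 0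

/-- The index set of the basis. -/
abbrev Idx (n : ℕ) : Type := {a : Fin (n + 1) → Fin p // (a (Fin.last n) : ℕ) + 1 < p}


/-- The combination of class functions attached to `j`. -/
def al {G : Type*} (a : ZMod p → G → ℂ) (j : ZMod p) (g : G) : ℂ :=
  ∑ i : ZMod p, rt p ^ (i * j).val * a i g

/-- The data of the equality case, for a group acting on a finite set. -/
structure Extr (G X : Type*) [Group G] [Fintype G] [Fintype X] [MulAction G X]
    (Red : ℂ → GaloisField p D → GaloisField p D → GaloisField p D → Prop)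
    (a : ZMod p → G → ℂ) (S : Finset G) (M : G → GaloisField p D) : Prop where
  five : 5 ≤ p
  pos : 0 < D
  red : IsRed p D Red
  cop : ¬ p ∣ Fintype.card G
  expo : ∀ g : G, g ^ (p ^ D - 1) = 1
  vc : ∀ i, a i ∈ VC G
  norm : ∀ j, j ≠ 0 → ∀ g : G, al p a j g * al p a (-j) g⁻¹ * (Nat.card {x : X // g • x = x} : ℂ) =
    (Fintype.card X : ℂ)
  red_one : Red (al p a 1 1) 1 0 (M 1)
  one_notMem : (1 : G) ∉ S
  red_mem : ∀ g ∈ S, Red (al p a 1 g) 0 1 (M g)
  red_notMem : ∀ g, g ≠ 1 → g ∉ S → Red (al p a 1 g) 0 0 (M g)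
  conj_mem : ∀ g ∈ S, ∀ h : G, h * g * h⁻¹ ∈ S
  conj_M : ∀ g h : G, M (h * g * h⁻¹) = M g
  extr : ∑ x : X, Nat.card (MulAction.stabilizer G x) *
    Nat.card (ConjClasses (MulAction.stabilizer G x)) = Fintype.card G * Fintype.card X

end

end Pool.Agent.KGV
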