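import Pool.Agent.P.MP_9e9a11_al.Main

namespace Pool.Agent.KGV

theorem cyclic_of_extremal (V : Type) [AddCommGroup V] [Module (ZMod 5) V]
    [Module.Finite (ZMod 5) V] (G : Subgroup (V ≃ₗ[ZMod 5] V)) (hp : ¬ 5 ∣ Nat.card G)
    (hirr : ∀ W : Submodule (ZMod 5) V, (∀ g ∈ G, ∀ v ∈ W, g v ∈ W) → W = ⊥ ∨ W = ⊤)
    (hk : Nat.card (ConjClasses (Multiplicative V ⋊[act G] G)) = Nat.card V) : IsCyclic G := by
  have : Fact (Nat.Prime 5) := ⟨by norm_num⟩
  have hc0 : Nat.card G ≠ 0 := fun h => hp (h ▸ dvd_zero 5)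
  have : Finite G := Nat.finite_of_card_ne_zero hc0
  rcases subsingleton_or_nontrivial V with hV | hV
  · have : Subsingleton G := ⟨fun g h => Subtype.ext (LinearEquiv.ext fun _ => Subsingleton.elim _ _)⟩
    exact isCyclic_of_subsingleton
  · obtain ⟨n, hn⟩ := Nat.exists_eq_succ_of_ne_zero (Module.finrank_pos (R := ZMod 5) (M := V)).ne'
    exact cyclic_of_comm G hirr
      (comm_of_extremal (Module.finBasisOfFinrankEq (ZMod 5) V hn) G hp hirr hk)

end Pool.Agent.KGV
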