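import Pool.Agent.P.MP_9e9a11_al.Defs
import Pool.Agent.P.MP_9e9a11_al.Spec

namespace Pool.Agent.KGV

open Finset Matrix

variable {n : ℕ} {G : Type*} [Group G] [Finite G]

theorem GeoA_cos {x y : ℝ} (h : |y - x| ≤ Real.pi / 3) :
    1 / 2 ≤ (star (Complex.exp (x * Complex.I)) * Complex.exp (y * Complex.I)).re := by
  rw [Complex.star_def, ← Complex.exp_conj, ← Complex.exp_add]
  have : (starRingEnd ℂ) (x * Complex.I) + y * Complex.I = ((y - x : ℝ) : ℂ) * Complex.I := by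
    simp; ring
  rw [this, Complex.exp_ofReal_mul_I_re, ← Real.cos_abs, ← Real.cos_pi_div_three]
  exact Real.cos_le_cos_of_nonneg_of_le_pi (abs_nonneg _) (by linarith [Real.pi_pos]) h

theorem GeoA_rt (N k : ℕ) :
    rt N ^ k = Complex.exp (((2 * Real.pi * k / N : ℝ) : ℂ) * Complex.I) := by
  rw [rt, ← Complex.exp_nat_mul]; congr 1; push_cast; ring

theorem GeoA_close {N k k0 : ℕ} (hN : 0 < N) (h1 : 6 * k ≤ 6 * k0 + N) (h2 : 6 * k0 ≤ 6 * k + N) :
    1 / 2 ≤ (star (rt N ^ k0) * rt N ^ k).re := by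
  rw [GeoA_rt, GeoA_rt]
  apply GeoA_cos
  have hN' : (0 : ℝ) < N := by exact_mod_cast hN
  have h1' : (6 : ℝ) * k ≤ 6 * k0 + N := by exact_mod_cast h1
  have h2' : (6 : ℝ) * k0 ≤ 6 * k + N := by exact_mod_cast h2
  have hp := Real.pi_pos
  rw [← sub_div, abs_le, le_div_iff₀ hN', div_le_iff₀ hN']
  constructor <;> nlinarith

theorem GeoA_arc {N k : ℕ} (hN : 0 < N) (h1 : 4 * k ≤ N) :
    1 / 2 ≤ (star (Complex.exp ((Real.pi / 4 : ℝ) * Complex.I)) * rt N ^ k).re := by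
  rw [GeoA_rt]
  apply GeoA_cos
  have hN' : (0 : ℝ) < N := by exact_mod_cast hN
  have h1' : (4 : ℝ) * k ≤ N := by exact_mod_cast h1
  have hk : (0 : ℝ) ≤ k := Nat.cast_nonneg k
  have hp := Real.pi_pos
  have h2 : 0 ≤ 2 * Real.pi * k / N := by positivity
  have h3 : 2 * Real.pi * k / N ≤ Real.pi / 2 := by rw [div_le_iff₀ hN']; nlinarith
  rw [abs_le]
  constructor <;> linarith

theorem GeoA_col {ι : Type*} [Fintype ι] [DecidableEq ι] {V : Matrix ι ι ℂ} (h : Vᴴ * V = 1)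
    (j : ι) : ∑ i, ‖V i j‖ ^ 2 = 1 := by
  have h1 := congrFun (congrFun h j) j
  rw [Matrix.mul_apply, Matrix.one_apply_eq] at h1
  simp only [conjTranspose_apply, Complex.star_def, Complex.conj_mul'] at h1
  exact_mod_cast h1

theorem GeoA_entry {ι : Type*} [Fintype ι] [DecidableEq ι] (V : Matrix ι ι ℂ) (D : ι → ℂ)
    (j : ι) (w : ℂ) :
    (w * (Vᴴ * diagonal D * V) j j).re = ∑ i, ‖V i j‖ ^ 2 * (w * D i).re := by
  rw [Matrix.mul_apply, Finset.mul_sum, Complex.re_sum]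
  refine Finset.sum_congr rfl fun i _ => ?_
  rw [mul_diagonal, conjTranspose_apply, ← Complex.re_ofReal_mul]
  congr 1
  push_cast
  rw [← Complex.conj_mul', Complex.star_def]
  ring

theorem GeoA_off {ι : Type*} [Fintype ι] [DecidableEq ι] {V : Matrix ι ι ℂ} (h : Vᴴ * V = 1)
    {i j : ι} (h1 : 1 ≤ ‖V j j‖) (hij : i ≠ j) : V i j = 0 := by
  have h2 := GeoA_col h j
  rw [← Finset.add_sum_erase _ _ (Finset.mem_univ j)] at h2
  have h3 : ‖V i j‖ ^ 2 ≤ ∑ i ∈ univ.erase j, ‖V i j‖ ^ 2 :=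
    Finset.single_le_sum (f := fun i => ‖V i j‖ ^ 2) (fun _ _ => sq_nonneg _)
      (Finset.mem_erase.2 ⟨hij, Finset.mem_univ _⟩)
  have h4 : ‖V i j‖ ^ 2 ≤ 0 := by nlinarith
  exact norm_eq_zero.1 (pow_eq_zero_iff two_ne_zero |>.1 (le_antisymm h4 (sq_nonneg _)))

theorem GeoA_blich {ι : Type*} [Fintype ι] [DecidableEq ι] (σ : G →* Matrix ι ι ℂ)
    (hu : ∀ g, (σ g)ᴴ = σ g⁻¹) {a : G} {D : ι → ℂ} (ha : σ a = diagonal D) (j : ι)
    (hs : ∀ i, D i = D j → i = j) (hD : ∀ i, 1 / 2 ≤ (star (D j) * D i).re) (g : G) :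
    σ g j j = 0 ∨ 1 ≤ ‖σ g j j‖ := by
  have hU : ∀ g, (σ g)ᴴ * σ g = 1 := fun g => by rw [hu, ← map_mul, inv_mul_cancel, map_one]
  have hn : ∀ i, ‖D i‖ = 1 := fun i => by
    have h1 := GeoA_col (hU a) i
    rw [ha, Finset.sum_eq_single i (fun k _ hk => by rw [diagonal_apply_ne _ hk]; simp)
      (fun h => absurd (Finset.mem_univ _) h), diagonal_apply_eq] at h1
    exact (pow_eq_one_iff_of_nonneg (norm_nonneg _) two_ne_zero).1 h1
  by_contra hcon
  rw [not_or, not_le] at hcon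
  obtain ⟨m, hm, hmax⟩ := Set.exists_max_image {g : G | ‖σ g j j‖ < 1} (fun g => ‖σ g j j‖)
    (Set.toFinite _) ⟨g, hcon.2⟩
  have hm1 : ‖σ m j j‖ < 1 := hm
  have hm0 : 0 < ‖σ m j j‖ := lt_of_lt_of_le (norm_pos_iff.2 hcon.1) (hmax g hcon.2)
  have hh : σ (m⁻¹ * a * m) = (σ m)ᴴ * diagonal D * σ m := by rw [map_mul, map_mul, hu, ha]
  have hcol := GeoA_col (hU m) j
  set μ := σ (m⁻¹ * a * m) j j with hμ
  have hE : ∀ w, (w * μ).re = ∑ i, ‖σ m i j‖ ^ 2 * (w * D i).re := fun w => by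
    rw [hμ, hh, GeoA_entry]
  have hjj : (star (D j) * D j).re = 1 := by
    rw [Complex.star_def, Complex.conj_mul', hn]; simp
  have h1 : (1 + ‖σ m j j‖ ^ 2) / 2 ≤ ‖μ‖ := by
    have h2 : (star (D j) * μ).re ≤ ‖μ‖ := by
      refine (Complex.re_le_norm _).trans ?_
      rw [norm_mul, norm_star, hn, one_mul]
    rw [hE, ← Finset.add_sum_erase _ _ (Finset.mem_univ j), hjj] at h2
    rw [← Finset.add_sum_erase _ _ (Finset.mem_univ j)] at hcol
    have h3 : ∑ i ∈ univ.erase j, ‖σ m i j‖ ^ 2 * (1 / 2) ≤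
        ∑ i ∈ univ.erase j, ‖σ m i j‖ ^ 2 * (star (D j) * D i).re :=
      Finset.sum_le_sum fun i _ => mul_le_mul_of_nonneg_left (hD i) (sq_nonneg _)
    rw [← Finset.sum_mul] at h3
    linarith
  have h2 : 1 ≤ ‖μ‖ := by
    by_contra h
    have := hmax (m⁻¹ * a * m) (not_le.1 h)
    change ‖μ‖ ≤ _ at this
    nlinarith
  have h3 : ∑ i, ‖σ m i j‖ ^ 2 * ‖D i - μ‖ ^ 2 = 1 - ‖μ‖ ^ 2 := by
    have h4 : ∀ i, ‖D i - μ‖ ^ 2 = 1 + ‖μ‖ ^ 2 - 2 * (star μ * D i).re := fun i => by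
      rw [← Complex.normSq_eq_norm_sq, Complex.normSq_sub, Complex.normSq_eq_norm_sq,
        Complex.normSq_eq_norm_sq, hn, Complex.star_def, mul_comm (D i)]
      ring
    have h5 : (star μ * μ).re = ‖μ‖ ^ 2 := by
      rw [Complex.star_def, Complex.conj_mul']; norm_cast
    simp only [h4, mul_sub, Finset.sum_sub_distrib, mul_left_comm _ (2 : ℝ), ← Finset.mul_sum,
      ← Finset.sum_mul, ← hE, hcol, h5]
    ring
  have h4 : ∀ i, σ m i j = 0 ∨ D i = μ := fun i => by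
    have h5 : ‖σ m i j‖ ^ 2 * ‖D i - μ‖ ^ 2 ≤ ∑ i, ‖σ m i j‖ ^ 2 * ‖D i - μ‖ ^ 2 :=
      Finset.single_le_sum (f := fun i => ‖σ m i j‖ ^ 2 * ‖D i - μ‖ ^ 2)
        (fun _ _ => by positivity) (Finset.mem_univ i)
    have h6 : ‖σ m i j‖ ^ 2 * ‖D i - μ‖ ^ 2 = 0 := le_antisymm (by nlinarith) (by positivity)
    simpa [sub_eq_zero] using h6
  have h5 : D j = μ := (h4 j).resolve_left (norm_pos_iff.1 hm0)
  rw [Finset.sum_eq_single j (fun i _ hi => by
    rw [(h4 i).resolve_right (fun h => hi (hs i (h.trans h5.symm)))]; simp)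
    (fun h => absurd (Finset.mem_univ _) h)] at hcol
  nlinarith

theorem GeoA_nodup {p d : ℕ} (hp : 3 ≤ p) : (orb p d (rt (p ^ d - 1))).Nodup := by
  have hlt : ∀ l, l < d → p ^ l < p ^ d - 1 := fun l hl => by
    have h1 : p ^ (l + 1) ≤ p ^ d := Nat.pow_le_pow_right (by omega) hl
    have h2 : 0 < p ^ l := by positivity
    have h3 : p ^ l * 3 ≤ p ^ l * p := Nat.mul_le_mul_left _ hp
    rw [pow_succ] at h1
    omega
  refine Multiset.Nodup.map_on (fun l hl m hm h => ?_) (Multiset.nodup_range d)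
  rw [Multiset.mem_range] at hl hm
  have hN : p ^ d - 1 ≠ 0 := by have := hlt l hl; omega
  exact Nat.pow_right_injective (by omega : 2 ≤ p)
    ((Complex.isPrimitiveRoot_exp _ hN).pow_inj (hlt l hl) (hlt m hm) h)

theorem GeoA_mem {d : ℕ} {Y : Multiset ℂ} (h : IsS 5 d Y) {y : ℂ} (hy : y ∈ Y) :
    y = 1 ∨ ∃ l, l < d ∧ y = rt (5 ^ d - 1) ^ 5 ^ l := by
  obtain ⟨-, r, rfl⟩ := h
  rcases Multiset.mem_add.1 hy with h | h
  · obtain ⟨l, hl, rfl⟩ := Multiset.mem_map.1 h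
    exact Or.inr ⟨l, Multiset.mem_range.1 hl, rfl⟩
  · exact Or.inl (Multiset.eq_of_mem_replicate h)

theorem GeoA_per {d : ℕ} (hd : 0 < d) (l : ℕ) :
    rt (5 ^ d - 1) ^ 5 ^ l = rt (5 ^ d - 1) ^ 5 ^ (l % d) := by
  have h0 : 1 < 5 ^ d := Nat.one_lt_pow hd.ne' (by norm_num)
  have h1 : rt (5 ^ d - 1) ^ 5 ^ d = rt (5 ^ d - 1) := by
    have h2 : rt (5 ^ d - 1) ^ (5 ^ d - 1) = 1 :=
      (Complex.isPrimitiveRoot_exp _ (by omega)).pow_eq_one
    conv_lhs => rw [show 5 ^ d = 5 ^ d - 1 + 1 by omega, Nat.add_sub_cancel, pow_succ, h2, one_mul]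
  have h2 : ∀ q, rt (5 ^ d - 1) ^ 5 ^ (d * q) = rt (5 ^ d - 1) := fun q => by
    induction q with
    | zero => simp
    | succ q ih => rw [mul_add, mul_one, pow_add, pow_mul, ih, h1]
  rw [← congrArg (fun t => rt (5 ^ d - 1) ^ 5 ^ t) (Nat.div_add_mod l d), pow_add, pow_mul, h2]

theorem GeoA_main {ι : Type*} [Fintype ι] [DecidableEq ι] (σ : G →* Matrix ι ι ℂ)
    (hu : ∀ g, (σ g)ᴴ = σ g⁻¹) {a : G} {D : ι → ℂ} (ha : σ a = diagonal D) {d : ℕ} (hd : 2 ≤ d)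
    (hS : IsS 5 d (univ.val.map D)) (j : ι) (hj : D j ≠ 1) (g : G) :
    σ g j j = 0 ∨ 1 ≤ ‖σ g j j‖ := by
  have hmem : ∀ i, D i = 1 ∨ ∃ l, l < d ∧ D i = rt (5 ^ d - 1) ^ 5 ^ l := fun i =>
    GeoA_mem hS (Multiset.mem_map_of_mem _ (Finset.mem_univ i))
  obtain ⟨l, hl, hjl⟩ := (hmem j).resolve_left hj
  obtain ⟨c, rfl⟩ : ∃ c, d = c + 2 := ⟨d - 2, by omega⟩
  obtain ⟨r, hr⟩ : ∃ r, l + r = c + 2 + c := ⟨c + 2 + c - l, by omega⟩
  have hper := GeoA_per (d := c + 2) (by omega)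
  have hfix : ∀ i, (D i ^ 5 ^ r) ^ 5 ^ (l + 2) = D i := fun i => by
    rcases hmem i with h | ⟨m, hm, h⟩
    · simp [h]
    · rw [h, ← pow_mul, ← pow_mul, ← pow_add, ← pow_add, hper,
        show m + (r + (l + 2)) = m + (c + 2) * 2 by omega, Nat.add_mul_mod_self_left,
        Nat.mod_eq_of_lt hm]
  have hjr : D j ^ 5 ^ r = rt (5 ^ (c + 2) - 1) ^ 5 ^ c := by
    rw [hjl, ← pow_mul, ← pow_add, hr, hper, Nat.add_mod_left, Nat.mod_eq_of_lt (by omega)]
  have h5 : 0 < 5 ^ c := by positivity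
  have h25 : 5 ^ (c + 2) = 25 * 5 ^ c := by ring
  refine GeoA_blich σ hu (a := a ^ 5 ^ r) (D := fun i => D i ^ 5 ^ r)
    (by rw [map_pow, ha, diagonal_pow]; rfl) j (fun i hi => ?_) (fun i => ?_) g
  · have h1 : D i = D j := by rw [← hfix i, ← hfix j]; exact congrArg (· ^ 5 ^ (l + 2)) hi
    obtain ⟨-, s, hs⟩ := hS
    have h2 : Multiset.count (D j) (univ.val.map D) ≤ 1 := by
      rw [hs, Multiset.count_add, Multiset.count_replicate, if_neg hj.symm, add_zero]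
      exact Multiset.nodup_iff_count_le_one.1 (GeoA_nodup (by norm_num)) _
    rw [Multiset.count_map] at h2
    have h3 : (univ.filter fun i => D j = D i).card ≤ 1 := h2
    exact Finset.card_le_one.1 h3 i (by simp [h1]) j (by simp)
  · rw [hjr]
    rcases hmem i with h | ⟨m, hm, h⟩
    · rw [h, one_pow, ← pow_zero (rt (5 ^ (c + 2) - 1))]
      exact GeoA_close (by omega) (by omega) (by omega)
    · rw [h, ← pow_mul, ← pow_add, hper (m + r)]
      have h1 : 5 ^ ((m + r) % (c + 2)) ≤ 5 ^ (c + 1) :=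
        Nat.pow_le_pow_right (by norm_num) (Nat.le_of_lt_succ (Nat.mod_lt _ (by omega)))
      rw [pow_succ] at h1
      exact GeoA_close (by omega) (by omega) (by omega)

theorem geoA (ρ : G →* Matrix (Fin n) (Fin n) ℂ) (hu : ∀ g, (ρ g)ᴴ = ρ g⁻¹) {a b : G} {d e : ℕ}
    (hd : 2 ≤ d) (ha : IsS 5 d (eig (ρ a))) (hb : IsS 5 e (eig (ρ b))) :
    ρ a * ρ b = ρ b * ρ a := by
  have hU : ∀ g, (ρ g)ᴴ * ρ g = 1 := fun g => by rw [hu, ← map_mul, inv_mul_cancel, map_one]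
  have hN : ∀ g, ρ g ^ orderOf g = 1 := fun g => by rw [← map_pow, pow_orderOf_eq_one, map_one]
  obtain ⟨U, D, hU1, hU2, hA, hD⟩ := exists_udiag (ρ a) (hU a) (orderOf_pos a) (hN a)
  obtain ⟨W, E, hW1, hW2, hB, hE⟩ := exists_udiag (ρ b) (hU b) (orderOf_pos b) (hN b)
  let σ : G →* Matrix (Fin n) (Fin n) ℂ :=
    { toFun := fun g => Uᴴ * ρ g * U
      map_one' := by rw [map_one, mul_one, hU1]
      map_mul' := fun g h => by
        rw [map_mul, mul_assoc (Uᴴ * ρ g), ← mul_assoc U, ← mul_assoc U, hU2, one_mul]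
        simp only [mul_assoc] }
  have hσ : ∀ g, σ g = Uᴴ * ρ g * U := fun _ => rfl
  have hσu : ∀ g, (σ g)ᴴ = σ g⁻¹ := fun g => by
    rw [hσ, hσ, conjTranspose_mul, conjTranspose_mul, conjTranspose_conjTranspose, hu, mul_assoc]
  have hσU : ∀ g, (σ g)ᴴ * σ g = 1 := fun g => by rw [hσu, ← map_mul, inv_mul_cancel, map_one]
  have hσa : σ a = diagonal D := by
    rw [hσ, hA, ← mul_assoc, ← mul_assoc, hU1, one_mul, mul_assoc, hU1, mul_one]
  have hb0 : ∀ j, σ b j j ≠ 0 := fun j h0 => by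
    have h1 : σ b = (Wᴴ * U)ᴴ * diagonal E * (Wᴴ * U) := by
      rw [hσ, hB, conjTranspose_mul, conjTranspose_conjTranspose]
      simp only [mul_assoc]
    have h2 : (Wᴴ * U)ᴴ * (Wᴴ * U) = 1 := by
      rw [conjTranspose_mul, conjTranspose_conjTranspose, mul_assoc, ← mul_assoc W, hW2, one_mul,
        hU1]
    have h3 := GeoA_entry (Wᴴ * U) E j (star (Complex.exp ((Real.pi / 4 : ℝ) * Complex.I)))
    rw [← h1, h0, mul_zero, Complex.zero_re] at h3
    have h4 : ∑ i, ‖(Wᴴ * U) i j‖ ^ 2 * (1 / 2) ≤ ∑ i, ‖(Wᴴ * U) i j‖ ^ 2 *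
        (star (Complex.exp ((Real.pi / 4 : ℝ) * Complex.I)) * E i).re := by
      refine Finset.sum_le_sum fun i _ => mul_le_mul_of_nonneg_left ?_ (sq_nonneg _)
      obtain ⟨c, rfl⟩ : ∃ c, e = c + 1 := ⟨e - 1, by have := hb.1; omega⟩
      have h5 : 0 < 5 ^ c := by positivity
      have h6 : 5 ^ (c + 1) = 5 * 5 ^ c := by ring
      rcases GeoA_mem hb (hE ▸ Multiset.mem_map_of_mem E (Finset.mem_univ i)) with h | ⟨m, hm, h⟩
      · rw [h, ← pow_zero (rt 1)]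
        exact GeoA_arc one_pos (by norm_num)
      · have h7 : 5 ^ m ≤ 5 ^ c := Nat.pow_le_pow_right (by norm_num) (by omega)
        rw [h]
        exact GeoA_arc (by omega) (by omega)
    rw [← Finset.sum_mul, GeoA_col h2, ← h3] at h4
    norm_num at h4
  have hone : ∀ j, D j ≠ 1 → 1 ≤ ‖σ b j j‖ := fun j hj =>
    (GeoA_main σ hσu hσa hd (hD ▸ ha) j hj b).resolve_left (hb0 j)
  have hc : σ a * σ b = σ b * σ a := by
    ext i j
    rw [hσa, diagonal_mul, mul_diagonal]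
    by_cases hij : D i = D j
    · rw [hij, mul_comm]
    have hne : i ≠ j := fun h => hij (h ▸ rfl)
    suffices h : σ b i j = 0 by rw [h, mul_zero, zero_mul]
    by_cases hj : D j = 1
    · have h1 : 1 ≤ ‖σ b⁻¹ i i‖ := by
        rw [← hσu, conjTranspose_apply, norm_star]
        exact hone i (fun h => hij (h.trans hj.symm))
      have h2 := GeoA_off (hσU b⁻¹) h1 hne.symm
      rwa [← hσu, conjTranspose_apply, star_eq_zero] at h2
    · exact GeoA_off (hσU b) (hone j hj) hne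
  have hρ : ∀ g, ρ g = U * σ g * Uᴴ := fun g => by
    rw [hσ, ← mul_assoc, ← mul_assoc, hU2, one_mul, mul_assoc, hU2, mul_one]
  rw [← map_mul, ← map_mul, hρ (a * b), hρ (b * a), map_mul, map_mul, hc]

theorem comm_of_nodup {ι : Type*} [Fintype ι] [DecidableEq ι] (ρ : G →* Matrix ι ι ℂ) {a : G}
    (ha : (eig (ρ a)).Nodup) (hc : ∀ g, ρ a * ρ g = ρ g * ρ a) (g h : G) :
    ρ g * ρ h = ρ h * ρ g := by
  obtain ⟨P, D, hA, hD⟩ := exists_diag ρ a
  rw [hD] at ha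
  have hinj : Function.Injective D := fun i j h =>
    Multiset.inj_on_of_nodup_map ha i (Finset.mem_univ i) j (Finset.mem_univ j) h
  have hX : ∀ g, ∃ x : ι → ℂ, ρ g = P.val * diagonal x * P⁻¹.val := fun g => by
    have h1 : diagonal D * (P⁻¹.val * ρ g * P.val) = (P⁻¹.val * ρ g * P.val) * diagonal D := by
      have h2 := congrArg (fun X => P⁻¹.val * X * P.val) (hc g)
      simpa [hA, mul_assoc] using h2
    refine ⟨fun i => (P⁻¹.val * ρ g * P.val) i i, ?_⟩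
    have h3 : diagonal (fun i => (P⁻¹.val * ρ g * P.val) i i) = P⁻¹.val * ρ g * P.val := by
      ext i j
      by_cases hij : i = j
      · rw [hij, diagonal_apply_eq]
      · have h4 := congrFun (congrFun h1 i) j
        rw [diagonal_mul, mul_diagonal, mul_comm (D i)] at h4
        rw [diagonal_apply_ne _ hij]
        by_contra h5
        exact hij (hinj (mul_left_cancel₀ (Ne.symm h5) h4))
    rw [h3]
    simp [mul_assoc]
  obtain ⟨x, hx⟩ := hX g
  obtain ⟨y, hy⟩ := hX h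
  have hxy : diagonal x * diagonal y = diagonal y * diagonal x := by
    rw [diagonal_mul_diagonal, diagonal_mul_diagonal]
    simp only [mul_comm]
  rw [hx, hy]
  simp only [mul_assoc, Units.inv_mul_cancel_left]
  rw [← mul_assoc (diagonal x), hxy, mul_assoc]

theorem orb_nodup {p d : ℕ} (hp : 3 ≤ p) : (orb p d (rt (p ^ d - 1))).Nodup :=
  GeoA_nodup hp

end Pool.Agent.KGV
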