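import Pool.Agent.P.MP_9e9a11_al.Defs
import Pool.Agent.P.MP_9e9a11_al.Spec

namespace Pool.Agent.KGV

open Finset Matrix

namespace GeoB

open Complex
open scoped ComplexOrder

variable {ι : Type*} [Fintype ι] [DecidableEq ι]

/-- A Hermitian projection of rank one. -/
structure Pj (P : Matrix ι ι ℂ) : Prop where
  herm : Pᴴ = P
  tr : P.trace = 1
  sand : ∀ X, P * X * P = (P * X).trace • P

theorem Pj.idem {P : Matrix ι ι ℂ} (h : Pj P) : P * P = P := by
  simpa [h.tr] using h.sand 1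

theorem rt_four : rt 4 = I := by
  rw [rt, show (2 * Real.pi * I / (4 : ℕ) : ℂ) = Real.pi / 2 * I by push_cast; ring,
    exp_mul_I]
  simp

theorem rt_twelve : rt 12 = (Real.sqrt 3 / 2 : ℝ) + (1 / 2 : ℝ) * I := by
  rw [rt, show (2 * Real.pi * I / (12 : ℕ) : ℂ) = (Real.pi / 6 : ℝ) * I by push_cast; ring,
    exp_mul_I, ← ofReal_cos, ← ofReal_sin, Real.cos_pi_div_six, Real.sin_pi_div_six]

theorem exists_pj {A : Matrix ι ι ℂ} (hU : Aᴴ * A = 1) {N : ℕ} (hN : 0 < N) (hA : A ^ N = 1)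
    (h : IsS 5 1 (eig A)) : ∃ P, Pj P ∧ A = 1 + (I - 1) • P := by
  obtain ⟨U, d, h1, h2, h3, h4⟩ := exists_udiag A hU hN hA
  obtain ⟨-, r, hr⟩ := h
  have hI : I ≠ 1 := fun h => by simpa using congrArg im h
  have h5 : univ.val.map d = I ::ₘ Multiset.replicate r 1 := by
    rw [← h4, hr]
    simp [orb, rt_four]
  obtain ⟨i, -, hi, h6⟩ := (Multiset.map_eq_cons _ _ _ _).2 h5
  have h7 : ∀ j, j ≠ i → d j = 1 := fun j hj =>
    Multiset.eq_of_mem_replicate (h6 ▸ Multiset.mem_map_of_mem d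
      ((Multiset.mem_erase_of_ne hj).2 (mem_univ_val j)))
  have h8 : diagonal d = 1 + (I - 1) • single i i (1 : ℂ) := by
    ext j k
    by_cases hjk : j = k
    · subst hjk
      by_cases hj : j = i
      · subst hj
        simp [hi]
      · simp [h7 j hj, Ne.symm hj]
    · have : ¬ (i = j ∧ i = k) := fun h => hjk (h.1.symm.trans h.2)
      simp [hjk, this]
  refine ⟨U * single i i (1 : ℂ) * Uᴴ, ⟨by simp [mul_assoc], ?_, fun X => ?_⟩, ?_⟩
  · rw [trace_mul_cycle, h1]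
    simp
  · have h9 : (U * single i i (1 : ℂ) * Uᴴ * X).trace = (Uᴴ * X * U) i i := by
      rw [mul_assoc, mul_assoc, trace_mul_comm, mul_assoc, trace_single_mul]
      simp
    have h10 := single_mul_mul_single i i i i (1 : ℂ) (Uᴴ * X * U) (1 : ℂ)
    rw [one_mul] at h10
    rw [h9, ← smul_mul_assoc, ← mul_smul_comm, smul_single, smul_eq_mul, ← h10]
    simp only [mul_assoc]
  · rw [h3, h8, mul_add, add_mul, mul_one, h2, mul_smul_comm, smul_mul_assoc]

omit [DecidableEq ι] in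
theorem tr_eq {A B : Matrix ι ι ℂ} (hA : Aᴴ = A) (hA' : A * A = A) (hB : Bᴴ = B)
    (hB' : B * B = B) : (A * B).trace = ((B * A)ᴴ * (B * A)).trace := by
  rw [conjTranspose_mul, hA, hB, mul_assoc, ← mul_assoc B, hB', ← mul_assoc, trace_mul_cycle, hA']

omit [DecidableEq ι] in
theorem tr_nonneg {A B : Matrix ι ι ℂ} (hA : Aᴴ = A) (hA' : A * A = A) (hB : Bᴴ = B)
    (hB' : B * B = B) : ∃ t : ℝ, 0 ≤ t ∧ (A * B).trace = t ∧ (t = 0 → B * A = 0 ∧ A * B = 0) := by
  have h := (posSemidef_conjTranspose_mul_self (B * A)).trace_nonneg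
  have e := tr_eq hA hA' hB hB'
  rw [← e] at h
  obtain ⟨h1, h2⟩ := nonneg_iff.1 h
  refine ⟨_, h1, Complex.ext rfl h2.symm, fun h0 => ?_⟩
  have h3 : B * A = 0 :=
    trace_conjTranspose_mul_self_eq_zero_iff.1 (e ▸ Complex.ext h0 h2.symm)
  refine ⟨h3, ?_⟩
  simpa [hA, hB] using congrArg conjTranspose h3

theorem three {Y : Multiset ℂ} {x y z : ℂ} (h : ∀ w ∈ Y, w = x ∨ w = y ∨ w = z) :
    ∃ a b c, Y = Multiset.replicate a x + Multiset.replicate b y + Multiset.replicate c z := by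
  induction Y using Multiset.induction_on with
  | empty => exact ⟨0, 0, 0, rfl⟩
  | cons w Y ih =>
    obtain ⟨a, b, c, rfl⟩ := ih fun v hv => h v (Multiset.mem_cons_of_mem hv)
    rcases h w (Multiset.mem_cons_self _ _) with rfl | rfl | rfl
    · exact ⟨a + 1, b, c, by simp [Multiset.replicate_succ]⟩
    · exact ⟨a, b + 1, c, by simp [Multiset.replicate_succ]⟩
    · exact ⟨a, b, c + 1, by simp [Multiset.replicate_succ]⟩

variable {P Q : Matrix ι ι ℂ}

theorem cubic (hP : Pj P) (hQ : Pj Q) (c : ℂ) {t : ℂ} (ht : (P * Q).trace = t) {N : Matrix ι ι ℂ}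
    (hN : N = (1 + c • P) * (1 + c • Q) - 1) :
    N * N * N - (2 * c + c ^ 2 * t) • (N * N) + (c ^ 2 * (1 - t)) • N = 0 := by
  have p1 := hP.idem
  have q1 := hQ.idem
  have p2 : ∀ X, P * (P * X) = P * X := fun X => by rw [← mul_assoc, p1]
  have p3 : P * (Q * P) = t • P := by rw [← mul_assoc, hP.sand, ht]
  have q3 : Q * (P * Q) = t • Q := by rw [← mul_assoc, hQ.sand, trace_mul_comm, ht]
  have e : N = c • P + c • Q + (c * c) • (P * Q) := by
    rw [hN]
    simp only [mul_add, add_mul, mul_one, one_mul, smul_mul_assoc, mul_smul_comm]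
    module
  rw [e]
  simp only [mul_add, add_mul, smul_mul_assoc, mul_smul_comm, mul_assoc, p1, q1, p2, p3, q3]
  module

theorem tr_prod (hP : Pj P) (hQ : Pj Q) (c : ℂ) :
    ((1 + c • P) * (1 + c • Q)).trace = Fintype.card ι + 2 * c + c ^ 2 * (P * Q).trace := by
  simp only [mul_add, add_mul, mul_one, one_mul, smul_mul_assoc, mul_smul_comm, trace_add,
    trace_smul, trace_one, hP.tr, hQ.tr, smul_eq_mul]
  ring

theorem spec (hP : Pj P) (hQ : Pj Q) {s w : ℝ} (ht : (P * Q).trace = 1 - s) (hs : 0 < s)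
    (hw : 0 < w) (h1 : w ^ 2 + s ^ 2 = 1) {B : (Matrix ι ι ℂ)ˣ} {d : ι → ℂ}
    (h : (1 + (I - 1) • P) * (1 + (I - 1) • Q) = B.val * diagonal d * B⁻¹.val) :
    ∃ r, univ.val.map d = {w + s * I, -w + s * I} + Multiset.replicate r 1 := by
  obtain ⟨N, hN⟩ : ∃ N, N = (1 + (I - 1) • P) * (1 + (I - 1) • Q) - 1 := ⟨_, rfl⟩
  have h2 := cubic hP hQ _ ht hN
  have h3 : diagonal (fun i => d i - 1) = B⁻¹.val * N * B.val := by
    rw [hN, h, ← diagonal_sub, diagonal_one]
    simp [mul_sub, sub_mul, mul_assoc]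
  have h1' : (w : ℂ) ^ 2 + s ^ 2 = 1 := by exact_mod_cast h1
  have h4 : ∀ i, d i = w + s * I ∨ d i = -w + s * I ∨ d i = 1 := fun i => by
    have h5 := congrArg (fun X => B⁻¹.val * X * B.val) h2
    have h6 : B⁻¹.val * (N * N * N) * B.val = B⁻¹.val * N * B.val * (B⁻¹.val * N * B.val) *
        (B⁻¹.val * N * B.val) := by simp only [mul_assoc, Units.mul_inv_cancel_left]
    have h7 : B⁻¹.val * (N * N) * B.val = B⁻¹.val * N * B.val * (B⁻¹.val * N * B.val) := by
      simp only [mul_assoc, Units.mul_inv_cancel_left]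
    simp only [mul_add, add_mul, mul_sub, sub_mul, mul_smul_comm, smul_mul_assoc, h6, h7, ← h3,
      diagonal_mul_diagonal] at h5
    have h8 := congrFun (congrFun h5 i) i
    simp only [Matrix.add_apply, Matrix.sub_apply, Matrix.smul_apply, diagonal_apply_eq,
      smul_eq_mul, mul_zero, zero_mul, Matrix.zero_apply] at h8
    have h9 : (d i - (w + s * I)) * ((d i - (-w + s * I)) * (d i - 1)) = 0 := by
      linear_combination h8 - (d i - 1) * h1' +
        ((d i - 1) * (s ^ 2 - s) + (d i - 1) ^ 2 * (1 - s)) * I_sq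
    simpa only [mul_eq_zero, sub_eq_zero] using h9
  obtain ⟨a, b, r, e⟩ := three (Y := univ.val.map d) fun v hv => by
    obtain ⟨i, -, rfl⟩ := Multiset.mem_map.1 hv
    exact h4 i
  have h5 : (Fintype.card ι : ℂ) = a + b + r := by
    have := congrArg Multiset.card e
    simp only [Multiset.card_map, card_val, card_univ, Multiset.card_add,
      Multiset.card_replicate] at this
    exact_mod_cast this
  have h6 := tr_prod hP hQ (I - 1)
  rw [h, trace_mul_cycle, Units.inv_mul, one_mul, trace_diagonal, ht, h5] at h6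
  have h7 : ∑ i, d i = a * (w + s * I) + b * (-w + s * I) + r := by
    have := congrArg Multiset.sum e
    simpa [Multiset.sum_replicate, mul_add] using this
  have h8 : (a : ℂ) * (w + s * I) + b * (-w + s * I) = a + b - 2 + 2 * s * I := by
    linear_combination h6 - h7 + (1 - s) * I_sq
  have h9 := congrArg re h8
  have h10 := congrArg im h8
  simp at h9 h10
  have h11 : (a : ℝ) + b = 2 := mul_right_cancel₀ hs.ne' (by linarith)
  have h12 : (a : ℝ) = b := mul_right_cancel₀ hw.ne' (by linarith)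
  obtain rfl : a = 1 := by exact_mod_cast (by linarith : (a : ℝ) = 1)
  obtain rfl : b = 1 := by exact_mod_cast (by linarith : (b : ℝ) = 1)
  exact ⟨r, e⟩

theorem stable_half {s w : ℝ} (hs : 0 < s) (hw : 0 < w) (h1 : w ^ 2 + s ^ 2 = 1) {r : ℕ}
    (h : Stable 5 ({w + s * I, -w + s * I} + Multiset.replicate r 1)) :
    s = 1 / 2 ∧ ({w + s * I, -w + s * I} : Multiset ℂ) = orb 5 2 (rt 12) := by
  have h1' : (w : ℂ) ^ 2 + s ^ 2 = 1 := by exact_mod_cast h1
  obtain ⟨μ, hμ⟩ : ∃ μ : ℂ, μ = w + s * I := ⟨_, rfl⟩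
  have h0 : μ ≠ 0 := fun h0 => hw.ne' (by simpa [hμ] using congrArg re h0)
  rw [Stable, Multiset.map_add, Multiset.map_replicate, one_pow, add_left_inj, ← hμ] at h
  have h2 : μ ^ 5 ∈ ({μ, -w + s * I} : Multiset ℂ) := by
    rw [← h]
    simp
  have h3 : μ ^ 5 = -w + s * I := by
    rcases Multiset.mem_cons.1 h2 with h2 | h2
    · have h4 : μ * ((μ ^ 2 - 1) * (μ ^ 2 + 1)) = 0 := by linear_combination h2
      have h5 := mul_pos hw hs
      rcases mul_eq_zero.1 ((mul_eq_zero.1 h4).resolve_left h0) with h4 | h4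
      · have := congrArg im h4
        simp [hμ, pow_two] at this
        linarith
      · have := congrArg im h4
        simp [hμ, pow_two] at this
        linarith
    · exact Multiset.mem_singleton.1 h2
  have h4 : (μ ^ 3 - I) * (μ ^ 3 + I) = 0 := by
    have : μ * (-w + s * I) = -1 := by
      rw [hμ]
      linear_combination -h1' + s ^ 2 * I_sq
    linear_combination μ * h3 + this - I_sq
  have h5 : (μ ^ 3).re = 0 := by
    rcases mul_eq_zero.1 h4 with h4 | h4 <;> simpa using congrArg re h4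
  simp [hμ, pow_succ] at h5
  have h6 : w ^ 2 = 3 * s ^ 2 := mul_left_cancel₀ hw.ne' (by linarith)
  have h7 : s = 1 / 2 := by nlinarith
  have h8 : w = Real.sqrt 3 / 2 := by
    rw [eq_div_iff two_ne_zero, eq_comm, Real.sqrt_eq_iff_mul_self_eq (by norm_num) (by linarith)]
    rw [h7] at h6
    linarith
  refine ⟨h7, ?_⟩
  have h9 : rt 12 = μ := by rw [rt_twelve, hμ, h7, h8]
  rw [← h3, ← hμ, h9]
  simp [orb, Multiset.range_succ]
  exact Multiset.pair_comm _ _

theorem tri (hP : Pj P) (hQ : Pj Q) {B : (Matrix ι ι ℂ)ˣ} {d : ι → ℂ}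
    (h : (1 + (I - 1) • P) * (1 + (I - 1) • Q) = B.val * diagonal d * B⁻¹.val)
    (hst : Stable 5 (univ.val.map d)) : (P * Q = 0 ∧ Q * P = 0) ∨ P = Q ∨
      ((P * Q).trace = 1 / 2 ∧ ∃ r, univ.val.map d = orb 5 2 (rt 12) + Multiset.replicate r 1) := by
  obtain ⟨t, t0, ht, ht0⟩ := tr_nonneg hP.herm hP.idem hQ.herm hQ.idem
  obtain ⟨s, s0, hs, hs0⟩ := tr_nonneg (B := 1 - Q) hP.herm hP.idem (by simp [hQ.herm])
    (by simp [mul_sub, sub_mul, hQ.idem])
  have h1 : (P * Q).trace = 1 - s := by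
    rw [mul_sub, mul_one, trace_sub, hP.tr] at hs
    linear_combination -hs
  have h2 : t = 1 - s := by exact_mod_cast ht.symm.trans h1
  rcases t0.eq_or_lt with t0 | t0
  · exact Or.inl (ht0 t0.symm).symm
  rcases s0.eq_or_lt with s0 | s0
  · obtain ⟨h3, h4⟩ := hs0 s0.symm
    rw [sub_mul, one_mul, sub_eq_zero] at h3
    have h5 := hQ.sand P
    rw [trace_mul_comm, h1, ← s0, ← h3] at h5
    rw [mul_sub, mul_one, sub_eq_zero] at h4
    exact Or.inr (Or.inl (by simpa [← h4] using h5))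
  have h3 : 0 < 1 - s ^ 2 := by nlinarith
  have h4 : Real.sqrt (1 - s ^ 2) ^ 2 + s ^ 2 = 1 := by rw [Real.sq_sqrt h3.le]; ring
  obtain ⟨r, hr⟩ := spec hP hQ h1 s0 (Real.sqrt_pos.2 h3) h4 h
  obtain ⟨h5, h6⟩ := stable_half s0 (Real.sqrt_pos.2 h3) h4 (hr ▸ hst)
  refine Or.inr (Or.inr ⟨?_, r, h6 ▸ hr⟩)
  rw [h1, h5]
  norm_num

theorem inv_eq (hP : Pj P) : (1 + (I - 1) • P) * (1 + (-I - 1) • P) = 1 ∧
    (1 + (-I - 1) • P) * (1 + (I - 1) • P) = 1 := by
  have e : (I - 1) + (-I - 1) + (I - 1) * (-I - 1) = 0 := by linear_combination -I_sq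
  constructor <;>
  · simp only [mul_add, add_mul, mul_one, one_mul, smul_mul_assoc, mul_smul_comm, hP.idem]
    match_scalars
    · rfl
    · linear_combination e

/-- The values that determine a third factorisation. -/
theorem third (hP : Pj P) (hQ : Pj Q) (ht : (P * Q).trace = 1 / 2) {P' Q' : Matrix ι ι ℂ}
    (hP' : Pj P') (hQ' : Pj Q')
    (h : (1 + (I - 1) • P') * (1 + (I - 1) • Q') = (1 + (I - 1) • P) * (1 + (I - 1) • Q))
    (h1 : (P' * P = 0 ∧ P * P' = 0) ∨ (P' * P).trace = 1 / 2)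
    (h2 : (P' * Q = 0 ∧ Q * P' = 0) ∨ (P' * Q).trace = 1 / 2) :
    P' = (4 : ℂ) • ((1 - Q) * ((1 / 2 : ℂ) • P) * (1 - Q) +
      (1 - Q) * (((1 + I) / 2) • (P * Q)) * (1 - P) + (1 - P) * (((1 - I) / 2) • (Q * P)) * (1 - Q) +
      (1 - P) * ((1 / 2 : ℂ) • Q) * (1 - P)) := by
  have p1 := hP.idem
  have q1 := hQ.idem
  have p3 : P * (Q * P) = (1 / 2 : ℂ) • P := by rw [← mul_assoc, hP.sand, ht]
  have q3 : Q * (P * Q) = (1 / 2 : ℂ) • Q := by rw [← mul_assoc, hQ.sand, trace_mul_comm, ht]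
  obtain ⟨R, hR⟩ : ∃ R, R = (2 : ℂ) • (P + Q - P * Q - Q * P) := ⟨_, rfl⟩
  have r1 : (1 - R) * P = 0 := by
    simp only [hR, sub_mul, add_mul, one_mul, smul_mul_assoc, mul_assoc, p1, p3]
    module
  have r2 : (1 - R) * Q = 0 := by
    simp only [hR, sub_mul, add_mul, one_mul, smul_mul_assoc, mul_assoc, q1, q3]
    module
  have r3 : (1 - R)ᴴ = 1 - R := by
    simp only [hR, conjTranspose_sub, conjTranspose_add, conjTranspose_one, conjTranspose_smul,
      conjTranspose_mul, hP.herm, hQ.herm, star_ofNat]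
    module
  have r4 : (1 - R) * (1 - R) = 1 - R := by
    rw [mul_sub, mul_one, sub_eq_self]
    nth_rewrite 2 [hR]
    simp only [mul_smul_comm, mul_sub (1 - R), mul_add, ← mul_assoc, r1, r2]
    simp
  have r5 : (-I - 1) • ((1 - R) * Q') = (I - 1) • ((1 - R) * P') := by
    have h3 := congrArg (fun X => (1 - R) * (X * (1 + (-I - 1) • Q'))) h
    simp only [mul_assoc, (inv_eq hQ').1, mul_one] at h3
    simp only [← mul_assoc, mul_add (1 - R), mul_one, mul_smul_comm, r1, r2, smul_zero,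
      add_zero] at h3
    exact (add_left_cancel h3).symm
  obtain ⟨α, α0, hα, hα0⟩ := tr_nonneg r3 r4 hP'.herm hP'.idem
  obtain ⟨β, β0, hβ, -⟩ := tr_nonneg r3 r4 hQ'.herm hQ'.idem
  have h3 := congrArg trace r5
  rw [trace_smul, trace_smul, hα, hβ] at h3
  have h4 := congrArg im h3
  simp at h4
  obtain ⟨h5, h6⟩ := hα0 (by linarith)
  rw [mul_sub, mul_one, sub_eq_zero] at h5
  rw [sub_mul, one_mul, sub_eq_zero] at h6
  have t1 : 2 * ((P' * P).trace + (P' * Q).trace - (P' * (P * Q)).trace -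
      (P' * (Q * P)).trace) = 1 := by
    rw [← hP'.tr]
    nth_rewrite 5 [h5]
    simp only [hR, mul_smul_comm, mul_sub, mul_add, trace_smul, trace_sub, trace_add, smul_eq_mul]
  have t2 : (-I - 1) * (1 + (I - 1) * (P' * P).trace + (I - 1) * (P' * Q).trace +
      (I - 1) ^ 2 * (P' * (P * Q)).trace) = 1 := by
    have h7 := congrArg (fun X => ((1 + (-I - 1) • P') * X).trace) h
    simp only [← mul_assoc, (inv_eq hP').2, one_mul] at h7
    simp only [mul_add, add_mul, mul_one, one_mul, smul_mul_assoc, mul_smul_comm, trace_add,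
      trace_smul, trace_one, hP.tr, hQ.tr, hP'.tr, hQ'.tr, smul_eq_mul, mul_assoc, ht] at h7
    linear_combination -h7 - (1 / 2) * I_sq
  have c1 : (P' * (Q * P)).trace = (P * P' * Q).trace := by
    rw [← mul_assoc, trace_mul_cycle]
  have c2 : (P' * (P * Q)).trace = (Q * P' * P).trace := by
    rw [← mul_assoc, trace_mul_cycle]
  have bad : ∀ x : ℂ, 2 * x = 1 → (-I - 1) * (1 + (I - 1) * x) = 1 → False := fun x a b => by
    have : -I = 1 := by linear_combination b - (1 / 2) * (-I - 1) * (I - 1) * a + (1 / 2) * I_sq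
    simpa using congrArg re this
  rcases h1 with h1 | h1
  · rw [c1, ← mul_assoc, h1.1, h1.2] at t1
    rw [← mul_assoc, h1.1] at t2
    exact (bad _ (by simpa using t1) (by simpa using t2)).elim
  rcases h2 with h2 | h2
  · rw [c2, ← mul_assoc, h2.1, h2.2] at t1
    rw [c2, h2.1, h2.2] at t2
    exact (bad _ (by simpa using t1) (by simpa using t2)).elim
  rw [h1, h2] at t1 t2
  have k1 : (P' * (P * Q)).trace = (1 - I) / 4 := by
    linear_combination (-(1 + I) / 4 * t2) +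
      (-1 / 2 - (I ^ 2 - 3) / 4 * (P' * (P * Q)).trace - I / 4) * I_sq
  have k2 : (P' * (Q * P)).trace = (1 + I) / 4 := by linear_combination -(1 / 2) * t1 - k1
  have e1 : P * P' * P = (1 / 2 : ℂ) • P := by rw [hP.sand, trace_mul_comm, h1]
  have e2 : Q * P' * Q = (1 / 2 : ℂ) • Q := by rw [hQ.sand, trace_mul_comm, h2]
  have e3 : P * P' * Q = ((1 + I) / 2) • (P * Q) := by
    have h7 := congrArg (· * Q) (hP.sand (P' * Q))
    simp only [mul_assoc, q3, mul_smul_comm, smul_mul_assoc] at h7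
    rw [← mul_assoc, ← c1, k2] at h7
    linear_combination (norm := module) (2 : ℂ) • h7
  have e4 : Q * P' * P = ((1 - I) / 2) • (Q * P) := by
    have h7 := congrArg (· * P) (hQ.sand (P' * P))
    simp only [mul_assoc, p3, mul_smul_comm, smul_mul_assoc] at h7
    rw [← mul_assoc, ← c2, k1] at h7
    linear_combination (norm := module) (2 : ℂ) • h7
  have h7 : P' = R * P' * R := by rw [← h6, ← h5]
  rw [← e1, ← e2, ← e3, ← e4]
  nth_rewrite 1 [h7]
  simp only [hR, mul_add, add_mul, mul_sub, sub_mul, mul_one, one_mul, smul_mul_assoc,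
    mul_smul_comm, mul_assoc]
  module

end GeoB

open GeoB

variable {n : ℕ} {G : Type*} [Group G] [Finite G] [DecidableEq G]

theorem geoB (ρ : G →* Matrix (Fin n) (Fin n) ℂ) (hu : ∀ g, (ρ g)ᴴ = ρ g⁻¹)
    (hinj : Function.Injective ρ) (hst : ∀ g, Stable 5 (eig (ρ g))) (S : Finset G)
    (hS : ∀ g ∈ S, IsS 5 1 (eig (ρ g))) (hc : ∀ g ∈ S, ∀ h : G, h * g * h⁻¹ ∈ S)
    {a b : G} (ha : a ∈ S) (hb : b ∈ S) (hab : a * b ≠ b * a) :
    2 ≤ n ∧ (∃ r, eig (ρ (a * b)) = orb 5 2 (rt 12) + Multiset.replicate r 1) ∧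
      (((S ×ˢ S).filter fun u => u.1 * u.2 = a * b).card = 2 ∨
        ((S ×ˢ S).filter fun u => u.1 * u.2 = a * b).card = 3) := by
  have hP : ∀ g ∈ S, ∃ P, Pj P ∧ ρ g = 1 + (Complex.I - 1) • P := fun g hg =>
    exists_pj (by rw [hu, ← map_mul, inv_mul_cancel, map_one]) (orderOf_pos g)
      (by rw [← map_pow, pow_orderOf_eq_one, map_one]) (hS g hg)
  choose! P hP hρ using hP
  have key : ∀ x ∈ S, ∀ y ∈ S, (P x * P y = 0 ∧ P y * P x = 0) ∨ x = y ∨
      ((P x * P y).trace = 1 / 2 ∧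
        ∃ r, eig (ρ (x * y)) = orb 5 2 (rt 12) + Multiset.replicate r 1) := fun x hx y hy => by
    obtain ⟨B, d, h1, h2⟩ := exists_diag ρ (x * y)
    rw [h2]
    refine (tri (hP x hx) (hP y hy) (by rw [← h1, map_mul, hρ x hx, hρ y hy])
      (h2 ▸ hst _)).imp_right (Or.imp_left fun h => hinj ?_)
    rw [hρ x hx, hρ y hy, h]
  have hne : a ≠ b := fun h => hab (by rw [h])
  obtain ⟨ht, r, hr⟩ := ((key a ha b hb).resolve_left fun h => hab (hinj (by
    simp only [map_mul, hρ a ha, hρ b hb, mul_add, add_mul, mul_one, one_mul, smul_mul_assoc,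
      mul_smul_comm, h.1, h.2]
    module))).resolve_left hne
  refine ⟨?_, ⟨r, hr⟩, ?_⟩
  · have := card_eig (ρ (a * b))
    rw [hr] at this
    simp [orb] at this
    omega
  set T := (S ×ˢ S).filter fun u => u.1 * u.2 = a * b with hT
  have hmem : ∀ u, u ∈ T ↔ (u.1 ∈ S ∧ u.2 ∈ S) ∧ u.1 * u.2 = a * b := fun u => by
    rw [hT, mem_filter, mem_product]
  have hext : ∀ u ∈ T, ∀ v ∈ T, u.1 = v.1 → u = v := fun u hu v hv h =>
    Prod.ext h (mul_left_cancel (a := u.1) (by rw [((hmem u).1 hu).2, h, ((hmem v).1 hv).2]))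
  have h1 : (a, b) ∈ T := (hmem _).2 ⟨⟨ha, hb⟩, rfl⟩
  have h2 : (b, b⁻¹ * a * b⁻¹⁻¹) ∈ T := (hmem _).2 ⟨⟨hb, hc a ha _⟩, by group⟩
  have h3 : ({(a, b), (b, b⁻¹ * a * b⁻¹⁻¹)} : Finset (G × G)) ⊆ T := by
    intro u hu
    rcases mem_insert.1 hu with rfl | hu
    · exact h1
    · exact mem_singleton.1 hu ▸ h2
  have h4 : ({(a, b), (b, b⁻¹ * a * b⁻¹⁻¹)} : Finset (G × G)).card = 2 :=
    card_pair fun h => hne (congrArg Prod.fst h)
  have h5 : ∀ u ∈ T \ {(a, b), (b, b⁻¹ * a * b⁻¹⁻¹)}, P u.1 = _ := fun u hu => by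
    obtain ⟨hu, hu'⟩ := mem_sdiff.1 hu
    obtain ⟨⟨x1, x2⟩, x3⟩ := (hmem u).1 hu
    have n1 : u.1 ≠ a := fun h => hu' (hext u hu _ h1 h ▸ mem_insert_self _ _)
    have n2 : u.1 ≠ b := fun h => hu' (hext u hu _ h2 h ▸ mem_insert_of_mem (mem_singleton_self _))
    refine third (hP a ha) (hP b hb) ht (hP _ x1) (hP _ x2) ?_
      ((key _ x1 a ha).imp_right fun h => (h.resolve_left n1).1)
      ((key _ x1 b hb).imp_right fun h => (h.resolve_left n2).1)
    rw [← hρ _ x1, ← hρ _ x2, ← hρ a ha, ← hρ b hb, ← map_mul, ← map_mul, x3]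
  have h6 : (T \ {(a, b), (b, b⁻¹ * a * b⁻¹⁻¹)}).card ≤ 1 := card_le_one.2 fun u hu v hv => by
    have hu' := (mem_sdiff.1 hu).1
    have hv' := (mem_sdiff.1 hv).1
    refine hext u hu' v hv' (hinj ?_)
    rw [hρ _ ((hmem u).1 hu').1.1, hρ _ ((hmem v).1 hv').1.1, h5 u hu, h5 v hv]
  have h7 := card_sdiff_add_card_eq_card h3
  omega

end Pool.Agent.KGV
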