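import Pool.Agent.P.MP_9e9a11_al.Defs
import Pool.Agent.P.MP_9e9a11_al.Cyc

namespace Pool.Agent.KGV

open Finset Matrix

variable {p D : ℕ} [Fact p.Prime]

namespace GramAux

noncomputable section

/-- A function on a finite type as a finitely supported function. -/
abbrev fs {m : ℕ} (f : Fin m → ℕ) : Fin m →₀ ℕ := Finsupp.equivFunOnFinite.symm f

theorem fs_apply {m : ℕ} (f : Fin m → ℕ) (i : Fin m) : fs f i = f i := rfl

theorem N_pos (hD0 : 0 < D) : 0 < p ^ D - 1 := by
  have h1 : 1 < p ^ D := Nat.one_lt_pow hD0.ne' (Fact.out : p.Prime).one_lt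
  omega

theorem SS_eq {ι : Type*} (hD0 : 0 < D) (w : Equiv.Perm ι) (hw : w ^ D = 1) (a b : ι → ℕ)
    (h : ∀ i, a i + b (w i) = p * b i) (i : ι) : SS p D w a i = (p ^ D - 1) * b i := by
  have h1 : 1 < p ^ D := Nat.one_lt_pow hD0.ne' (Fact.out : p.Prime).one_lt
  set c : ι → ℤ := fun i => (SS p D w a i : ℤ) - ((p ^ D - 1 : ℕ) : ℤ) * b i with hc
  have hrec : ∀ i, c (w i) = p * c i := by
    intro i
    have e1 := congrArg (Nat.cast : ℕ → ℤ) (SS_rec (p := p) w hw a i)
    have e2 := congrArg (Nat.cast : ℕ → ℤ) (h i)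
    simp only [Nat.cast_add, Nat.cast_mul] at e1 e2
    simp only [hc]
    linear_combination (-1 : ℤ) * e1 - ((p ^ D - 1 : ℕ) : ℤ) * e2
  have hit : ∀ k i, c ((w ^ k) i) = (p : ℤ) ^ k * c i := by
    intro k
    induction k with
    | zero => intro i; simp
    | succ k ih =>
      intro i
      rw [pow_succ', Equiv.Perm.mul_apply, hrec, ih, pow_succ]
      ring
  have h2 := hit D i
  rw [hw, Equiv.Perm.one_apply] at h2
  have h3 : ((p : ℤ) ^ D - 1) * c i = 0 := by linear_combination (-1 : ℤ) * h2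
  have h4 : ((p : ℤ) ^ D - 1) ≠ 0 := by
    have : (1 : ℤ) < (p : ℤ) ^ D := by exact_mod_cast h1
    omega
  have h5 : c i = 0 := (mul_eq_zero.1 h3).resolve_left h4
  simp only [hc] at h5
  have h6 : (SS p D w a i : ℤ) = (((p ^ D - 1) * b i : ℕ) : ℤ) := by
    rw [Nat.cast_mul]; linarith
  exact_mod_cast h6

theorem exists_b {ι : Type*} (hD0 : 0 < D) (w : Equiv.Perm ι) (hw : w ^ D = 1) (a : ι → ℕ)
    (h : ∀ i, (p ^ D - 1) ∣ SS p D w a i) : ∃ b : ι → ℕ, ∀ i, a i + b (w i) = p * b i := by
  choose b hb using h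
  refine ⟨b, fun i => ?_⟩
  have e := SS_rec (p := p) w hw a i
  rw [hb i, hb (w i)] at e
  apply Nat.eq_of_mul_eq_mul_left (N_pos (p := p) hD0)
  generalize p ^ D - 1 = N at e ⊢
  nlinarith [e]

theorem b_le {m K : ℕ} (w : Equiv.Perm (Fin m)) (a b : Fin m → ℕ) (ha : ∀ i, a i ≤ K)
    (h : ∀ i, a i + b (w i) = p * b i) (i : Fin m) : b i ≤ K := by
  obtain ⟨j, -, hj⟩ := Finset.exists_max_image univ b ⟨i, mem_univ _⟩
  have h1 := hj i (mem_univ _)
  have h2 := hj (w j) (mem_univ _)
  have h3 := h j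
  have h4 := ha j
  have h5 : 2 ≤ p := (Fact.out : p.Prime).two_le
  nlinarith

/-- The box of exponent vectors. -/
def box (m K : ℕ) : Finset (Fin m → ℕ) := Fintype.piFinset fun _ => range (K + 1)

theorem mem_box {m K : ℕ} {b : Fin m → ℕ} : b ∈ box m K ↔ ∀ i, b i ≤ K := by
  simp [box, Fintype.mem_piFinset]

theorem ind_eq {m K : ℕ} (hD0 : 0 < D) (w : Equiv.Perm (Fin m)) (hw : w ^ D = 1) (a : Fin m → ℕ)
    (ha : ∀ i, a i ≤ K) :
    (if ∀ i, (p ^ D - 1) ∣ SS p D w a i then (1 : ℤ) else 0) =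
      ∑ b ∈ box m K, if ∀ i, a i + b (w i) = p * b i then (1 : ℤ) else 0 := by
  split_ifs with h
  · obtain ⟨b, hb⟩ := exists_b hD0 w hw a h
    rw [Finset.sum_eq_single b]
    · rw [if_pos hb]
    · intro b' _ hne
      rw [if_neg]
      intro hb'
      apply hne
      funext i
      have e1 := SS_eq hD0 w hw a b hb i
      have e2 := SS_eq hD0 w hw a b' hb' i
      exact Nat.eq_of_mul_eq_mul_left (N_pos (p := p) hD0) (e2.symm.trans e1)
    · intro hn
      exact absurd (mem_box.2 (b_le w a b ha hb)) hn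
  · symm
    apply Finset.sum_eq_zero
    intro b _
    rw [if_neg]
    intro hb
    exact h fun i => ⟨b i, SS_eq hD0 w hw a b hb i⟩

variable (p) in
/-- The coefficient of `h` at `p b - b ∘ w`. -/
def cT {m : ℕ} (h : MvPolynomial (Fin m) ℤ) (w : Equiv.Perm (Fin m)) (b : Fin m → ℕ) : ℤ :=
  if ∀ i, b (w i) ≤ p * b i then h.coeff (fs fun i => p * b i - b (w i)) else 0

omit [Fact p.Prime] in
theorem sum_supp {m : ℕ} (h : MvPolynomial (Fin m) ℤ) (w : Equiv.Perm (Fin m)) (b : Fin m → ℕ) :
    (∑ a ∈ h.support, h.coeff a * if ∀ i, a i + b (w i) = p * b i then (1 : ℤ) else 0) =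
      cT p h w b := by
  unfold cT
  split_ifs with hb
  · rw [Finset.sum_eq_single (fs fun i => p * b i - b (w i))]
    · rw [if_pos, mul_one]
      intro i
      rw [fs_apply]
      have := hb i
      omega
    · intro a _ hne
      rw [if_neg, mul_zero]
      intro ha
      apply hne
      ext i
      rw [fs_apply]
      have := ha i
      omega
    · intro hn
      rw [MvPolynomial.notMem_support_iff.1 hn, zero_mul]
  · apply Finset.sum_eq_zero
    intro a _
    rw [if_neg, mul_zero]
    intro ha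
    apply hb
    intro i
    have := ha i
    omega

variable (p) in
/-- The alternating sum attached to `b`. -/
def TT {m : ℕ} (h : MvPolynomial (Fin m) ℤ) (b : Fin m → ℕ) : ℤ :=
  ∑ w : Equiv.Perm (Fin m), (Equiv.Perm.sign w : ℤ) * cT p h w b

theorem tau_eq_sum {m K : ℕ} (hD0 : 0 < D) (hD : m.factorial ∣ D) (h : MvPolynomial (Fin m) ℤ)
    (hK : h.totalDegree ≤ K) : tauP p D h = ∑ b ∈ box m K, TT p h b := by
  unfold tauP TT
  rw [Finset.sum_comm]
  refine Finset.sum_congr rfl fun w _ => ?_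
  rw [← Finset.mul_sum]
  congr 1
  have hw : w ^ D = 1 := pow_D_eq_one hD (by simp) w
  simp_rw [← sum_supp]
  rw [Finset.sum_comm]
  refine Finset.sum_congr rfl fun a ha => ?_
  rw [← Finset.mul_sum, ← ind_eq hD0 w hw a]
  intro i
  exact ((MvPolynomial.monomial_le_degreeOf i ha).trans
    (MvPolynomial.degreeOf_le_totalDegree h i)).trans hK

theorem coeff_comp {m : ℕ} {h : MvPolynomial (Fin m) ℤ} (hs : h.IsSymmetric) (f : Fin m → ℕ)
    (u : Equiv.Perm (Fin m)) : h.coeff (fs (f ∘ u)) = h.coeff (fs f) := by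
  have e := MvPolynomial.coeff_rename_mapDomain u u.injective h (fs (f ∘ u))
  rw [hs u] at e
  rw [← e]
  congr 1
  ext i
  obtain ⟨j, rfl⟩ := u.surjective i
  rw [Finsupp.mapDomain_apply u.injective]
  rfl

omit [Fact p.Prime] in
theorem cT_comp {m : ℕ} {h : MvPolynomial (Fin m) ℤ} (hs : h.IsSymmetric) (b : Fin m → ℕ)
    (u w : Equiv.Perm (Fin m)) : cT p h (u⁻¹ * w * u) (b ∘ u) = cT p h w b := by
  unfold cT
  have e : ∀ i, (b ∘ u) ((u⁻¹ * w * u) i) = b (w (u i)) := by
    intro i
    simp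
  simp only [e]
  have e2 : (∀ i, b (w (u i)) ≤ p * (b ∘ u) i) ↔ ∀ i, b (w i) ≤ p * b i := by
    constructor
    · intro H i
      obtain ⟨j, rfl⟩ := u.surjective i
      exact H j
    · intro H i
      exact H (u i)
  by_cases hb : ∀ i, b (w i) ≤ p * b i
  · rw [if_pos hb, if_pos (e2.2 hb)]
    exact coeff_comp hs (fun i => p * b i - b (w i)) u
  · rw [if_neg hb, if_neg (fun H => hb (e2.1 H))]

omit [Fact p.Prime] in
theorem TT_comp {m : ℕ} {h : MvPolynomial (Fin m) ℤ} (hs : h.IsSymmetric) (b : Fin m → ℕ)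
    (u : Equiv.Perm (Fin m)) : TT p h (b ∘ u) = TT p h b := by
  unfold TT
  symm
  refine Fintype.sum_equiv ((Equiv.mulLeft u⁻¹).trans (Equiv.mulRight u)) _ _ fun w => ?_
  simp only [Equiv.trans_apply, Equiv.coe_mulLeft, Equiv.coe_mulRight]
  rw [cT_comp hs]
  congr 2
  rw [Equiv.Perm.sign_mul, Equiv.Perm.sign_mul, Equiv.Perm.sign_inv, mul_right_comm,
    Int.units_mul_self, one_mul]

omit [Fact p.Prime] in
theorem TT_zero {m : ℕ} (h : MvPolynomial (Fin m) ℤ) (b : Fin m → ℕ)
    (hb : ¬ Function.Injective b) : TT p h b = 0 := by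
  unfold Function.Injective at hb
  push Not at hb
  obtain ⟨i, j, hij, hne⟩ := hb
  have hs : ∀ k, b (Equiv.swap i j k) = b k := by
    intro k
    rw [Equiv.swap_apply_def]
    split_ifs with h1 h2
    · rw [h1, hij]
    · rw [h2, hij]
    · rfl
  have e : TT p h b = - TT p h b := by
    unfold TT
    rw [← Finset.sum_neg_distrib]
    refine Fintype.sum_equiv (Equiv.mulLeft (Equiv.swap i j)) _ _ fun w => ?_
    simp only [Equiv.coe_mulLeft]
    have e1 : cT p h (Equiv.swap i j * w) b = cT p h w b := by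
      unfold cT
      simp only [Equiv.Perm.mul_apply, hs]
    rw [e1, Equiv.Perm.sign_mul, Equiv.Perm.sign_swap hne]
    simp
  linarith

theorem sum_inj {m K : ℕ} (T : (Fin m → ℕ) → ℤ)
    (hT : ∀ b (u : Equiv.Perm (Fin m)), T (b ∘ u) = T b)
    (h0 : ∀ b, ¬ Function.Injective b → T b = 0) :
    ∑ b ∈ box m K, T b = m.factorial * ∑ b ∈ (box m K).filter StrictAnti, T b := by
  classical
  rw [← Finset.sum_filter_of_ne (p := Function.Injective)
    (fun b _ hb => by by_contra hc; exact hb (h0 b hc))]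
  have e : (m.factorial : ℤ) * ∑ b ∈ (box m K).filter StrictAnti, T b =
      ∑ x ∈ ((box m K).filter StrictAnti) ×ˢ (univ : Finset (Equiv.Perm (Fin m))),
        T (x.1 ∘ x.2) := by
    rw [Finset.sum_product, Finset.mul_sum]
    refine Finset.sum_congr rfl fun b _ => ?_
    simp only [hT, Finset.sum_const, Finset.card_univ, Fintype.card_perm, Fintype.card_fin,
      nsmul_eq_mul]
  rw [e]
  symm
  refine Finset.sum_bij (fun x _ => x.1 ∘ x.2) ?_ ?_ ?_ ?_
  · intro x hx
    rw [Finset.mem_product, Finset.mem_filter] at hx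
    rw [Finset.mem_filter]
    exact ⟨mem_box.2 fun i => mem_box.1 hx.1.1 _, hx.1.2.injective.comp x.2.injective⟩
  · intro x hx y hy hxy
    rw [Finset.mem_product, Finset.mem_filter] at hx hy
    have h1 : (x.1 ∘ x.2) ∘ ⇑(x.2⁻¹) = x.1 := by funext i; simp
    have h2 : (x.1 ∘ x.2) ∘ ⇑(y.2⁻¹) = y.1 := by rw [hxy]; funext i; simp
    have h3 : x.1 = y.1 := by
      rw [← h1, ← h2]
      apply Tuple.unique_antitone
      · rw [h1]; exact hx.1.2.antitone
      · rw [h2]; exact hy.1.2.antitone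
    refine Prod.ext h3 ?_
    ext i
    have h4 := congrFun hxy i
    simp only [Function.comp_apply] at h4
    rw [← h3] at h4
    rw [hx.1.2.injective h4]
  · intro b hb
    rw [Finset.mem_filter] at hb
    let s : Equiv.Perm (Fin m) := Tuple.sort (α := ℕᵒᵈ) b
    have hs : Antitone (b ∘ s) := Tuple.monotone_sort (α := ℕᵒᵈ) b
    refine ⟨(b ∘ s, s⁻¹), ?_, ?_⟩
    · rw [Finset.mem_product, Finset.mem_filter]
      exact ⟨⟨mem_box.2 fun i => mem_box.1 hb.1 _,
        hs.strictAnti_of_injective (hb.2.comp s.injective)⟩, mem_univ _⟩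
    · funext i
      simp
  · intro x _
    rfl

theorem ee_eq {m : ℕ} (c : Fin m → ℕ) :
    ee c = MvPolynomial.esymmAlgHomMonomial (Fin m) (fs c) (1 : ℤ) := by
  rw [MvPolynomial.esymmAlgHomMonomial, MvPolynomial.esymmAlgHom_apply,
    MvPolynomial.aeval_monomial, map_one, one_mul, Finsupp.prod_fintype _ _ (by simp)]
  rfl

theorem ee_symm {m : ℕ} (c : Fin m → ℕ) : (ee c).IsSymmetric := by
  rw [ee_eq]
  exact MvPolynomial.isSymmetric_esymmAlgHomMonomial _ _

theorem ee_deg {m : ℕ} (c : Fin m → ℕ) :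
    ofLex (AddMonoidAlgebra.supDegree toLex (ee c)) = fs (Fin.accumulate m m c) := by
  have e := MvPolynomial.supDegree_esymmAlgHomMonomial (m := m) (one_ne_zero (α := ℤ)) (fs c) le_rfl
  rw [← ee_eq] at e
  ext i
  exact congrFun e i

theorem ee_le {m : ℕ} (c : Fin m → ℕ) (x : Fin m →₀ ℕ) (hx : (ee c).coeff x ≠ 0) :
    toLex x ≤ toLex (fs (Fin.accumulate m m c)) := by
  rw [← ee_deg, toLex_ofLex]
  by_contra hc
  exact hx (AddMonoidAlgebra.coeff_eq_zero_of_not_le_supDegree hc)

theorem ee_lead {m : ℕ} (c : Fin m → ℕ) : (ee c).coeff (fs (Fin.accumulate m m c)) = 1 := by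
  rw [← ee_deg, ← MvPolynomial.leadingCoeff_toLex, ee_eq]
  exact MvPolynomial.leadingCoeff_esymmAlgHomMonomial _ le_rfl

theorem ee_pos {n : ℕ} (c : Fin (n + 1) → ℕ) (hc : 0 < c (Fin.last n)) (x : Fin (n + 1) →₀ ℕ)
    (hx : (ee c).coeff x ≠ 0) (i : Fin (n + 1)) : 0 < x i := by
  have h1 : MvPolynomial.X i ∣ MvPolynomial.esymm (Fin (n + 1)) ℤ (n + 1) := by
    unfold MvPolynomial.esymm
    have : (powersetCard (n + 1) (univ : Finset (Fin (n + 1)))) = {univ} := by
      have := Finset.powersetCard_self (univ : Finset (Fin (n + 1)))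
      rwa [Finset.card_univ, Fintype.card_fin] at this
    rw [this, Finset.sum_singleton]
    exact Finset.dvd_prod_of_mem _ (mem_univ i)
  have h2 : MvPolynomial.X i ∣ ee c := by
    refine dvd_trans ?_ (Finset.dvd_prod_of_mem _ (mem_univ (Fin.last n)))
    exact dvd_pow h1 hc.ne'
  obtain ⟨q, hq⟩ := h2
  rw [hq, MvPolynomial.coeff_X_mul'] at hx
  by_contra hn
  apply hx
  rw [if_neg]
  rw [Finsupp.mem_support_iff]
  omega

theorem lex_comp_le {m : ℕ} (b : Fin m → ℕ) (hb : StrictAnti b) (w : Equiv.Perm (Fin m)) :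
    toLex (fs (b ∘ w)) ≤ toLex (fs b) := by
  by_contra hc
  rw [not_le, Finsupp.Lex.lt_iff] at hc
  obtain ⟨i, h1, h2⟩ := hc
  have h3 : w i < i := hb.lt_iff_gt.1 h2
  have h4 : w i = w (w i) := hb.injective (h1 _ h3)
  exact h3.ne' (w.injective h4)

/-- The staircase vector. -/
def stair (m : ℕ) : Fin m → ℕ := fun i => m - i

theorem stair_anti (m : ℕ) : StrictAnti (stair m) := by
  intro i j hij
  have := j.2
  have h : (i : ℕ) < j := hij
  unfold stair
  omega

theorem stair_le {m : ℕ} (b : Fin m → ℕ) (hb : StrictAnti b) (h1 : ∀ i, 0 < b i) (i : Fin m) :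
    stair m i ≤ b i := by
  have key : ∀ k, ∀ i : Fin m, (i : ℕ) + k + 1 = m → k + 1 ≤ b i := by
    intro k
    induction k with
    | zero => intro i _; exact h1 i
    | succ k ih =>
      intro i hi
      have h2 := ih ⟨i + 1, by omega⟩ (by simp only; omega)
      have h3 : b ⟨i + 1, by omega⟩ < b i := hb (by rw [Fin.lt_def]; simp)
      omega
  have := key (m - 1 - i) i (by have := i.2; omega)
  have := i.2
  unfold stair
  omega

theorem acc_const (m q : ℕ) (i : Fin m) : Fin.accumulate m m (fun _ => q) i = q * stair m i := by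
  rw [Fin.accumulate_apply, Finset.sum_const, smul_eq_mul, mul_comm]
  congr 1
  have : (univ.filter fun j : Fin m => (i : ℕ) ≤ j) = Finset.Ici i := by
    ext j
    simp
  rw [this, Fin.card_Ici]
  rfl

/-- The chain of lexicographic inequalities. -/
theorem chain {n : ℕ} (c : Fin (n + 1) → ℕ) (hc : 0 < c (Fin.last n)) (b : Fin (n + 1) → ℕ)
    (hb : StrictAnti b) (w : Equiv.Perm (Fin (n + 1))) (h : cT p (ee c) w b ≠ 0) :
    toLex (fs fun i => (p - 1) * stair (n + 1) i) ≤ toLex (fs (Fin.accumulate _ _ c)) ∧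
      (Fin.accumulate _ _ c = (fun i => (p - 1) * stair (n + 1) i) → b = stair (n + 1) ∧ w = 1) := by
  have hp : 2 ≤ p := (Fact.out : p.Prime).two_le
  unfold cT at h
  have hle : ∀ i, b (w i) ≤ p * b i := by
    by_contra hn
    exact h (if_neg hn)
  rw [if_pos hle] at h
  have h1 := ee_le c _ h
  have h2 : ∀ i, 0 < b i := by
    intro i
    have h3 := ee_pos c hc _ h i
    rw [fs_apply] at h3
    by_contra hn
    have h4 : b i = 0 := by omega
    rw [h4] at h3
    omega
  have h3 : toLex (fs fun i => (p - 1) * stair (n + 1) i) ≤ toLex (fs fun i => (p - 1) * b i) := by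
    apply Finsupp.toLex_monotone
    intro i
    exact Nat.mul_le_mul_left _ (stair_le b hb h2 i)
  have hsum : toLex (fs fun i => p * b i - b (w i)) + toLex (fs (b ∘ w)) =
      toLex (fs fun i => (p - 1) * b i) + toLex (fs b) := by
    rw [← toLex_add, ← toLex_add]
    congr 1
    ext i
    simp only [Finsupp.add_apply, fs_apply, Function.comp_apply]
    have := hle i
    obtain ⟨q, rfl⟩ : ∃ q, p = q + 1 := ⟨p - 1, by omega⟩
    rw [Nat.add_sub_cancel, Nat.sub_add_cancel this]
    ring
  have h4 : toLex (fs fun i => (p - 1) * b i) ≤ toLex (fs fun i => p * b i - b (w i)) := by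
    apply le_of_add_le_add_right (a := toLex (fs b))
    rw [← hsum]
    exact add_le_add_right (lex_comp_le b hb w) _
  refine ⟨h3.trans (h4.trans h1), fun he => ?_⟩
  rw [he] at h1
  have e1 := le_antisymm h3 (h4.trans h1)
  have e2 := le_antisymm h4 (h1.trans h3)
  rw [← e2] at hsum
  have e3 := add_left_cancel hsum
  constructor
  · funext i
    have e4 : (p - 1) * stair (n + 1) i = (p - 1) * b i :=
      DFunLike.congr_fun (toLex.injective e1) i
    exact (Nat.eq_of_mul_eq_mul_left (by omega) e4).symm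
  · ext i
    have e4 : b (w i) = b i := DFunLike.congr_fun (toLex.injective e3) i
    rw [hb.injective e4]
    rfl

theorem det_tri {ι β : Type*} [Fintype ι] [DecidableEq ι] [LinearOrder β] (Γ : Matrix ι ι ℤ)
    (L : ι → β) (hL : Function.Injective L) (h : ∀ a a', L a < L a' → Γ a a' = 0) :
    Γ.det = ∏ a, Γ a a := by
  let _ : LinearOrder ι := LinearOrder.lift' L hL
  exact Matrix.det_of_isLowerTriangular Γ fun a a' h' => h a a' h'

end

end GramAux

open GramAux in
theorem gram {n : ℕ} (hD0 : 0 < D) (hD : (n + 1).factorial ∣ D) :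
    ∃ Γ : Matrix (Idx p n) (Idx p n) ℤ, IsUnit Γ.det ∧ ∀ a a' : Idx p n,
      tauP p D (ee fun k => (a.1 k : ℕ) + (p - 1 - a'.1 k)) = (n + 1).factorial * Γ a a' := by
  classical
  have hp : 2 ≤ p := (Fact.out : p.Prime).two_le
  let c : Idx p n → Idx p n → Fin (n + 1) → ℕ := fun a a' k => (a.1 k : ℕ) + (p - 1 - a'.1 k)
  have hc : ∀ a a', 0 < c a a' (Fin.last n) := by
    intro a a'
    have := a'.2
    simp only [c]
    omega
  let Γ : Matrix (Idx p n) (Idx p n) ℤ := fun a a' =>
    ∑ b ∈ (box (n + 1) ((ee (c a a')).totalDegree + (n + 1))).filter StrictAnti,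
      TT p (ee (c a a')) b
  let L : Idx p n → Lex (Fin (n + 1) →₀ ℕ) := fun a =>
    toLex (fs (Fin.accumulate _ _ fun k => (a.1 k : ℕ)))
  have hL : Function.Injective L := by
    intro a a' h
    have h1 := Finsupp.equivFunOnFinite.symm.injective (toLex.injective h)
    have h2 := Fin.accumulate_injective le_rfl h1
    apply Subtype.ext
    funext k
    exact Fin.ext (congrFun h2 k)
  have hacc : ∀ a a', Fin.accumulate (n + 1) (n + 1) (c a a') +
      Fin.accumulate (n + 1) (n + 1) (fun k => (a'.1 k : ℕ)) =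
      (fun i => (p - 1) * stair (n + 1) i) +
        Fin.accumulate (n + 1) (n + 1) (fun k => (a.1 k : ℕ)) := by
    intro a a'
    have e : (fun i => (p - 1) * stair (n + 1) i) =
        Fin.accumulate (n + 1) (n + 1) (fun _ => p - 1) := by
      funext i
      rw [acc_const]
    rw [e, ← map_add, ← map_add]
    congr 1
    funext k
    have := (a'.1 k).2
    simp only [c, Pi.add_apply]
    omega
  have htri : ∀ a a', L a < L a' → Γ a a' = 0 := by
    intro a a' hlt
    by_contra hne
    obtain ⟨b, hb, hT⟩ := Finset.exists_ne_zero_of_sum_ne_zero hne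
    obtain ⟨w, -, hw⟩ := Finset.exists_ne_zero_of_sum_ne_zero hT
    have h1 := (chain (c a a') (hc a a') b (Finset.mem_filter.1 hb).2 w
      (right_ne_zero_of_mul hw)).1
    have h2 : toLex (fs (Fin.accumulate _ _ (c a a'))) + L a' =
        toLex (fs fun i => (p - 1) * stair (n + 1) i) + L a := by
      simp only [L]
      rw [← toLex_add, ← toLex_add]
      congr 1
      ext i
      exact congrFun (hacc a a') i
    have h3 : toLex (fs fun i => (p - 1) * stair (n + 1) i) + L a <
        toLex (fs (Fin.accumulate _ _ (c a a'))) + L a' := add_lt_add_of_le_of_lt h1 hlt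
    exact h3.ne h2.symm
  have hdiag : ∀ a, Γ a a = 1 := by
    intro a
    have he : Fin.accumulate (n + 1) (n + 1) (c a a) = fun i => (p - 1) * stair (n + 1) i :=
      add_right_cancel (hacc a a)
    simp only [Γ]
    rw [Finset.sum_eq_single (stair (n + 1))]
    · unfold TT
      rw [Finset.sum_eq_single 1]
      · rw [Equiv.Perm.sign_one, Units.val_one, one_mul]
        unfold cT
        rw [if_pos]
        · rw [← ee_lead (c a a), he]
          congr 2
          funext i
          rw [Equiv.Perm.one_apply, Nat.sub_mul, one_mul]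
        · intro i
          rw [Equiv.Perm.one_apply]
          exact Nat.le_mul_of_pos_left _ (by omega)
      · intro w _ hw
        by_contra hne
        exact hw ((chain (c a a) (hc a a) _ (stair_anti _) w (right_ne_zero_of_mul hne)).2 he).2
      · intro h
        exact absurd (mem_univ _) h
    · intro b hb hne
      by_contra hT
      obtain ⟨w, -, hw⟩ := Finset.exists_ne_zero_of_sum_ne_zero hT
      exact hne ((chain (c a a) (hc a a) b (Finset.mem_filter.1 hb).2 w
        (right_ne_zero_of_mul hw)).2 he).1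
    · intro h
      exfalso
      apply h
      rw [Finset.mem_filter]
      refine ⟨mem_box.2 fun i => ?_, stair_anti _⟩
      unfold stair
      omega
  refine ⟨Γ, ?_, fun a a' => ?_⟩
  · rw [det_tri Γ L hL htri, Finset.prod_eq_one fun a _ => hdiag a]
    exact isUnit_one
  · rw [tau_eq_sum (K := (ee (c a a')).totalDegree + (n + 1)) hD0 hD _ (Nat.le_add_right _ _)]
    exact sum_inj _ (fun b u => TT_comp (ee_symm _) b u) (fun b hb => TT_zero _ b hb)

end Pool.Agent.KGV
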