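import Pool.Agent.P.MP_9e9a11_al.Defs

namespace Pool.Agent.KGV

open Finset Matrix

theorem Hensel_step {R A G : Type*} [CommRing R] [Ring A] [Algebra R A] [Group G] [Fintype G]
    (u q : R) (hu : u * (Fintype.card G : R) = 1) (f : G → A) (hf : ∀ g, IsUnit (f g))
    (c : G → G → A) (hc : ∀ g h, f (g * h) - f g * f h = q • c g h) :
    ∃ (E : G → A) (c' : G → G → A), ∀ g h,
      (f (g * h) + q • E (g * h)) - (f g + q • E g) * (f h + q • E h) = (q * q) • c' g h := by
  choose v hv using fun g => (hf g).exists_right_inv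
  have hv' : ∀ g, v g * f g = 1 := fun g => by
    obtain ⟨w, hw⟩ := (hf g).exists_left_inv
    have : w = v g := by rw [← mul_one w, ← hv g, ← mul_assoc, hw, one_mul]
    rw [← this, hw]
  let e : G → G → A := fun g h => c g h * v h
  have he : ∀ g h, f (g * h) * v h = f g + q • e g h := fun g h => by
    rw [sub_eq_iff_eq_add'.1 (hc g h), add_mul, mul_assoc, hv, mul_one, smul_mul_assoc]
  have avg : ∀ a : A, u • ∑ _h : G, a = a := fun a => by
    rw [sum_const, card_univ, ← Nat.cast_smul_eq_nsmul R, smul_smul, hu, one_smul]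
  let E : G → A := fun g => u • ∑ h, e g h
  have hE : ∀ g, f g + q • E g = u • ∑ h, f (g * h) * v h := fun g => by
    simp only [he, sum_add_distrib, smul_add, avg, E, ← smul_sum, smul_comm q u]
  refine ⟨E, fun g h => u • ∑ l, e g (h * l) * e h l - E g * E h, fun g h => ?_⟩
  have h1 : ∀ l, f (g * h * l) * v l = f g * f h + q • (f g * e h l) + q • (e g (h * l) * f h) +
      (q * q) • (e g (h * l) * e h l) := fun l => by
    have : f (g * h * l) * v l = (f (g * (h * l)) * v (h * l)) * (f (h * l) * v l) := by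
      rw [mul_assoc g, mul_assoc, ← mul_assoc (v _), hv', one_mul]
    rw [this, he, he]
    simp only [add_mul, mul_add, smul_mul_assoc, mul_smul_comm]
    module
  have h2 : ∑ l, e g (h * l) = ∑ l, e g l := Fintype.sum_equiv (Equiv.mulLeft h) _ _ fun _ => rfl
  rw [hE (g * h)]
  simp only [h1, sum_add_distrib, smul_add, avg]
  simp only [← smul_sum, ← mul_sum, ← sum_mul, h2]
  simp only [E, add_mul, mul_add, smul_mul_assoc, mul_smul_comm, smul_smul, smul_sub]
  module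

theorem Hensel_map {p : ℕ} [Fact p.Prime] {n : ℕ} (x : Matrix (Fin n) (Fin n) ℤ_[p]) :
    x.map PadicInt.toZMod = 0 ↔ ∃ z : Matrix (Fin n) (Fin n) ℤ_[p], (p : ℤ_[p]) • z = x := by
  have key : ∀ a : ℤ_[p], PadicInt.toZMod a = 0 ↔ ∃ b, (p : ℤ_[p]) * b = a := fun a => by
    rw [← RingHom.mem_ker, PadicInt.ker_toZMod, PadicInt.maximalIdeal_eq_span_p,
      Ideal.mem_span_singleton]
    exact exists_congr fun b => eq_comm
  constructor
  · intro h
    choose z hz using fun i j => (key (x i j)).1 (congrFun (congrFun h i) j)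
    exact ⟨Matrix.of z, by ext i j; exact hz i j⟩
  · rintro ⟨z, rfl⟩
    ext i j
    exact (key _).2 ⟨z i j, rfl⟩

theorem Hensel_unit {p : ℕ} [Fact p.Prime] {n : ℕ} (x : Matrix (Fin n) (Fin n) ℤ_[p])
    (h : IsUnit (x.map PadicInt.toZMod)) : IsUnit x := by
  rw [Matrix.isUnit_iff_isUnit_det] at *
  by_contra hx
  have : x.det ∈ RingHom.ker (PadicInt.toZMod (p := p)) := by
    rw [PadicInt.ker_toZMod]; exact hx
  rw [RingHom.mem_ker, RingHom.map_det] at this
  exact h.ne_zero this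

theorem Hensel_zero {p : ℕ} [Fact p.Prime] {n : ℕ} (x : Matrix (Fin n) (Fin n) ℤ_[p])
    (h : ∀ k : ℕ, ∃ z : Matrix (Fin n) (Fin n) ℤ_[p], (p : ℤ_[p]) ^ (k + 1) • z = x) : x = 0 := by
  ext i j
  have h1 : x i j ∈ ⨅ k : ℕ, (IsLocalRing.maximalIdeal ℤ_[p]) ^ k := by
    refine Ideal.mem_iInf.2 fun k => ?_
    obtain ⟨z, rfl⟩ := h k
    rw [PadicInt.maximalIdeal_eq_span_p, Ideal.span_singleton_pow, Ideal.mem_span_singleton]
    exact ⟨p * z i j, by simp [pow_succ, mul_assoc]⟩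
  rwa [Ideal.iInf_pow_eq_bot_of_isLocalRing _ (IsLocalRing.maximalIdeal.isMaximal _).ne_top] at h1

theorem hensel_lift {p : ℕ} [Fact p.Prime] {G : Type*} [Group G] [Finite G]
    (hp : ¬ p ∣ Nat.card G) {n : ℕ} (ρ : G →* Matrix (Fin n) (Fin n) (ZMod p)) :
    ∃ σ : G →* Matrix (Fin n) (Fin n) ℤ_[p], ∀ g, (σ g).map PadicInt.toZMod = ρ g := by
  classical
  have := Fintype.ofFinite G
  have : CompactSpace (Matrix (Fin n) (Fin n) ℤ_[p]) :=
    inferInstanceAs (CompactSpace (Fin n → Fin n → ℤ_[p]))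
  obtain ⟨u, hu⟩ : ∃ u : ℤ_[p], u * (Fintype.card G : ℤ_[p]) = 1 := by
    refine IsUnit.exists_left_inv ?_
    rw [PadicInt.isUnit_iff, PadicInt.norm_natCast_eq_one_iff, ← Nat.card_eq_fintype_card]
    exact (Nat.Prime.coprime_iff_not_dvd Fact.out).2 hp
  obtain ⟨s, hs⟩ := (ZMod.ringHom_surjective (PadicInt.toZMod (p := p))).hasRightInverse
  let F : Matrix (Fin n) (Fin n) ℤ_[p] →+* Matrix (Fin n) (Fin n) (ZMod p) :=
    PadicInt.toZMod.mapMatrix
  have hF : ∀ x, F x = x.map PadicInt.toZMod := fun _ => rfl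
  let f0 : G → Matrix (Fin n) (Fin n) ℤ_[p] := fun g => (ρ g).map s
  have hf0 : ∀ g, F (f0 g) = ρ g := fun g => by ext i j; exact hs _
  let D : ℤ_[p] → Set (Matrix (Fin n) (Fin n) ℤ_[p]) := fun q => Set.range fun z => q • z
  have hD : ∀ q, IsClosed (D q) := fun q => (isCompact_range (continuous_const_smul q)).isClosed
  let K : ℕ → Set (G → Matrix (Fin n) (Fin n) ℤ_[p]) := fun k =>
    (⋂ g, (fun f => f g - f0 g) ⁻¹' D p) ∩
      ⋂ g, ⋂ h, (fun f => f (g * h) - f g * f h) ⁻¹' D ((p : ℤ_[p]) ^ (k + 1))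
  have hK : ∀ k f, f ∈ K k ↔ (∀ g, F (f g) = ρ g) ∧
      ∀ g h, ∃ z, (p : ℤ_[p]) ^ (k + 1) • z = f (g * h) - f g * f h := fun k f => by
    simp only [K, Set.mem_inter_iff, Set.mem_iInter, Set.mem_preimage, D, Set.mem_range,
      ← Hensel_map, ← hF, map_sub, hf0, sub_eq_zero]
  have hcl : ∀ k, IsClosed (K k) := fun k =>
    (isClosed_iInter fun g => (hD _).preimage (by fun_prop)).inter
      (isClosed_iInter fun g => isClosed_iInter fun h => (hD _).preimage (by fun_prop))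
  have hun : ∀ f : G → Matrix (Fin n) (Fin n) ℤ_[p], (∀ g, F (f g) = ρ g) → ∀ g, IsUnit (f g) :=
    fun f hf g => Hensel_unit _ (by rw [← hF, hf]; exact (Group.isUnit g).map ρ)
  have hne : ∀ k, (K k).Nonempty := fun k => by
    induction k with
    | zero =>
      refine ⟨f0, (hK _ _).2 ⟨hf0, fun g h => ?_⟩⟩
      rw [zero_add, pow_one, ← Hensel_map, ← hF, map_sub, map_mul F, hf0, hf0, hf0, map_mul,
        sub_self]
    | succ k ih =>
      obtain ⟨f, hf⟩ := ih
      obtain ⟨h1, h2⟩ := (hK _ _).1 hf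
      choose c hc using h2
      obtain ⟨E, c', h3⟩ := Hensel_step u _ hu f (hun f h1) c fun g h => (hc g h).symm
      refine ⟨fun g => f g + (p : ℤ_[p]) ^ (k + 1) • E g, (hK _ _).2 ⟨fun g => ?_, fun g h => ?_⟩⟩
      · rw [map_add, h1, hF, (Hensel_map _).2 ⟨(p : ℤ_[p]) ^ k • E g, by
          rw [smul_smul, ← pow_succ']⟩, add_zero]
      · refine ⟨(p : ℤ_[p]) ^ k • c' g h, ?_⟩
        rw [h3, smul_smul]
        congr 1
        ring
  obtain ⟨f, hf⟩ := IsCompact.nonempty_iInter_of_sequence_nonempty_isCompact_isClosed K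
    (fun k f hf => by
      obtain ⟨h1, h2⟩ := (hK _ _).1 hf
      refine (hK _ _).2 ⟨h1, fun g h => ?_⟩
      obtain ⟨z, hz⟩ := h2 g h
      exact ⟨(p : ℤ_[p]) • z, by rw [smul_smul, ← pow_succ, hz]⟩)
    hne (hcl 0).isCompact hcl
  have hf' := fun k => (hK k f).1 (Set.mem_iInter.1 hf k)
  have hmul : ∀ g h, f (g * h) = f g * f h := fun g h =>
    sub_eq_zero.1 (Hensel_zero _ fun k => (hf' k).2 g h)
  have hone : f 1 = 1 := (hun f (hf' 0).1 1).mul_left_cancel (by rw [← hmul, mul_one, mul_one])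
  exact ⟨⟨⟨f, hone⟩, hmul⟩, (hf' 0).1⟩

end Pool.Agent.KGV
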