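import Pool.Agent.P.MP_9e9a11_al.Defs
import Pool.Agent.P.MP_9e9a11_al.Cyc

namespace Pool.Agent.KGV

open Finset Matrix

variable {p D : ℕ} [Fact p.Prime]

theorem Int_orb_dvd {G Y : Type*} [Group G] [Fintype G] [MulAction G Y] [DecidableEq Y]
    (F : Y → ℤ) (hF : ∀ (g : G) y, F (g • y) = F y) (T : Finset Y)
    (hT : ∀ (g : G), ∀ y ∈ T, g • y ∈ T)
    (hd : ∀ y ∈ T, (Nat.card (MulAction.stabilizer G y) : ℤ) ∣ F y) :
    (Nat.card G : ℤ) ∣ ∑ y ∈ T, F y := by
  induction T using Finset.strongInduction with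
  | H T ih =>
    rcases T.eq_empty_or_nonempty with rfl | ⟨y, hy⟩
    · simp
    set O : Finset Y := univ.image (fun g : G => g • y) with hO
    have hOT : O ⊆ T := by
      intro z hz
      obtain ⟨g, -, rfl⟩ := mem_image.1 hz
      exact hT g y hy
    have hyO : y ∈ O := mem_image.2 ⟨1, mem_univ _, one_smul _ _⟩
    rw [← sum_sdiff hOT]
    refine dvd_add (ih _ (sdiff_ssubset hOT ⟨y, hyO⟩) ?_ ?_) ?_
    · intro g z hz
      rw [mem_sdiff] at hz ⊢
      refine ⟨hT g z hz.1, fun h => hz.2 ?_⟩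
      obtain ⟨g', -, e⟩ := mem_image.1 h
      exact mem_image.2 ⟨g⁻¹ * g', mem_univ _, by rw [mul_smul, e, inv_smul_smul]⟩
    · intro z hz
      exact hd z (mem_sdiff.1 hz).1
    · have e1 : ∑ z ∈ O, F z = (O.card : ℤ) * F y := by
        rw [sum_congr rfl (g := fun _ => F y), sum_const, nsmul_eq_mul]
        intro z hz
        obtain ⟨g, -, rfl⟩ := mem_image.1 hz
        exact hF g y
      have e2 : (MulAction.orbit G y).ncard = O.card := by
        rw [← Set.ncard_coe_finset]
        congr 1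
        ext z
        simp [hO, MulAction.mem_orbit_iff]
      have e3 := (MulAction.stabilizer G y).index_mul_card
      rw [MulAction.index_stabilizer, e2] at e3
      rw [e1, ← e3, Nat.cast_mul]
      exact mul_dvd_mul_left _ (hd y hy)

theorem Int_sub_dvd {G : Type*} [Group G] [Fintype G] (H : Subgroup G) (q : G → ℤ)
    (hq : ∀ s ∈ H, ∀ w, q (s * w) = q w) : (Nat.card H : ℤ) ∣ ∑ w, q w := by
  classical
  refine Int_orb_dvd (G := H) q (fun g y => hq g g.2 y) univ (fun _ _ _ => mem_univ _) ?_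
  intro y _
  have : MulAction.stabilizer H y = ⊥ := by
    rw [eq_bot_iff]
    intro g hg
    have h1 : (g : G) * y = y := hg
    exact Subgroup.mem_bot.2 (Subtype.ext (mul_eq_right.1 h1))
  rw [this]
  simp

theorem Int_SS_iff {ι : Type*} (hD0 : 0 < D) (w : Equiv.Perm ι) (hw : w ^ D = 1)
    (a β : ι → ℕ) :
    SS p D w a = β ↔ ∀ i, p * β i = β (w i) + (p ^ D - 1) * a i := by
  constructor
  · rintro rfl i
    exact SS_rec w hw a i
  · intro h
    have h1 : ∀ i, (p : ℤ) * ((SS p D w a i : ℤ) - β i)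
        = (SS p D w a (w i) : ℤ) - β (w i) := by
      intro i
      have e1 := SS_rec (p := p) w hw a i
      have e2 := h i
      generalize p ^ D - 1 = N at e1 e2
      have e1' := congrArg (Nat.cast : ℕ → ℤ) e1
      have e2' := congrArg (Nat.cast : ℕ → ℤ) e2
      push_cast at e1' e2'
      linear_combination e1' - e2'
    have h2 : ∀ k i, (p : ℤ) ^ k * ((SS p D w a i : ℤ) - β i)
        = (SS p D w a ((w ^ k) i) : ℤ) - β ((w ^ k) i) := by
      intro k
      induction k with
      | zero => intro i; simp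
      | succ k ih =>
        intro i
        rw [pow_succ', mul_assoc, ih i, h1, pow_succ', Equiv.Perm.mul_apply]
    funext i
    have h3 := h2 D i
    rw [hw, Equiv.Perm.one_apply] at h3
    have h4 : (1 : ℤ) < (p : ℤ) ^ D := by
      exact_mod_cast Nat.one_lt_pow hD0.ne' (Fact.out : p.Prime).one_lt
    have h5 : ((p : ℤ) ^ D - 1) * ((SS p D w a i : ℤ) - β i) = 0 := by linear_combination h3
    rcases mul_eq_zero.1 h5 with h6 | h6
    · omega
    · omega

omit [Fact p.Prime] in
theorem Int_SS_conj {ι : Type*} (u w : Equiv.Perm ι) (a : ι →₀ ℕ) :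
    SS p D (u * w * u⁻¹) (a.mapDomain u) = fun i => SS p D w a (u⁻¹ i) := by
  funext i
  unfold SS
  refine sum_congr rfl fun k _ => ?_
  rw [conj_pow, Finsupp.mapDomain_equiv_apply]
  simp [Equiv.Perm.mul_apply]

theorem fact_dvd {n : ℕ} (hD0 : 0 < D) (hD : n.factorial ∣ D) (h : MvPolynomial (Fin n) ℤ)
    (hh : h.IsSymmetric) (Φ : (Fin n → ℕ) → ℤ)
    (hΦ : ∀ (b : Fin n → ℕ) (u : Equiv.Perm (Fin n)), Φ (b ∘ u) = Φ b) :
    (n.factorial : ℤ) ∣
      ∑ w : Equiv.Perm (Fin n), ∑ a ∈ h.support, h.coeff a * Φ (SS p D w a) := by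
  classical
  let _ : MulAction (Equiv.Perm (Fin n)) (Fin n → ℕ) := arrowAction
  have hsm : ∀ (u : Equiv.Perm (Fin n)) (β : Fin n → ℕ), u • β = fun i => β (u⁻¹ i) :=
    fun _ _ => rfl
  have hw : ∀ w : Equiv.Perm (Fin n), w ^ D = 1 := fun w =>
    pow_D_eq_one hD (Fintype.card_fin n).le w
  have hco : ∀ (u : Equiv.Perm (Fin n)) (a : Fin n →₀ ℕ), h.coeff (a.mapDomain u) = h.coeff a := by
    intro u a
    have := MvPolynomial.coeff_rename_mapDomain u u.injective h a
    rwa [hh u] at this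
  have hsupp : ∀ (u : Equiv.Perm (Fin n)), ∀ a ∈ h.support, a.mapDomain u ∈ h.support := by
    intro u a ha
    rw [MvPolynomial.mem_support_iff] at ha ⊢
    rwa [hco]
  set T : Finset (Fin n → ℕ) :=
    (univ ×ˢ h.support).image
      (fun x : Equiv.Perm (Fin n) × (Fin n →₀ ℕ) => SS p D x.1 x.2) with hT
  set Q : (Fin n → ℕ) → ℤ := fun β =>
    ∑ w : Equiv.Perm (Fin n), ∑ a ∈ h.support, if SS p D w a = β then h.coeff a else 0 with hQ
  have e1 : ∑ w : Equiv.Perm (Fin n), ∑ a ∈ h.support, h.coeff a * Φ (SS p D w a)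
      = ∑ β ∈ T, Q β * Φ β := by
    simp only [hQ, sum_mul]
    rw [sum_comm (s := T)]
    refine sum_congr rfl fun w _ => ?_
    rw [sum_comm (s := T)]
    refine sum_congr rfl fun a ha => ?_
    simp only [ite_mul, zero_mul]
    rw [sum_ite_eq, if_pos]
    exact mem_image.2 ⟨(w, a), mem_product.2 ⟨mem_univ _, ha⟩, rfl⟩
  have hQi : ∀ (u : Equiv.Perm (Fin n)) (β : Fin n → ℕ), Q (u • β) = Q β := by
    intro u β
    simp only [hQ]
    symm
    refine Fintype.sum_equiv (MulAut.conj u).toEquiv _ _ fun w => ?_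
    refine sum_nbij' (fun a => a.mapDomain u) (fun a => a.mapDomain (u⁻¹ : Equiv.Perm (Fin n)))
      (fun a ha => hsupp u a ha) (fun a ha => hsupp u⁻¹ a ha) ?_ ?_ ?_
    · intro a _
      rw [← Finsupp.mapDomain_comp]
      simp
    · intro a _
      rw [← Finsupp.mapDomain_comp]
      simp
    · intro a _
      have e : SS p D ((MulAut.conj u).toEquiv w) (a.mapDomain u) = u • SS p D w a :=
        Int_SS_conj u w a
      rw [e, hco]
      by_cases hb : SS p D w a = β
      · rw [if_pos hb, if_pos (by rw [hb])]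
      · rw [if_neg hb, if_neg (fun h' => hb (MulAction.injective u h'))]
  rw [e1]
  have e2 : Nat.card (Equiv.Perm (Fin n)) = n.factorial := by
    rw [Nat.card_eq_fintype_card, Fintype.card_perm, Fintype.card_fin]
  rw [← e2]
  refine Int_orb_dvd (fun β => Q β * Φ β) (fun u β => ?_) T (fun u β hβ => ?_) (fun β _ => ?_)
  · show Q (u • β) * Φ (u • β) = Q β * Φ β
    rw [hQi]
    exact congrArg _ (hΦ β u⁻¹)
  · obtain ⟨⟨w, a⟩, hx, rfl⟩ := mem_image.1 hβ
    exact mem_image.2 ⟨(u * w * u⁻¹, a.mapDomain u),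
      mem_product.2 ⟨mem_univ _, hsupp u a (mem_product.1 hx).2⟩, Int_SS_conj u w a⟩
  · refine Dvd.dvd.mul_right ?_ _
    refine Int_sub_dvd _ _ fun s hs w => ?_
    have hs' : ∀ i, β (s i) = β i := by
      intro i
      have h1 : s • β = β := hs
      have h2 := congrFun h1 (s i)
      rw [hsm] at h2
      simpa using h2.symm
    refine sum_congr rfl fun a _ => ?_
    have e : SS p D (s * w) a = β ↔ SS p D w a = β := by
      rw [Int_SS_iff hD0 _ (hw _), Int_SS_iff hD0 _ (hw _)]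
      simp only [Equiv.Perm.mul_apply, hs']
    by_cases hb : SS p D w a = β
    · rw [if_pos hb, if_pos (e.2 hb)]
    · rw [if_neg hb, if_neg (fun h' => hb (e.1 h'))]

end Pool.Agent.KGV
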