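import Pool.Agent.P.MP_9e9a11_al.Defs
import Pool.Agent.P.MP_9e9a11_al.Stab
import Pool.Agent.P.MP_9e9a11_al.Gram
import Pool.Agent.P.MP_9e9a11_al.Int

namespace Pool.Agent.KGV

open Finset Matrix

variable {p D : ℕ} [Fact p.Prime]

/-- The tuple of roots of unity attached to a permutation and a vector. -/
noncomputable def keyX (p D : ℕ) {m : ℕ} (w : Equiv.Perm (Fin m)) (c : Fin m → Fin (p ^ D - 1))
    (i : Fin m) : ℂ :=
  rt (p ^ D - 1) ^ SS p D w⁻¹ (fun i => (c i : ℕ)) i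

/-- The signed sum of a function of the multiset times a polynomial in the tuple. -/
noncomputable def keyT (p D : ℕ) {m : ℕ} (H : Multiset ℂ → ℂ) (h : MvPolynomial (Fin m) ℤ) : ℂ :=
  ∑ w : Equiv.Perm (Fin m), ((Equiv.Perm.sign w : ℤ) : ℂ) *
    ∑ c : Fin m → Fin (p ^ D - 1),
      H (univ.val.map (keyX p D w c)) * MvPolynomial.aeval (keyX p D w c) h

theorem key_N_pos (hD0 : 0 < D) : 0 < p ^ D - 1 := by
  have h1 : 1 < p := (Fact.out : p.Prime).one_lt
  have := Nat.one_lt_pow hD0.ne' h1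
  omega

theorem key_prim {N : ℕ} (hN : 0 < N) : IsPrimitiveRoot (rt N) N :=
  Complex.isPrimitiveRoot_exp N hN.ne'

theorem keyX_stable {m : ℕ} (hD0 : 0 < D) (hD : m.factorial ∣ D) (w : Equiv.Perm (Fin m))
    (c : Fin m → Fin (p ^ D - 1)) : Stable p (univ.val.map (keyX p D w c)) := by
  have hw : w⁻¹ ^ D = 1 := pow_D_eq_one hD (by simp) w⁻¹
  have hN := key_prim (key_N_pos (p := p) hD0)
  have h1 : ∀ i, keyX p D w c i ^ p = keyX p D w c (w⁻¹ i) := by
    intro i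
    unfold keyX
    rw [← pow_mul, mul_comm, SS_rec w⁻¹ hw, pow_add, pow_mul, hN.pow_eq_one, one_pow, mul_one]
  unfold Stable
  rw [Multiset.map_map]
  have h2 : ((fun x : ℂ => x ^ p) ∘ keyX p D w c) = keyX p D w c ∘ (w⁻¹ : Equiv.Perm (Fin m)) := by
    funext i
    exact h1 i
  rw [h2, ← Multiset.map_map, Multiset.map_univ_val_equiv]

theorem keyX_ne_zero {m : ℕ} (hD0 : 0 < D) (w : Equiv.Perm (Fin m))
    (c : Fin m → Fin (p ^ D - 1)) : (0 : ℂ) ∉ univ.val.map (keyX p D w c) := by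
  intro h
  obtain ⟨i, -, hi⟩ := Multiset.mem_map.1 h
  have hN0 := key_N_pos (p := p) hD0
  exact pow_ne_zero _ ((key_prim hN0).ne_zero hN0.ne') hi

omit [Fact p.Prime] in
theorem keyX_aeval {m : ℕ} (w : Equiv.Perm (Fin m)) (c : Fin m → Fin (p ^ D - 1))
    (h : MvPolynomial (Fin m) ℤ) :
    MvPolynomial.aeval (keyX p D w c) h = ∑ a ∈ h.support, ((h.coeff a : ℤ) : ℂ) *
      rt (p ^ D - 1) ^ (∑ i, a i * SS p D w⁻¹ (fun i => (c i : ℕ)) i) := by
  rw [MvPolynomial.aeval_def, MvPolynomial.eval₂_eq']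
  refine sum_congr rfl fun a _ => ?_
  congr 1
  rw [← prod_pow_eq_pow_sum]
  refine prod_congr rfl fun i _ => ?_
  unfold keyX
  rw [← pow_mul, mul_comm]

theorem key_geom {N : ℕ} (hN : 0 < N) (b : ℕ) :
    ∑ t : Fin N, (rt N ^ b) ^ (t : ℕ) = if N ∣ b then (N : ℂ) else 0 := by
  have hprim := key_prim hN
  rw [Fin.sum_univ_eq_sum_range (fun t => (rt N ^ b) ^ t) N]
  split_ifs with hb
  · rw [(hprim.pow_eq_one_iff_dvd b).2 hb]
    simp
  · have hne : rt N ^ b ≠ 1 := fun h => hb ((hprim.pow_eq_one_iff_dvd b).1 h)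
    have h1 : (rt N ^ b) ^ N = 1 := by
      rw [← pow_mul, mul_comm, pow_mul, hprim.pow_eq_one, one_pow]
    rw [geom_sum_eq hne, h1, sub_self, zero_div]

theorem key_sum_mono {m : ℕ} (hD0 : 0 < D) (w : Equiv.Perm (Fin m)) (a : Fin m → ℕ) :
    ∑ c : Fin m → Fin (p ^ D - 1),
        rt (p ^ D - 1) ^ (∑ i, a i * SS p D w⁻¹ (fun i => (c i : ℕ)) i) =
      ((p ^ D - 1 : ℕ) : ℂ) ^ m * if ∀ i, (p ^ D - 1) ∣ SS p D w a i then 1 else 0 := by
  have hN := key_N_pos (p := p) hD0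
  have h1 : ∀ c : Fin m → Fin (p ^ D - 1),
      rt (p ^ D - 1) ^ (∑ i, a i * SS p D w⁻¹ (fun i => (c i : ℕ)) i) =
        ∏ i, (rt (p ^ D - 1) ^ SS p D w a i) ^ (c i : ℕ) := by
    intro c
    rw [SS_adj, ← prod_pow_eq_pow_sum]
    exact prod_congr rfl fun i _ => pow_mul _ _ _
  simp_rw [h1]
  rw [← Fintype.prod_sum (fun (i : Fin m) (t : Fin (p ^ D - 1)) =>
    (rt (p ^ D - 1) ^ SS p D w a i) ^ (t : ℕ))]
  simp_rw [key_geom hN]
  split_ifs with hall
  · rw [prod_congr rfl fun i _ => if_pos (hall i)]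
    simp
  · push Not at hall
    obtain ⟨i, hi⟩ := hall
    rw [prod_eq_zero (mem_univ i) (if_neg hi), mul_zero]

theorem keyT_one {m : ℕ} (hD0 : 0 < D) (h : MvPolynomial (Fin m) ℤ) :
    keyT p D (fun _ => 1) h = ((p ^ D - 1 : ℕ) : ℂ) ^ m * ((tauP p D h : ℤ) : ℂ) := by
  unfold keyT tauP
  push_cast
  rw [mul_sum]
  refine sum_congr rfl fun w _ => ?_
  simp_rw [one_mul, keyX_aeval]
  rw [sum_comm, mul_left_comm]
  congr 1
  rw [mul_sum]
  refine sum_congr rfl fun a _ => ?_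
  rw [← mul_sum, key_sum_mono hD0, mul_left_comm]

theorem keyT_alpha {m : ℕ} (hD0 : 0 < D) (hD : m.factorial ∣ D) {α : ZMod p → Multiset ℂ → ℂ}
    (hα : IsAlpha p D m α) (h : MvPolynomial (Fin m) ℤ) (hh : h.IsSymmetric) :
    ∃ Λ : ZMod p → ℤ, ∀ j : ZMod p, j ≠ 0 → keyT p D (α j) h =
      ((p ^ D - 1 : ℕ) : ℂ) ^ m * (m.factorial : ℂ) *
        ∑ i : ZMod p, rt p ^ (i * j).val * (Λ i : ℂ) := by
  have hBig : Big m D := ⟨hD0, fun e he hem => (Nat.dvd_factorial he hem).trans hD⟩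
  set g : GaloisField p D := (((gam p D)⁻¹ : (GaloisField p D)ˣ) : GaloisField p D) with hg
  have hdvd : ∀ i : ZMod p, (m.factorial : ℤ) ∣ ∑ w : Equiv.Perm (Fin m), ∑ a ∈ h.support,
      h.coeff a * (fun b : Fin m → ℕ => if lam p D (∑ k, g ^ b k) = i then (1 : ℤ) else 0)
        (SS p D w a) := by
    intro i
    refine fact_dvd (p := p) hD0 hD h hh
      (fun b : Fin m → ℕ => if lam p D (∑ k, g ^ b k) = i then (1 : ℤ) else 0) fun b u => ?_
    have : ∑ k, g ^ (b ∘ u) k = ∑ k, g ^ b k := Equiv.sum_comp u fun k => g ^ b k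
    simp only [this]
  choose Λ hΛ using hdvd
  refine ⟨fun i => (-1) ^ m * Λ i, fun j hj => ?_⟩
  have hPsi : ∀ x : GaloisField p D, Psi p D j x =
      ∑ i : ZMod p, rt p ^ (i * j).val * if lam p D x = i then 1 else 0 := by
    intro x
    rw [sum_eq_single (lam p D x)]
    · simp [Psi, mul_comm]
    · intro i _ hi
      rw [if_neg (Ne.symm hi), mul_zero]
    · simp
  have h1 : keyT p D (α j) h = (-1) ^ m * ((p ^ D - 1 : ℕ) : ℂ) ^ m *
      ∑ w : Equiv.Perm (Fin m), ∑ a ∈ h.support, ((h.coeff a : ℤ) : ℂ) *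
        Psi p D j (∑ k, g ^ SS p D w a k) := by
    unfold keyT
    rw [mul_sum]
    refine sum_congr rfl fun w _ => ?_
    simp_rw [keyX_aeval, mul_sum]
    rw [sum_comm]
    refine sum_congr rfl fun a _ => ?_
    have hc := cyc_formula hBig hα hj (Fin m) (by simp) w a
    rw [Fintype.card_fin] at hc
    rw [mul_left_comm, ← hc, mul_sum, mul_sum]
    refine sum_congr rfl fun c _ => ?_
    unfold keyX
    ring
  have h2 : ∀ i : ZMod p, ∑ w : Equiv.Perm (Fin m), ∑ a ∈ h.support, ((h.coeff a : ℤ) : ℂ) *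
      (if lam p D (∑ k, g ^ SS p D w a k) = i then 1 else 0) = (m.factorial : ℂ) * (Λ i : ℂ) := by
    intro i
    have := congrArg (Int.cast : ℤ → ℂ) (hΛ i)
    push_cast at this
    exact this
  have h3 : ∑ w : Equiv.Perm (Fin m), ∑ a ∈ h.support, ((h.coeff a : ℤ) : ℂ) *
      Psi p D j (∑ k, g ^ SS p D w a k) =
      ∑ i : ZMod p, rt p ^ (i * j).val * ((m.factorial : ℂ) * (Λ i : ℂ)) := by
    simp_rw [← h2, hPsi, mul_sum]
    rw [sum_comm (s := (univ : Finset (ZMod p)))]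
    refine sum_congr rfl fun w _ => ?_
    rw [sum_comm]
    refine sum_congr rfl fun i _ => sum_congr rfl fun a _ => ?_
    ring
  rw [h1, h3, mul_sum, mul_sum]
  refine sum_congr rfl fun i _ => ?_
  push_cast
  ring

theorem key_ee_symm {m : ℕ} (c : Fin m → ℕ) : (ee c).IsSymmetric := by
  rw [← MvPolynomial.mem_symmetricSubalgebra]
  unfold ee
  refine prod_mem fun k _ => pow_mem ?_ _
  rw [MvPolynomial.mem_symmetricSubalgebra]
  exact MvPolynomial.esymm_isSymmetric _ _ _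

theorem key_ee_add {m : ℕ} (a b : Fin m → ℕ) : ee (fun k => a k + b k) = ee a * ee b := by
  unfold ee
  rw [← prod_mul_distrib]
  exact prod_congr rfl fun k _ => pow_add _ _ _

theorem key_aeval_ee {m : ℕ} (x : Fin m → ℂ) (a : Fin m → ℕ) :
    MvPolynomial.aeval x (ee a) = ∏ k : Fin m, (univ.val.map x).esymm (k + 1) ^ a k := by
  unfold ee
  rw [map_prod]
  refine prod_congr rfl fun k _ => ?_
  rw [map_pow, MvPolynomial.aeval_esymm_eq_multiset_esymm]

omit [Fact p.Prime] in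
theorem keyT_ee {m : ℕ} (a b : Fin m → ℕ) :
    keyT p D (fun Y => ∏ k : Fin m, Y.esymm (k + 1) ^ a k) (ee b) =
      keyT p D (fun _ => 1) (ee fun k => a k + b k) := by
  unfold keyT
  refine sum_congr rfl fun w _ => ?_
  congr 1
  refine sum_congr rfl fun c _ => ?_
  rw [key_ee_add, map_mul, key_aeval_ee _ a, one_mul]

omit [Fact p.Prime] in
theorem keyT_sum {m : ℕ} {ι : Type*} [Fintype ι] (v : ι → ℂ) (H : ι → Multiset ℂ → ℂ)
    (h : MvPolynomial (Fin m) ℤ) :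
    keyT p D (fun Y => ∑ a, v a * H a Y) h = ∑ a, v a * keyT p D (H a) h := by
  unfold keyT
  simp_rw [mul_sum, sum_mul]
  rw [sum_comm (s := (univ : Finset ι))]
  refine sum_congr rfl fun w _ => ?_
  rw [sum_comm (s := (univ : Finset ι))]
  refine sum_congr rfl fun c _ => ?_
  rw [mul_sum]
  refine sum_congr rfl fun a _ => ?_
  ring

/-- A function on stable multisets is determined by its pairings with the basis. -/
theorem key_inj {n : ℕ} (hD0 : 0 < D) (hD : (n + 1).factorial ∣ D) (H H' : Multiset ℂ → ℂ)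
    (hH : ∀ a' : Idx p n, keyT p D H (ee fun k => p - 1 - (a'.1 k : ℕ)) =
      keyT p D H' (ee fun k => p - 1 - (a'.1 k : ℕ))) :
    ∀ Y : Multiset ℂ, Stable p Y → (0 : ℂ) ∉ Y → Y.card = n + 1 → H Y = H' Y := by
  have hBig : Big (n + 1) D := ⟨hD0, fun e he hem => (Nat.dvd_factorial he hem).trans hD⟩
  obtain ⟨s, hs, hmem⟩ := count_stable (p := p) hBig
  obtain ⟨Γ, hΓ, hgram⟩ := gram (p := p) hD0 hD
  have hY : ∀ (w : Equiv.Perm (Fin (n + 1))) (c : Fin (n + 1) → Fin (p ^ D - 1)),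
      univ.val.map (keyX p D w c) ∈ s := fun w c =>
    (hmem _).2 ⟨keyX_stable hD0 hD w c, keyX_ne_zero hD0 w c, by simp⟩
  let L : (s → ℂ) →ₗ[ℂ] (Idx p n → ℂ) :=
    { toFun := fun F a' => ∑ w : Equiv.Perm (Fin (n + 1)), ((Equiv.Perm.sign w : ℤ) : ℂ) *
        ∑ c : Fin (n + 1) → Fin (p ^ D - 1), F ⟨_, hY w c⟩ *
          MvPolynomial.aeval (keyX p D w c) (ee fun k => p - 1 - (a'.1 k : ℕ))
      map_add' := by
        intro F G
        funext a'
        simp only [Pi.add_apply, add_mul, sum_add_distrib, mul_add]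
      map_smul' := by
        intro r F
        funext a'
        simp only [Pi.smul_apply, smul_eq_mul, RingHom.id_apply, mul_sum]
        refine sum_congr rfl fun w _ => sum_congr rfl fun c _ => ?_
        ring }
  have hL : ∀ (K : Multiset ℂ → ℂ) (a' : Idx p n),
      L (fun Y => K Y.1) a' = keyT p D K (ee fun k => p - 1 - (a'.1 k : ℕ)) := fun K a' => rfl
  have hN : ((p ^ D - 1 : ℕ) : ℂ) ≠ 0 := Nat.cast_ne_zero.2 (key_N_pos (p := p) hD0).ne'
  have hfac : (((n + 1).factorial : ℕ) : ℂ) ≠ 0 := Nat.cast_ne_zero.2 (Nat.factorial_ne_zero _)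
  have hsurj : Function.Surjective L := by
    intro t
    have hΓ' : IsUnit (Γ.map (Int.cast : ℤ → ℂ)).det := by
      have := hΓ.map (Int.castRingHom ℂ)
      rwa [RingHom.map_det] at this
    set κ : ℂ := ((p ^ D - 1 : ℕ) : ℂ) ^ (n + 1) * (((n + 1).factorial : ℕ) : ℂ) with hκ
    have hκ0 : κ ≠ 0 := mul_ne_zero (pow_ne_zero _ hN) hfac
    set v : Idx p n → ℂ := (κ⁻¹ • t) ᵥ* (Γ.map (Int.cast : ℤ → ℂ))⁻¹ with hv
    have hvΓ : v ᵥ* Γ.map (Int.cast : ℤ → ℂ) = κ⁻¹ • t := by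
      rw [hv, vecMul_vecMul, nonsing_inv_mul _ hΓ', vecMul_one]
    refine ⟨fun Y => ∑ a : Idx p n, v a * ∏ k : Fin (n + 1), Y.1.esymm (k + 1) ^ (a.1 k : ℕ), ?_⟩
    funext a'
    rw [hL (fun Y => ∑ a : Idx p n, v a * ∏ k : Fin (n + 1), Y.esymm (k + 1) ^ (a.1 k : ℕ)),
      keyT_sum v (fun (a : Idx p n) Y => ∏ k : Fin (n + 1), Y.esymm (k + 1) ^ (a.1 k : ℕ))]
    simp_rw [keyT_ee, keyT_one hD0, hgram]
    have h1 := congrFun hvΓ a'
    simp only [vecMul, dotProduct, map_apply, Pi.smul_apply, smul_eq_mul] at h1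
    have h2 : t a' = κ * ∑ a, v a * (Γ a a' : ℂ) := by
      rw [h1, ← mul_assoc, mul_inv_cancel₀ hκ0, one_mul]
    rw [h2, mul_sum]
    refine sum_congr rfl fun a _ => ?_
    rw [hκ]
    push_cast
    ring
  have hinj : Function.Injective L := by
    have h1 := LinearMap.finrank_range_add_finrank_ker L
    rw [LinearMap.range_eq_top.2 hsurj, finrank_top, Module.finrank_fintype_fun_eq_card,
      Module.finrank_fintype_fun_eq_card, Fintype.card_coe] at h1
    have h2 : Module.finrank ℂ (LinearMap.ker L) = 0 := by omega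
    exact LinearMap.ker_eq_bot.1 (Submodule.finrank_eq_zero.1 h2)
  have heq : (fun Y : s => H Y.1) = fun Y : s => H' Y.1 := by
    apply hinj
    funext a'
    rw [hL, hL, hH]
  intro Y h1 h2 h3
  exact congrFun heq ⟨Y, (hmem Y).2 ⟨h1, h2, h3⟩⟩

theorem key {n : ℕ} (hD0 : 0 < D) (hD : (n + 1).factorial ∣ D) {α : ZMod p → Multiset ℂ → ℂ}
    (hα : IsAlpha p D (n + 1) α) :
    ∃ P : ZMod p → MvPolynomial (Fin (n + 1)) ℤ, ∀ j : ZMod p, j ≠ 0 → ∀ Y : Multiset ℂ,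
      Stable p Y → (0 : ℂ) ∉ Y → Y.card = n + 1 →
        α j Y = ∑ i : ZMod p, rt p ^ (i * j).val *
          MvPolynomial.aeval (fun k : Fin (n + 1) => Y.esymm (k + 1)) (P i) := by
  obtain ⟨Γ, hΓ, hgram⟩ := gram (p := p) hD0 hD
  have hex := fun a' : Idx p n =>
    keyT_alpha hD0 hD hα (ee fun k => p - 1 - (a'.1 k : ℕ)) (key_ee_symm _)
  choose Λ hΛ using hex
  set cf : ZMod p → Idx p n → ℤ := fun i => (fun a' => Λ a' i) ᵥ* Γ⁻¹ with hcf
  have hcΓ : ∀ i a', ∑ a, cf i a * Γ a a' = Λ a' i := by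
    intro i a'
    have h1 : cf i ᵥ* Γ = fun a' => Λ a' i := by
      rw [hcf]
      simp only
      rw [vecMul_vecMul, nonsing_inv_mul _ hΓ, vecMul_one]
    exact congrFun h1 a'
  refine ⟨fun i => ∑ a : Idx p n, MvPolynomial.C (cf i a) *
    ∏ k : Fin (n + 1), MvPolynomial.X k ^ (a.1 k : ℕ), fun j hj => ?_⟩
  have hmain := key_inj hD0 hD (α j) (fun Y => ∑ a : Idx p n,
    (∑ i : ZMod p, rt p ^ (i * j).val * (cf i a : ℂ)) *
      ∏ k : Fin (n + 1), Y.esymm (k + 1) ^ (a.1 k : ℕ)) (by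
    intro a'
    rw [hΛ a' j hj, keyT_sum (fun a : Idx p n => ∑ i : ZMod p, rt p ^ (i * j).val * (cf i a : ℂ))
      (fun (a : Idx p n) Y => ∏ k : Fin (n + 1), Y.esymm (k + 1) ^ (a.1 k : ℕ))]
    simp_rw [keyT_ee, keyT_one hD0, hgram, ← hcΓ]
    push_cast
    simp_rw [mul_sum, sum_mul]
    rw [sum_comm]
    refine sum_congr rfl fun a _ => sum_congr rfl fun i _ => ?_
    ring)
  intro Y h1 h2 h3
  rw [hmain Y h1 h2 h3]
  simp_rw [map_sum, map_mul, map_prod, map_pow, MvPolynomial.aeval_X, MvPolynomial.aeval_C,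
    mul_sum, sum_mul]
  rw [sum_comm]
  refine sum_congr rfl fun i _ => sum_congr rfl fun a _ => ?_
  simp only [eq_intCast]
  ring

end Pool.Agent.KGV
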