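import Pool.Agent.P.MP_9e9a11_al.Defs

namespace Pool.Agent.KGV

open Finset Matrix

theorem liftB_card_padic (p : ℕ) [Fact p.Prime] : Cardinal.mk ℚ_[p] = Cardinal.continuum := by
  refine le_antisymm ?_ (continuum_le_cardinal_of_nontriviallyNormedField _)
  have h1 : Cardinal.mk ℚ_[p] ≤ Cardinal.mk (PadicSeq p) := Cardinal.mk_quotient_le
  have h2 : Cardinal.mk (PadicSeq p) ≤ Cardinal.mk (ℕ → ℚ) := Cardinal.mk_subtype_le _
  refine h1.trans (h2.trans ?_)
  simp

theorem exists_embed (p : ℕ) [Fact p.Prime] : ∃ κ : ℤ_[p] →+* ℂ, Function.Injective κ := by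
  have hc : Cardinal.mk (AlgebraicClosure ℚ_[p]) = Cardinal.continuum := by
    refine le_antisymm ?_ ?_
    · refine (Algebra.IsAlgebraic.cardinalMk_le_max ℚ_[p] _).trans ?_
      rw [liftB_card_padic]
      exact max_le le_rfl Cardinal.aleph0_le_continuum
    · rw [← liftB_card_padic p]
      exact Cardinal.mk_le_of_injective (algebraMap ℚ_[p] (AlgebraicClosure ℚ_[p])).injective
  obtain ⟨e⟩ := IsAlgClosed.ringEquiv_of_equiv_of_charZero (K := AlgebraicClosure ℚ_[p]) (L := ℂ)
    (hc ▸ Cardinal.aleph0_lt_continuum) (Cardinal.eq.1 (hc.trans Cardinal.mk_complex.symm))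
  exact ⟨(e.toRingHom.comp (algebraMap ℚ_[p] _)).comp PadicInt.Coe.ringHom,
    (e.toRingHom.comp (algebraMap ℚ_[p] _)).injective.comp Subtype.val_injective⟩

theorem liftB_inj {B F : Type*} [CommRing B] [IsDomain B] [Field F] (r : B →+* F) {N : ℕ}
    (hN : (N : F) ≠ 0) {x y : B} (hx : x ^ N = 1) (hy : y ^ N = 1) (h : r x = r y) : x = y := by
  by_contra hne
  have h1 := geom_sum₂_mul x y N
  rw [hx, hy, sub_self] at h1
  have h2 := congrArg r ((mul_eq_zero.1 h1).resolve_right (sub_ne_zero.2 hne))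
  have hN0 : N ≠ 0 := by rintro rfl; simp at hN
  have hy0 : r y ≠ 0 := fun h0 => by
    have := congrArg r hy
    rw [map_pow, h0, zero_pow hN0, map_one] at this
    exact zero_ne_one this
  rw [map_sum, map_zero, Finset.sum_congr rfl (g := fun _ => r y ^ (N - 1)) (fun i hi => by
    rw [map_mul, map_pow, map_pow, h, ← pow_add]
    congr 1
    have := Finset.mem_range.1 hi
    omega), Finset.sum_const, Finset.card_range, nsmul_eq_mul] at h2
  exact mul_ne_zero hN (pow_ne_zero _ hy0) h2

theorem liftB_count {B F : Type*} [DecidableEq B] [DecidableEq F] (r : B → F) (S : Set B)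
    (hS : Set.InjOn r S) (A : Multiset B) (hA : ∀ a ∈ A, a ∈ S) {x : B} (hx : x ∈ S) :
    (A.map r).count (r x) = A.count x := by
  rw [Multiset.count_map, Multiset.count_eq_card_filter_eq]
  congr 1
  exact Multiset.filter_congr fun a ha => ⟨fun h => hS hx (hA a ha) h, fun h => by rw [h]⟩

theorem liftB_map_inj {B F : Type*} (r : B → F) (S : Set B)
    (hS : Set.InjOn r S) (A A' : Multiset B) (hA : ∀ a ∈ A, a ∈ S) (hA' : ∀ a ∈ A', a ∈ S)
    (h : A.map r = A'.map r) : A = A' := by
  classical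
  ext x
  by_cases hx : x ∈ S
  · rw [← liftB_count r S hS A hA hx, ← liftB_count r S hS A' hA' hx, h]
  · rw [Multiset.count_eq_zero.2 fun hm => hx (hA x hm),
      Multiset.count_eq_zero.2 fun hm => hx (hA' x hm)]

theorem liftB_core {p : ℕ} [Fact p.Prime] {B F : Type*} [CommRing B] [IsDomain B] [DecidableEq B]
    [Field F] (r : B →+* F) (ι : ZMod p →+* F) {N : ℕ} (hN : ¬ p ∣ N) (g : Polynomial (ZMod p))
    (Y : Multiset B) (hY : ∀ y ∈ Y, y ^ N = 1)
    (hg : g.map ι = ((Y.map r).map fun a => Polynomial.X - Polynomial.C a).prod) :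
    Y.map (· ^ p) = Y ∧ Y.count 1 = g.rootMultiplicity 1 := by
  classical
  have : CharP F p := (RingHom.charP_iff_charP ι p).1 inferInstance
  have hN' : (N : F) ≠ 0 := fun h => hN ((CharP.cast_eq_zero_iff F p N).1 h)
  have hS : Set.InjOn r {y | y ^ N = 1} := fun x hx y hy h => liftB_inj r hN' hx hy h
  have hroots : (g.map ι).roots = Y.map r := by
    rw [hg, Polynomial.roots_multiset_prod_X_sub_C]
  refine ⟨liftB_map_inj r _ hS _ _ (fun a ha => ?_) hY ?_, ?_⟩
  · obtain ⟨y, hy, rfl⟩ := Multiset.mem_map.1 ha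
    change (y ^ p) ^ N = 1
    rw [← pow_mul, mul_comm, pow_mul, hY y hy, one_pow]
  · have h1 : (g.map ι).map (frobenius F p) = g.map ι := by
      rw [Polynomial.map_map, RingHom.ext_zmod ((frobenius F p).comp ι) ι]
    have h2 : (g.map ι).map (frobenius F p) =
        (((Y.map (· ^ p)).map r).map fun a => Polynomial.X - Polynomial.C a).prod := by
      rw [hg, Polynomial.map_multiset_prod]
      simp only [Multiset.map_map]
      congr 1
      refine Multiset.map_congr rfl fun y _ => ?_
      simp [frobenius_def]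
    rw [← hroots, ← h1, h2, Polynomial.roots_multiset_prod_X_sub_C]
  · rw [← liftB_count r _ hS Y hY (x := 1) (one_pow N), ← hroots, Polynomial.count_roots,
      Polynomial.eq_rootMultiplicity_map ι.injective, map_one, map_one]

theorem stable_of_lift {p : ℕ} [Fact p.Prime] (κ : ℤ_[p] →+* ℂ) (hκ : Function.Injective κ)
    {N : ℕ} (hN : ¬ p ∣ N) (f : Polynomial ℤ_[p]) (hf : f.Monic)
    (hr : ∀ y ∈ (f.map κ).roots, y ^ N = 1) :
    Stable p (f.map κ).roots ∧
      (f.map κ).roots.count 1 = (f.map PadicInt.toZMod).rootMultiplicity 1 := by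
  classical
  let _ : Algebra ℤ_[p] ℂ := κ.toAlgebra
  let B := integralClosure ℤ_[p] ℂ
  have hN0 : N ≠ 0 := by rintro rfl; exact hN (dvd_zero p)
  have hint : ∀ y ∈ (f.map κ).roots, y ∈ B := fun y hy =>
    IsIntegral.of_pow (Nat.pos_of_ne_zero hN0) (by rw [hr y hy]; exact isIntegral_one)
  let Y : Multiset B := (f.map κ).roots.pmap Subtype.mk hint
  have hY : Y.map Subtype.val = (f.map κ).roots := by
    rw [Multiset.map_pmap]
    exact (Multiset.pmap_eq_map _ id _ hint).trans (Multiset.map_id _)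
  have hker : RingHom.ker (algebraMap ℤ_[p] B) ≤ IsLocalRing.maximalIdeal ℤ_[p] := by
    intro x hx
    have h1 : κ x = 0 := congrArg Subtype.val (RingHom.mem_ker.1 hx)
    rw [hκ (h1.trans (map_zero κ).symm)]
    exact zero_mem _
  obtain ⟨Q, hQ, hQc⟩ := Ideal.exists_ideal_over_maximal_of_isIntegral (S := B)
    (IsLocalRing.maximalIdeal ℤ_[p]) hker
  let _ : Field (B ⧸ Q) := Ideal.Quotient.field Q
  have hsurj : Function.Surjective (PadicInt.toZMod (p := p)) := ZMod.ringHom_surjective _
  let ι : ZMod p →+* B ⧸ Q := RingHom.liftOfSurjective PadicInt.toZMod hsurj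
    ⟨(Ideal.Quotient.mk Q).comp (algebraMap ℤ_[p] B), by
      rw [PadicInt.ker_toZMod, ← hQc, ← RingHom.comap_ker, Ideal.mk_ker]⟩
  have hι : ι.comp PadicInt.toZMod = (Ideal.Quotient.mk Q).comp (algebraMap ℤ_[p] B) :=
    RingHom.liftOfRightInverse_comp _ _ _ _
  have hfB : f.map (algebraMap ℤ_[p] B) =
      (Y.map fun a => Polynomial.X - Polynomial.C a).prod := by
    apply Polynomial.map_injective B.val.toRingHom Subtype.val_injective
    rw [Polynomial.map_map, Polynomial.map_multiset_prod, Multiset.map_map]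
    change f.map κ = _
    rw [(IsAlgClosed.splits (f.map κ)).eq_prod_roots_of_monic (hf.map κ), ← hY, Multiset.map_map]
    congr 1
    refine Multiset.map_congr rfl fun y _ => ?_
    simp
  have hYN : ∀ y ∈ Y, y ^ N = 1 := fun y hy =>
    Subtype.ext (hr y (hY ▸ Multiset.mem_map_of_mem _ hy))
  obtain ⟨h1, h2⟩ := liftB_core (Ideal.Quotient.mk Q) ι hN (f.map PadicInt.toZMod) Y hYN (by
    rw [Polynomial.map_map, hι, ← Polynomial.map_map, hfB, Polynomial.map_multiset_prod]
    simp only [Multiset.map_map]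
    congr 1
    refine Multiset.map_congr rfl fun y _ => ?_
    simp)
  refine ⟨?_, ?_⟩
  · unfold Stable
    rw [← hY]
    conv_rhs => rw [← h1]
    simp only [Multiset.map_map]
    rfl
  · rw [← h2, ← hY]
    exact Multiset.count_map_eq_count' Subtype.val Y Subtype.val_injective 1

theorem card_fix_eq {p : ℕ} [Fact p.Prime] {n N : ℕ} (hN : ¬ p ∣ N)
    (A : Matrix (Fin n) (Fin n) (ZMod p)) (hA : A ^ N = 1) :
    Nat.card {v : Fin n → ZMod p // A *ᵥ v = v} = p ^ A.charpoly.rootMultiplicity 1 := by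
  have hN' : (N : ZMod p) ≠ 0 := fun h => hN ((ZMod.natCast_eq_zero_iff N p).1 h)
  have hs : Module.End.IsSemisimple (Matrix.toLin' A) :=
    Module.End.isSemisimple_of_squarefree_aeval_eq_zero
      (Polynomial.X_pow_sub_one_separable_iff.2 hN').squarefree (by
        rw [map_sub, map_pow, Polynomial.aeval_X, map_one, ← Matrix.toLin'_pow, hA,
          Matrix.toLin'_one]
        exact sub_self _)
  rw [← Matrix.charpoly_toLin', ← LinearMap.finrank_maxGenEigenspace_eq,
    hs.isFinitelySemisimple.maxGenEigenspace_eq_eigenspace]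
  have := Module.natCard_eq_pow_finrank (K := ZMod p)
    (V := Module.End.eigenspace (Matrix.toLin' A) 1)
  rw [Nat.card_zmod] at this
  rw [← this]
  exact Nat.card_congr (Equiv.subtypeEquivRight fun v => by
    rw [Module.End.mem_eigenspace_iff, one_smul, Matrix.toLin'_apply])

end Pool.Agent.KGV
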