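import Pool.Agent.P.MP_9e9a11_al.Hensel
import Pool.Agent.P.MP_9e9a11_al.LiftB
import Pool.Agent.P.MP_9e9a11_al.Spec

namespace Pool.Agent.KGV

open Finset Matrix

theorem lift_rep {p : ℕ} [Fact p.Prime] {V : Type*} [AddCommGroup V] [Module (ZMod p) V]
    {m : ℕ} (b : Module.Basis (Fin m) (ZMod p) V) (G : Subgroup (V ≃ₗ[ZMod p] V))
    (hp : ¬ p ∣ Nat.card G) :
    ∃ ρ : G →* Matrix (Fin m) (Fin m) ℂ, (∀ g, (ρ g)ᴴ = ρ g⁻¹) ∧
      ∀ g, Stable p (eig (ρ g)) ∧
        Nat.card {x : V // g • x = x} = p ^ (eig (ρ g)).count 1 := by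
  classical
  have hc0 : Nat.card G ≠ 0 := fun h => hp (h ▸ dvd_zero p)
  haveI : Finite G := Nat.finite_of_card_ne_zero hc0
  let ρ0 : G →* Matrix (Fin m) (Fin m) (ZMod p) :=
    { toFun := fun g => LinearMap.toMatrix b b ((g : V ≃ₗ[ZMod p] V) : V →ₗ[ZMod p] V)
      map_one' := by
        have : (((1 : G) : V ≃ₗ[ZMod p] V) : V →ₗ[ZMod p] V) = LinearMap.id := rfl
        rw [this, LinearMap.toMatrix_id]
      map_mul' := fun g h => by
        rw [← LinearMap.toMatrix_mul]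
        rfl }
  obtain ⟨σ, hσ⟩ := hensel_lift hp ρ0
  obtain ⟨κ, hκ⟩ := exists_embed p
  let ρ1 : G →* Matrix (Fin m) (Fin m) ℂ := (κ.mapMatrix : _ →+* _).toMonoidHom.comp σ
  obtain ⟨B, ρ, hu, hB⟩ := exists_unitary ρ1
  refine ⟨ρ, hu, fun g => ?_⟩
  have he : eig (ρ g) = ((σ g).charpoly.map κ).roots := by
    have h1 : (ρ1 g).charpoly = (ρ g).charpoly := by
      rw [hB g, Matrix.charpoly_mul_comm, ← mul_assoc, Units.inv_mul, one_mul]
    have h2 : (ρ1 g).charpoly = (σ g).charpoly.map κ := Matrix.charpoly_map (σ g) κ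
    unfold eig
    rw [← h1, h2]
  have hg : g ^ Nat.card G = 1 := pow_card_eq_one'
  have hr := eig_pow_eq_one ρ g hg
  rw [he] at hr
  obtain ⟨h1, h2⟩ := stable_of_lift κ hκ hp (σ g).charpoly (Matrix.charpoly_monic _) hr
  rw [he]
  refine ⟨h1, ?_⟩
  have h3 : (σ g).charpoly.map PadicInt.toZMod = (ρ0 g).charpoly := by
    rw [← hσ g, Matrix.charpoly_map]
  have h4 : ρ0 g ^ Nat.card G = 1 := by rw [← map_pow, hg, map_one]
  have h5 := card_fix_eq hp (ρ0 g) h4
  rw [h2, h3, ← h5]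
  refine Nat.card_congr (Equiv.subtypeEquiv b.equivFun.toEquiv fun x => ?_)
  have h6 : ρ0 g *ᵥ b.equivFun x = b.equivFun (g • x) := by
    have := LinearMap.toMatrix_mulVec_repr b b ((g : V ≃ₗ[ZMod p] V) : V →ₗ[ZMod p] V) x
    exact this
  change _ ↔ ρ0 g *ᵥ b.equivFun x = b.equivFun x
  rw [h6, b.equivFun.injective.eq_iff]

theorem cyclic_of_comm {K V : Type*} [Field K] [AddCommGroup V] [Module K V] [Nontrivial V]
    (G : Subgroup (V ≃ₗ[K] V)) [Finite G]
    (hirr : ∀ W : Submodule K V, (∀ g ∈ G, ∀ v ∈ W, g v ∈ W) → W = ⊥ ∨ W = ⊤)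
    (hc : ∀ g h : G, g * h = h * g) : IsCyclic G := by
  let f : G →* Module.End K V :=
    { toFun := fun g => ((g : V ≃ₗ[K] V) : V →ₗ[K] V)
      map_one' := rfl
      map_mul' := fun _ _ => rfl }
  have hf : Function.Injective f := fun g h e =>
    Subtype.ext (LinearEquiv.toLinearMap_injective e)
  have hcomm : ∀ x ∈ Set.range f, ∀ y ∈ Set.range f, x * y = y * x := by
    rintro _ ⟨g, rfl⟩ _ ⟨h, rfl⟩
    rw [← map_mul, ← map_mul, hc]
  let R := Subring.closure (Set.range f)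
  letI : CommRing R := Subring.closureCommRingOfComm hcomm
  let u : G →* R := f.codRestrict R fun g => Subring.subset_closure ⟨g, rfl⟩
  haveI : NoZeroDivisors R := ⟨fun {x y} h => by
    have hx : ∀ g ∈ G, ∀ v ∈ LinearMap.ker x.1, g v ∈ LinearMap.ker x.1 := by
      intro g hg v hv
      have e : (x * u ⟨g, hg⟩ : R) = u ⟨g, hg⟩ * x := mul_comm _ _
      have e' : x.1 * f ⟨g, hg⟩ = f ⟨g, hg⟩ * x.1 := congrArg Subtype.val e
      have e'' : x.1 (g v) = g (x.1 v) := LinearMap.congr_fun e' v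
      rw [LinearMap.mem_ker] at hv ⊢
      rw [e'', hv, map_zero]
    rcases hirr _ hx with h0 | h1
    · right
      apply Subtype.ext
      ext v
      have e : x.1 (y.1 v) = 0 := LinearMap.congr_fun (congrArg Subtype.val h) v
      have : y.1 v ∈ LinearMap.ker x.1 := e
      rw [h0] at this
      exact this
    · left
      exact Subtype.ext (LinearMap.ker_eq_top.mp h1)⟩
  haveI : IsDomain R := NoZeroDivisors.to_isDomain R
  exact isCyclic_of_injective_ringHom u fun g h e => hf (congrArg Subtype.val e)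

end Pool.Agent.KGV
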