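import Pool.Agent.P.MP_9e9a11_al.Defs
import Pool.Agent.P.MP_9e9a11_al.Gauss
import Pool.Agent.P.MP_9e9a11_al.Stab
import Pool.Agent.P.MP_9e9a11_al.Red

namespace Pool.Agent.KGV

open Finset Matrix

variable {p D : ℕ} [Fact p.Prime]

namespace MomA

theorem prim {n : ℕ} (hn : n ≠ 0) : IsPrimitiveRoot (rt n) n := Complex.isPrimitiveRoot_exp n hn

theorem prim_iff {M : Type*} [CommMonoid M] {x : M} {n : ℕ} (h : IsPrimitiveRoot x n) (hn : n ≠ 0)
    (a b : ℕ) : x ^ a = x ^ b ↔ a ≡ b [MOD n] := by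
  rw [(isOfFinOrder_iff_pow_eq_one.2 ⟨n, Nat.pos_of_ne_zero hn, h.pow_eq_one⟩).pow_eq_pow_iff_modEq,
    ← h.eq_orderOf]

theorem rt_mul {a b : ℕ} (hb : b ≠ 0) : rt (a * b) ^ b = rt a := by
  have : (b : ℂ) ≠ 0 := by exact_mod_cast hb
  rw [rt, rt, ← Complex.exp_nat_mul]
  congr 1
  push_cast
  field_simp

theorem sub_ne {d : ℕ} (hd : 0 < d) : p ^ d - 1 ≠ 0 := by
  have := Nat.one_lt_pow hd.ne' (Fact.out : p.Prime).one_lt
  omega

theorem pow_pow {M : Type*} [Monoid M] {d : ℕ} {z : M} (hz : z ^ (p ^ d - 1) = 1) :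
    z ^ p ^ d = z := by
  have := Nat.one_le_pow d p (Fact.out : p.Prime).pos
  rw [← Nat.sub_add_cancel this, pow_succ, hz, one_mul]

open Classical in
/-- The indicator of `rt (p ^ d - 1) ^ s = z`. -/
noncomputable def ind (p D : ℕ) [Fact p.Prime] (d : ℕ) (z : ℂ) (s : ℕ) : GaloisField p D :=
  if rt (p ^ d - 1) ^ s = z then 1 else 0

theorem geo (hD : 0 < D) {d : ℕ} (hd : 0 < d) (hdD : d ∣ D) (κ s : ℕ) :
    -∑ k ∈ range (p ^ d - 1), (gamd p D d ^ k) ^ s * (gamd p D d)⁻¹ ^ (κ * k) =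
      ind p D d (rt (p ^ d - 1) ^ κ) s := by
  have hN := sub_ne (p := p) hd
  have hg : IsPrimitiveRoot (gamd p D d) (p ^ d - 1) :=
    orderOf_gamd (p := p) hD hd hdD ▸ IsPrimitiveRoot.orderOf (gamd p D d)
  have h0 : gamd p D d ≠ 0 := hg.ne_zero hN
  obtain ⟨w, hw⟩ : ∃ w, w = gamd p D d ^ s * (gamd p D d)⁻¹ ^ κ := ⟨_, rfl⟩
  have h1 : ∀ k, (gamd p D d ^ k) ^ s * (gamd p D d)⁻¹ ^ (κ * k) = w ^ k := fun k => by
    rw [hw, mul_pow, ← pow_mul, ← pow_mul, ← pow_mul, mul_comm k s]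
  have h2 : w = 1 ↔ rt (p ^ d - 1) ^ s = rt (p ^ d - 1) ^ κ := by
    rw [hw, inv_pow, mul_inv_eq_one₀ (pow_ne_zero _ h0), prim_iff hg hN, prim_iff (prim hN) hN]
  have h3 : w ^ (p ^ d - 1) = 1 := by
    rw [hw, mul_pow, pow_right_comm, hg.pow_eq_one, pow_right_comm, inv_pow _ (p ^ d - 1),
      hg.pow_eq_one]
    simp
  simp only [h1, ind]
  split_ifs with h
  · have := Nat.one_le_pow d p (Fact.out : p.Prime).pos
    simp [h2.2 h, Nat.cast_sub this, hd.ne']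
  · rw [geom_sum_eq (mt h2.1 h), h3]
    simp

theorem tr_mem {d : ℕ} {t : GaloisField p D} (ht : t ^ p ^ d = t) :
    ∃ c : ZMod p, algebraMap (ZMod p) (GaloisField p D) c = ∑ l ∈ range d, t ^ p ^ l := by
  have h1 : (∑ l ∈ range d, t ^ p ^ l) ^ p = ∑ l ∈ range d, t ^ p ^ l := by
    rw [sum_pow_char]
    simp only [← pow_mul, ← pow_succ]
    have h2 := sum_range_succ (fun l => t ^ p ^ l) d
    rw [sum_range_succ', ht, pow_zero, pow_one] at h2
    exact add_right_cancel h2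
  obtain ⟨m, hm⟩ := (mem_bot_iff_intCast p _).1 ((Subfield.mem_bot_iff_pow_eq_self _ p).2 h1)
  exact ⟨m, by rw [map_intCast, hm]⟩

variable {Red : ℂ → GaloisField p D → GaloisField p D → GaloisField p D → Prop}

theorem red_gs (hR : IsRed p D Red) (hD : 0 < D) {d : ℕ} (hd : 0 < d) (hdD : d ∣ D) {z : ℂ}
    (hz : z ^ (p ^ d - 1) = 1) :
    Red (-gs p D d 1 z) (ind p D d z 0) (∑ l ∈ range d, ind p D d z (p ^ l))
      (∑ l ∈ range d, ∑ l' ∈ range d, ind p D d z (p ^ l + p ^ l')) := by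
  have hN := sub_ne (p := p) hd
  have : NeZero (p ^ d - 1) := ⟨hN⟩
  obtain ⟨κ, -, rfl⟩ := (prim hN).eq_pow_of_pow_eq_one hz
  obtain ⟨R, hR'⟩ : p ^ d - 1 ∣ p ^ D - 1 := Nat.pow_sub_one_dvd_pow_sub_one p hdD
  have hR0 : R ≠ 0 := by
    rintro rfl
    exact sub_ne hD hR'
  have hg : gamd p D d = (gam p D : GaloisField p D) ^ R := by
    rw [gamd, hR', Nat.mul_div_cancel_left _ (Nat.pos_of_ne_zero hN)]
  have h1 : ∀ m, Red (rt (p ^ d - 1) ^ m) ((gamd p D d)⁻¹ ^ m) 0 0 := fun m => by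
    have := hR.zeta_pow (R * m)
    rwa [pow_mul, pow_mul, hR', rt_mul hR0, Units.val_inv_eq_inv_val, inv_pow, ← hg] at this
  have h2 : ∀ k, Red (Psi p D 1 (∑ l ∈ range d, (gamd p D d ^ k) ^ p ^ l) *
      (rt (p ^ d - 1) ^ κ) ^ k) ((gamd p D d)⁻¹ ^ (κ * k))
      ((∑ l ∈ range d, (gamd p D d ^ k) ^ p ^ l) * (gamd p D d)⁻¹ ^ (κ * k))
      ((∑ l ∈ range d, (gamd p D d ^ k) ^ p ^ l) ^ 2 * (gamd p D d)⁻¹ ^ (κ * k)) := fun k => by
    obtain ⟨c, hc⟩ := tr_mem (d := d) (t := gamd p D d ^ k) (pow_pow (by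
      rw [pow_right_comm, ← orderOf_gamd hD hd hdD, pow_orderOf_eq_one, one_pow]))
    have h3 : lam p D (algebraMap (ZMod p) (GaloisField p D) c) = c := by
      rw [Algebra.algebraMap_eq_smul_one, map_smul, lam_one, smul_eq_mul, mul_one]
    have h4 := hR.mul (hR.eps_pow c) (h1 (κ * k))
    rw [← hc, Psi, h3, one_mul, ← pow_mul]
    simpa only [one_mul, mul_zero, zero_add, add_zero] using h4
  have h5 := hR.mul (hR.int (-1)) (hR.sum (range (p ^ d - 1)) _ _ _ _ fun k _ => h2 k)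
  simp only [Int.cast_neg, Int.cast_one, neg_mul, one_mul, zero_mul, mul_zero, add_zero] at h5
  convert h5 using 1
  · rfl
  · simp [← geo hD hd hdD]
  · simp only [← geo hD hd hdD, sum_neg_distrib, sum_mul]
    rw [sum_comm]
  · simp only [← geo hD hd hdD, sum_neg_distrib, sq, pow_add]
    simp only [sum_mul_sum]
    simp only [sum_mul]
    rw [sum_comm (s := range (p ^ d - 1))]
    exact congrArg _ (sum_congr rfl fun _ _ => sum_comm)

theorem shift (f : ℕ → ℂ) (d : ℕ) : f 0 ::ₘ (Multiset.range d).map (fun l => f (l + 1)) =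
    f d ::ₘ (Multiset.range d).map f := by
  induction d with
  | zero => simp
  | succ d ih =>
    rw [Multiset.range_succ, Multiset.map_cons, Multiset.map_cons, Multiset.cons_swap, ih]

theorem orb_pow {d : ℕ} {w : ℂ} (hw : w ^ (p ^ d - 1) = 1) (l : ℕ) :
    orb p d (w ^ p ^ l) = orb p d w := by
  induction l with
  | zero => simp
  | succ l ih =>
    have h1 : (w ^ p ^ l) ^ p ^ d = w ^ p ^ l := by rw [pow_right_comm, pow_pow hw]
    have h2 := shift (fun k => (w ^ p ^ l) ^ p ^ k) d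
    simp only [h1, pow_zero, pow_one, Multiset.cons_inj_right] at h2
    rw [← ih, orb, orb, ← h2]
    refine Multiset.map_congr rfl fun k _ => ?_
    rw [← pow_mul, ← pow_mul]
    congr 1
    ring

theorem first (hp : 5 ≤ p) {d : ℕ} (hd : 0 < d) (z : ℂ) :
    ∑ l ∈ range d, ind p D d z (p ^ l) = 0 ∨ (∑ l ∈ range d, ind p D d z (p ^ l) = 1 ∧
      orb p d z = orb p d (rt (p ^ d - 1))) := by
  have hN := sub_ne (p := p) hd
  by_cases h : ∃ l ∈ range d, rt (p ^ d - 1) ^ p ^ l = z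
  · obtain ⟨l, hl, rfl⟩ := h
    have lt : ∀ k ∈ range d, p ^ k < p ^ d - 1 := fun k hk => by
      have h1 : p ^ (k + 1) ≤ p ^ d := Nat.pow_le_pow_right (by omega) (mem_range.1 hk)
      have h2 : 1 ≤ p ^ k := Nat.one_le_pow _ _ (by omega)
      have h3 : p ^ k * 5 ≤ p ^ (k + 1) := Nat.mul_le_mul_left _ hp
      omega
    refine Or.inr ⟨?_, orb_pow (prim hN).pow_eq_one l⟩
    exact (sum_eq_single_of_mem l hl fun k hk hkl => if_neg fun h => hkl (Nat.pow_right_injective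
      (show 2 ≤ p by omega) ((prim hN).pow_inj (lt k hk) (lt l hl) h))).trans (if_pos rfl)
  · exact Or.inl (sum_eq_zero fun l hl => if_neg fun h' => h ⟨l, hl, h'⟩)

theorem orb_one (p d : ℕ) : orb p d 1 = Multiset.replicate d 1 := by
  simp [orb]

theorem alpha_one {n : ℕ} (hD : Big n D) {α : ZMod p → Multiset ℂ → ℂ} (hα : IsAlpha p D n α)
    (hn : 1 ≤ n) (r : ℕ) : α 1 (Multiset.replicate r 1) = 1 := by
  have h := hα.cyc 1 one_ne_zero 1 one_pos hn 1 (one_pow _)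
  rw [gs_one hD.1 one_ne_zero, neg_neg, orb_one] at h
  induction r with
  | zero => exact hα.zero 1
  | succ r ih => rw [Multiset.replicate_add, hα.add, ih, h, one_mul]

end MomA

open MomA

theorem moments (hp : 5 ≤ p) {n : ℕ} (hD : Big n D) {α : ZMod p → Multiset ℂ → ℂ}
    (hα : IsAlpha p D n α)
    {Red : ℂ → GaloisField p D → GaloisField p D → GaloisField p D → Prop} (hR : IsRed p D Red)
    {Y : Multiset ℂ} (hY : Stable p Y) (h0 : (0 : ℂ) ∉ Y) (hn : Y.card ≤ n) :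
    ∃ m0 m1 m2, Red (α 1 Y) m0 m1 m2 ∧ ((∀ y ∈ Y, y = 1) → m0 = 1) ∧
      ((∃ y ∈ Y, y ≠ 1) → m0 = 0) ∧ (m1 = 0 ∨ (m1 = 1 ∧ ∃ d, IsS p d Y)) := by
  revert hn
  refine stable_induction (P := fun Y => Y.card ≤ n → ∃ m0 m1 m2, Red (α 1 Y) m0 m1 m2 ∧
    ((∀ y ∈ Y, y = 1) → m0 = 1) ∧ ((∃ y ∈ Y, y ≠ 1) → m0 = 0) ∧
    (m1 = 0 ∨ (m1 = 1 ∧ ∃ d, IsS p d Y))) (by omega) (fun _ => ?_) ?_ Y hY h0
  · refine ⟨1, 0, 0, ?_, fun _ => rfl, by simp, Or.inl rfl⟩
    simpa [hα.zero] using hR.int 1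
  · intro d z Y hd hz _ _ _ ih hn
    have hc : (orb p d z).card = d := by simp [orb]
    rw [Multiset.card_add, hc] at hn
    obtain ⟨a, b, c, h1, h2, h3, h4⟩ := ih (by omega)
    by_cases hz1 : z = 1
    · subst hz1
      rw [orb_one, hα.add, alpha_one hD hα (by omega), one_mul]
      refine ⟨a, b, c, h1, fun h => h2 fun y hy => h y (Multiset.mem_add.2 (Or.inr hy)), ?_, ?_⟩
      · rintro ⟨y, hy, hy1⟩
        exact h3 ⟨y, (Multiset.mem_add.1 hy).resolve_left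
          fun h => hy1 (Multiset.eq_of_mem_replicate h), hy1⟩
      · refine h4.imp_right ?_
        rintro ⟨h5, e, he, r, rfl⟩
        exact ⟨h5, e, he, r + d, by rw [Multiset.replicate_add]; abel⟩
    · have h5 := hR.mul (red_gs hR hD.1 hd (hD.2 d hd (by omega)) hz) h1
      rw [← hα.cyc 1 one_ne_zero d hd (by omega) z hz, ← hα.add,
        show ind p D d z 0 = 0 from if_neg (by simpa using Ne.symm hz1)] at h5
      have hm : z ∈ orb p d z + Y := Multiset.mem_add.2 (Or.inl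
        (Multiset.mem_map.2 ⟨0, Multiset.mem_range.2 hd, by simp⟩))
      refine ⟨_, _, _, h5, fun h => absurd (h z hm) hz1, fun _ => zero_mul _, ?_⟩
      rw [zero_mul, zero_add]
      by_cases h6 : ∃ y ∈ Y, y ≠ 1
      · exact Or.inl (by rw [h3 h6, mul_zero])
      · have h7 : ∀ y ∈ Y, y = 1 := fun y hy => by_contra fun h => h6 ⟨y, hy, h⟩
        rw [h2 h7, mul_one]
        refine (first hp hd z).imp_right fun h => ⟨h.1, d, hd, Y.card, ?_⟩
        rw [h.2, ← Multiset.eq_replicate_card.2 h7]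

theorem moments_twelve [Fact (Nat.Prime 5)] {n : ℕ} (hD : Big n D)
    {α : ZMod 5 → Multiset ℂ → ℂ} (hα : IsAlpha 5 D n α)
    {Red : ℂ → GaloisField 5 D → GaloisField 5 D → GaloisField 5 D → Prop} (hR : IsRed 5 D Red)
    (hn : 2 ≤ n) (r : ℕ) :
    Red (α 1 (orb 5 2 (rt 12) + Multiset.replicate r 1)) 0 0 1 := by
  have h1 : rt 24 ^ 2 = rt 12 := by
    have := rt_mul (a := 12) two_ne_zero
    rwa [show 12 * 2 = 24 from rfl] at this
  have hz : rt 12 ^ (5 ^ 2 - 1) = 1 := by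
    rw [show 5 ^ 2 - 1 = 12 * 2 from rfl, pow_mul, (prim (n := 12) (by norm_num)).pow_eq_one,
      one_pow]
  have h2 : ∀ s < 24, ind 5 D 2 (rt 12) s = if s = 2 then 1 else 0 := fun s hs => by
    rw [ind, show 5 ^ 2 - 1 = 24 from rfl]
    refine if_congr ⟨fun h => ?_, ?_⟩ rfl rfl
    · exact (prim (n := 24) (by norm_num)).pow_inj hs (by norm_num) (h.trans h1.symm)
    · rintro rfl
      exact h1
  have h3 := red_gs hR hD.1 two_pos (hD.2 2 two_pos hn) hz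
  rw [hα.add, alpha_one hD hα (by omega), mul_one, hα.cyc 1 one_ne_zero 2 two_pos hn _ hz]
  have e : ∀ f : ℕ → GaloisField 5 D, ∑ l ∈ range 2, f l = f 0 + f 1 := fun f => by
    rw [sum_range_succ, sum_range_one]
  rw [e, e, e, e] at h3
  simpa [h2] using h3

end Pool.Agent.KGV
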