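import Pool.Agent.P.MP_9e9a11_al.Lift
import Pool.Agent.P.MP_9e9a11_al.Count
import Pool.Agent.P.MP_9e9a11_al.Alpha
import Pool.Agent.P.MP_9e9a11_al.Key
import Pool.Agent.P.MP_9e9a11_al.Mom
import Pool.Agent.P.MP_9e9a11_al.CoreB
import Pool.Agent.P.MP_9e9a11_al.CoreC
import Pool.Agent.P.MP_9e9a11_al.GeoA
import Pool.Agent.P.MP_9e9a11_al.GeoB

namespace Pool.Agent.KGV

open Finset Matrix

theorem rt_ne_one {m : ℕ} (hm : 1 < m) : rt m ≠ 1 :=
  (Complex.isPrimitiveRoot_exp m (by omega)).ne_one hm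

theorem IsS.exists_ne {d : ℕ} {Y : Multiset ℂ} (h : IsS 5 d Y) : ∃ y ∈ Y, y ≠ 1 := by
  obtain ⟨hd, r, rfl⟩ := h
  refine ⟨rt (5 ^ d - 1), Multiset.mem_add.2 (Or.inl ?_), rt_ne_one ?_⟩
  · exact Multiset.mem_map.2 ⟨0, Multiset.mem_range.2 hd, by simp⟩
  · have : 5 ^ 1 ≤ 5 ^ d := Nat.pow_le_pow_right (by norm_num) hd
    omega

theorem comm_of_closure {G : Type*} [Group G] {S : Set G} (hS : Subgroup.closure S = ⊤) {a : G}
    (ha : ∀ b ∈ S, a * b = b * a) (g : G) : a * g = g * a := by
  have : Subgroup.closure S ≤ Subgroup.centralizer {a} :=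
    (Subgroup.closure_le _).2 fun b hb => Subgroup.mem_centralizer_singleton_iff.2 (ha b hb).symm
  rw [hS] at this
  exact (Subgroup.mem_centralizer_singleton_iff.1 (this (Subgroup.mem_top g))).symm

theorem comm_of_extremal [Fact (Nat.Prime 5)] {V : Type*} [AddCommGroup V] [Module (ZMod 5) V]
    {n : ℕ} (b : Module.Basis (Fin (n + 1)) (ZMod 5) V) (G : Subgroup (V ≃ₗ[ZMod 5] V))
    (hp : ¬ 5 ∣ Nat.card G)
    (hirr : ∀ W : Submodule (ZMod 5) V, (∀ g ∈ G, ∀ v ∈ W, g v ∈ W) → W = ⊥ ∨ W = ⊤)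
    (hk : Nat.card (ConjClasses (Multiplicative V ⋊[act G] G)) = Nat.card V) (g h : G) :
    g * h = h * g := by
  classical
  have hc0 : Nat.card G ≠ 0 := fun h => hp (h ▸ dvd_zero 5)
  have : Finite G := Nat.finite_of_card_ne_zero hc0
  have : Module.Finite (ZMod 5) V := Module.Finite.of_basis b
  have : Finite V := Module.finite_of_finite (ZMod 5)
  let _ : Fintype G := Fintype.ofFinite G
  let _ : Fintype V := Fintype.ofFinite V
  have hV : Fintype.card V = 5 ^ (n + 1) := by
    rw [Module.card_eq_pow_finrank (K := ZMod 5), ZMod.card, Module.finrank_eq_card_basis b,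
      Fintype.card_fin]
  set D := (n + 1).factorial * (Nat.card G).totient with hDdef
  have hD0 : 0 < D := Nat.mul_pos (Nat.factorial_pos _) (Nat.totient_pos.2 (Nat.pos_of_ne_zero hc0))
  have hDf : (n + 1).factorial ∣ D := dvd_mul_right _ _
  have hD : Big (n + 1) D := ⟨hD0, fun e he hen => (Nat.dvd_factorial he hen).trans hDf⟩
  have hexp : ∀ g : G, g ^ (5 ^ D - 1) = 1 := by
    intro g
    have h1 : Nat.Coprime 5 (Nat.card G) := (Nat.Prime.coprime_iff_not_dvd Fact.out).2 hp
    have h2 : 5 ^ D ≡ 1 [MOD Nat.card G] := by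
      have := (Nat.ModEq.pow_totient h1).pow (n + 1).factorial
      rwa [one_pow, ← pow_mul, mul_comm] at this
    obtain ⟨c, hc⟩ := (Nat.modEq_iff_dvd' (Nat.one_le_pow _ _ (by norm_num))).1 h2.symm
    rw [hc, pow_mul, pow_card_eq_one', one_pow]
  have hN : 0 < 5 ^ D - 1 := by
    have : 5 ^ 1 ≤ 5 ^ D := Nat.pow_le_pow_right (by norm_num) hD0
    omega
  obtain ⟨ρ, hu, hρ⟩ := lift_rep b G hp
  have hcard : ∀ g, (eig (ρ g)).card = n + 1 := fun g => by rw [card_eig, Fintype.card_fin]
  have h0 : ∀ g, (0 : ℂ) ∉ eig (ρ g) := fun g hm => by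
    have := eig_pow_eq_one ρ g (hexp g) 0 hm
    rw [zero_pow hN.ne'] at this
    exact zero_ne_one this
  have hne : ∀ g : G, g ≠ 1 → ∃ y ∈ eig (ρ g), y ≠ 1 := by
    intro g hg
    by_contra hcon
    push Not at hcon
    have h1 : (eig (ρ g)).count 1 = n + 1 :=
      (Multiset.count_eq_card.2 fun y hy => (hcon y hy).symm).trans (hcard g)
    have h2 := (hρ g).2
    rw [h1, ← hV, Nat.card_eq_fintype_card, Fintype.card_subtype] at h2
    have h3 := Finset.eq_univ_of_card _ h2
    apply hg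
    apply Subtype.ext
    ext x
    have : x ∈ univ.filter fun x : V => g • x = x := by rw [h3]; exact mem_univ x
    exact (mem_filter.1 this).2
  have hone : ∀ y ∈ eig (ρ 1), y = 1 := fun y hy => by
    simpa using eig_pow_eq_one ρ 1 (N := 1) (one_pow 1) y hy
  have hinj : Function.Injective ρ := by
    rw [injective_iff_map_eq_one]
    intro g hg
    by_contra hg1
    obtain ⟨y, hy, hy1⟩ := hne g hg1
    rw [hg, ← map_one ρ] at hy
    exact hy1 (hone y hy)
  obtain ⟨α, hα⟩ := exists_alpha (p := 5) hD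
  obtain ⟨P, hP⟩ := key hD0 hDf hα
  obtain ⟨Red, hR⟩ := exists_red (p := 5) (D := D) le_rfl hD0
  let a : ZMod 5 → G → ℂ := fun i g =>
    MvPolynomial.aeval (fun k : Fin (n + 1) => (eig (ρ g)).esymm (k + 1)) (P i)
  have hal : ∀ j, j ≠ 0 → ∀ g, al 5 a j g = α j (eig (ρ g)) := fun j hj g =>
    (hP j hj _ (hρ g).1 (h0 g) (hcard g)).symm
  choose m0 m1 M hm hm0 hm0' hm1 using fun g : G =>
    moments le_rfl hD hα hR (hρ g).1 (h0 g) (hcard g).le
  let S : Finset G := univ.filter fun g => m1 g = 1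
  have hS : ∀ g ∈ S, ∃ d, IsS 5 d (eig (ρ g)) := by
    intro g hg
    rcases hm1 g with h | h
    · exact absurd (h.symm.trans (mem_filter.1 hg).2) zero_ne_one
    · exact h.2
  have hS0 : ∀ g, g ∉ S → m1 g = 0 := fun g hg =>
    (hm1 g).resolve_right fun h => hg (mem_filter.2 ⟨mem_univ _, h.1⟩)
  have h1S : (1 : G) ∉ S := fun h => by
    obtain ⟨d, hd⟩ := hS 1 h
    obtain ⟨y, hy, hy1⟩ := hd.exists_ne
    exact hy1 (hone y hy)
  have hconj : ∀ g x : G, m1 (x * g * x⁻¹) = m1 g ∧ M (x * g * x⁻¹) = M g := fun g x => by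
    have := hm (x * g * x⁻¹)
    rw [eig_conj] at this
    exact (hR.func this (hm g)).2
  have hSc : ∀ g ∈ S, ∀ x : G, x * g * x⁻¹ ∈ S := fun g hg x =>
    mem_filter.2 ⟨mem_univ _, (hconj g x).1.trans (mem_filter.1 hg).2⟩
  have hE : Extr 5 D G V Red a S M :=
    { five := le_rfl
      pos := hD0
      red := hR
      cop := by rwa [← Nat.card_eq_fintype_card]
      expo := hexp
      vc := fun i => aeval_esymm_mem ρ (P i)
      norm := fun j hj g => by
        rw [hal j hj, hal (-j) (neg_ne_zero.2 hj), eig_inv, (hρ g).2, hV]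
        have := hα.norm hD hj (hρ g).1 (h0 g) (hcard g).le
        rw [hcard g] at this
        exact_mod_cast this
      red_one := by
        rw [hal 1 one_ne_zero, ← hm0 1 hone, ← hS0 1 h1S]
        exact hm 1
      one_notMem := h1S
      red_mem := fun g hg => by
        have := hm g
        rw [hm0' g (hne g fun e => h1S (e ▸ hg)), (mem_filter.1 hg).2] at this
        rwa [hal 1 one_ne_zero]
      red_notMem := fun g hg hg' => by
        have := hm g
        rw [hm0' g (hne g hg), hS0 g hg'] at this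
        rwa [hal 1 one_ne_zero]
      conj_mem := hSc
      conj_M := fun g x => (hconj g x).2
      extr := by
        rw [← count_classes G hp, hk, Nat.card_eq_fintype_card, Nat.card_eq_fintype_card] }
  have hgen := core_gen hE 0 fun g => smul_zero g
  by_cases hA : ∃ x ∈ S, ∃ d, 2 ≤ d ∧ IsS 5 d (eig (ρ x))
  · obtain ⟨x, hx, d, hd, hxd⟩ := hA
    have hcen : ∀ y, x * y = y * x := comm_of_closure hgen fun y hy => by
      obtain ⟨e, he⟩ := hS y hy
      apply hinj
      rw [map_mul, map_mul]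
      exact geoA ρ hu hd hxd he
    let W : Submodule (ZMod 5) V := LinearMap.eqLocus
      (((x : V ≃ₗ[ZMod 5] V)) : V →ₗ[ZMod 5] V) LinearMap.id
    have hW : ∀ y ∈ G, ∀ v ∈ W, y v ∈ W := by
      intro y hy v hv
      have e : (x * ⟨y, hy⟩) • v = ((⟨y, hy⟩ : G) * x) • v := by rw [hcen]
      have hv' : x • v = v := hv
      rw [mul_smul, mul_smul, hv'] at e
      exact e
    have hW0 : W = ⊥ := (hirr W hW).resolve_right fun e => by
      apply h1S
      have : x = 1 := by
        apply Subtype.ext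
        ext v
        have : v ∈ W := e ▸ Submodule.mem_top
        exact this
      exact this ▸ hx
    have hfix : Nat.card {v : V // x • v = v} = 1 := by
      rw [Nat.card_eq_one_iff_unique]
      refine ⟨⟨fun u v => Subtype.ext ?_⟩, ⟨⟨0, smul_zero x⟩⟩⟩
      have hu : u.1 ∈ W := u.2
      have hv : v.1 ∈ W := v.2
      rw [hW0, Submodule.mem_bot] at hu hv
      rw [hu, hv]
    have hcount : (eig (ρ x)).count 1 = 0 := by
      have := (hρ x).2
      rw [hfix] at this
      exact (Nat.pow_eq_one.1 this.symm).resolve_left (by norm_num)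
    have hnd : (eig (ρ x)).Nodup := by
      obtain ⟨_, r, hr⟩ := hxd
      rw [hr, Multiset.count_add, Multiset.count_replicate_self] at hcount
      have : r = 0 := by omega
      rw [hr, this, Multiset.replicate_zero, add_zero]
      exact orb_nodup (by norm_num)
    apply hinj
    rw [map_mul, map_mul]
    exact comm_of_nodup ρ hnd (fun y => by rw [← map_mul, ← map_mul, hcen]) g h
  · have hS1 : ∀ x ∈ S, IsS 5 1 (eig (ρ x)) := by
      intro x hx
      obtain ⟨d, hd⟩ := hS x hx
      have h1 : ¬ 2 ≤ d := fun e => hA ⟨x, hx, d, e, hd⟩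
      have h2 := hd.1
      have : d = 1 := by omega
      exact this ▸ hd
    have hSS : ∀ x ∈ S, ∀ y ∈ S, x * y = y * x := by
      intro x hx y hy
      by_contra hxy
      obtain ⟨hn, ⟨r, hr⟩, hc⟩ := geoB ρ hu hinj (fun g => (hρ g).1) S hS1 hSc hx hy hxy
      have h1 := moments_twelve hD hα hR hn r
      rw [← hr] at h1
      have h2 : M (x * y) = 1 := (hR.func (hm _) h1).2.2
      have h3 := core_count hE 0 (fun g => smul_zero g) (x * y)
      rw [h2] at h3
      have h4 : ((S ×ˢ S).filter fun u => u.1 * u.2 = x * y).card ≡ 1 [MOD 5] :=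
        (CharP.natCast_eq_natCast (GaloisField 5 D) 5).1 (by rw [h3, Nat.cast_one])
      rcases hc with hc | hc <;> rw [hc] at h4 <;> exact absurd h4 (by decide)
    exact comm_of_closure hgen (fun y hy => (comm_of_closure hgen (hSS y hy) g).symm) h

end Pool.Agent.KGV
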